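import Pool.Agent.Work.MP_e3f5d9_al_real48.RB

/-!
# R4, real systems: the class of the gaps
-/

set_option autoImplicit false
set_option linter.unusedSectionVars false

open Finset

namespace R4.Rl

variable {L : Type} [Fintype L] [DecidableEq L]

/-- The letters that are at least `q`. -/
def up (rk : L → ℕ) (q : L) : Finset L := univ.filter fun i => rk q ≤ rk i

/-- The class of all gaps. -/
def gE (D : KS L) (rk : L → ℕ) : Finset (Finset L) :=
  (univ.filter fun q => q ≠ D.o).image (up rk)

@[simp] lemma mem_up {rk : L → ℕ} {q i : L} : i ∈ up rk q ↔ rk q ≤ rk i := by simp [up]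

lemma mem_gE {D : KS L} {rk : L → ℕ} {A : Finset L} :
    A ∈ gE D rk ↔ ∃ q, q ≠ D.o ∧ up rk q = A := by simp [gE]

end R4.Rl
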