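import Pool.Agent.Work.MP_e3f5d9_al.B1p

/-!
# R4, real systems, part A: words, error counters, the cut lemma
-/

set_option autoImplicit false
set_option linter.unusedSectionVars false

open Finset

namespace R4.Rl

variable {L : Type} [DecidableEq L]

/-! ### General facts on `red` -/

/-- A function that does not grow when two adjacent equal letters are removed. -/
lemma red_le (W : List L → ℤ) (h : ∀ (A B : List L) (x : L), W (A ++ B) ≤ W (A ++ x :: x :: B)) :
    ∀ z A : List L, W (A ++ red z) ≤ W (A ++ z) := by
  intro z
  induction z with
  | nil => intro A; simp [red]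
  | cons x w ih =>
    intro A
    have h1 : W (A ++ x :: red w) ≤ W (A ++ x :: w) := by
      have := ih (A ++ [x])
      simpa using this
    have h2 : W (A ++ red (x :: w)) ≤ W (A ++ x :: red w) := by
      rcases hr : red w with _ | ⟨y, t⟩
      · simp [red, hr]
      · by_cases hxy : x = y
        · subst hxy
          have e : red (x :: w) = t := by simp [red, hr]
          rw [e]
          exact h A t x
        · have e : red (x :: w) = x :: y :: t := by simp [red, hr, hxy]
          rw [e]
    exact h2.trans h1

lemma red_le' (W : List L → ℤ) (h : ∀ (A B : List L) (x : L), W (A ++ B) ≤ W (A ++ x :: x :: B))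
    (z : List L) : W (red z) ≤ W z := by
  simpa using red_le W h z []

/-! ### Turning letters -/

/-- The letter `y` between `x` and `z` is a turning letter different from `o` and `e`. -/
def Turn (rk : L → ℕ) (o e x y z : L) : Prop :=
  (rk x < rk y ∧ rk z < rk y ∧ y ≠ e) ∨ (rk y < rk x ∧ rk y < rk z ∧ y ≠ o)

instance (rk : L → ℕ) (o e x y z : L) : Decidable (Turn rk o e x y z) := by
  unfold Turn; infer_instance

/-- Number of turning letters different from `o` and `e`. -/
def bt (rk : L → ℕ) (o e : L) : List L → ℕ
  | [] => 0
  | [_] => 0
  | [_, _] => 0
  | x :: y :: z :: t => (if Turn rk o e x y z then 1 else 0) + bt rk o e (y :: z :: t)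

/-- The error counter. -/
def F (rk : L → ℕ) (o e : L) (w : List L) : ℕ := viol w + bt rk o e w

section

variable (rk : L → ℕ) (o e : L)

lemma viol_cons_le {α : Type} [DecidableEq α] (x : α) (w : List α) :
    viol w ≤ viol (x :: w) ∧ viol (x :: w) ≤ viol w + 1 := by
  rcases w with _ | ⟨y, t⟩
  · simp [viol]
  · simp only [viol]
    split_ifs <;> omega

lemma bt_cons_le (x : L) (w : List L) : bt rk o e w ≤ bt rk o e (x :: w) ∧
    bt rk o e (x :: w) ≤ bt rk o e w + 1 := by
  rcases w with _ | ⟨y, _ | ⟨z, t⟩⟩
  · simp [bt]
  · simp [bt]
  · simp only [bt]
    split_ifs <;> omega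

lemma F_cons_le (x : L) (w : List L) : F rk o e w ≤ F rk o e (x :: w) ∧
    F rk o e (x :: w) ≤ F rk o e w + 2 := by
  have h1 := viol_cons_le x w
  have h2 := bt_cons_le rk o e x w
  unfold F
  omega

lemma viol_append {α : Type} [DecidableEq α] (A B : List α) :
    viol A + viol B ≤ viol (A ++ B) ∧ viol (A ++ B) ≤ viol A + viol B + 1 := by
  induction A with
  | nil => simp [viol]
  | cons x A ih =>
    rcases A with _ | ⟨y, A⟩
    · have := viol_cons_le x B
      simp only [List.cons_append, List.nil_append, viol]
      omega
    · simp only [List.cons_append, viol] at ih ⊢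
      omega

lemma bt_append (A B : List L) : bt rk o e A + bt rk o e B ≤ bt rk o e (A ++ B) ∧
    bt rk o e (A ++ B) ≤ bt rk o e A + bt rk o e B + 2 := by
  induction A with
  | nil => simp [bt]
  | cons x A ih =>
    rcases A with _ | ⟨y, _ | ⟨z, A⟩⟩
    · have := bt_cons_le rk o e x B
      simp only [List.cons_append, List.nil_append, bt]
      omega
    · have h1 := bt_cons_le rk o e y B
      have h2 := bt_cons_le rk o e x (y :: B)
      simp only [List.cons_append, List.nil_append, bt]
      omega
    · simp only [List.cons_append, bt] at ih ⊢
      omega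

lemma F_append (A B : List L) : F rk o e A + F rk o e B ≤ F rk o e (A ++ B) ∧
    F rk o e (A ++ B) ≤ F rk o e A + F rk o e B + 3 := by
  have h1 := viol_append A B
  have h2 := bt_append rk o e A B
  unfold F
  omega

@[simp] lemma F_nil : F rk o e [] = 0 := rfl
@[simp] lemma F_single (x : L) : F rk o e [x] = 0 := rfl
lemma F_two (x : L) : F rk o e [x, x] = 1 := by simp [F, viol, bt]

/-- The error counter of a word and of its reduction. -/
lemma F_le_red (z : List L) :
    (F rk o e z : ℤ) ≤ F rk o e (red z) + 4 * ((z.length : ℤ) - (red z).length) := by
  have := red_le' (fun z => 4 * (z.length : ℤ) - F rk o e z) (by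
    intro A B x
    have h1 := F_append rk o e A (x :: x :: B)
    have h2 := F_append rk o e [x, x] B
    have h3 := F_append rk o e A B
    have h4 := F_two rk o e x
    simp only [List.length_append, List.length_cons, List.cons_append, List.nil_append] at *
    push_cast
    omega) z
  linarith

/-! ### Adjacent pairs of a letter -/

/-- Number of adjacent pairs `i i`. -/
def adj (i : L) : List L → ℕ
  | [] => 0
  | [_] => 0
  | x :: y :: t => (if x = i ∧ y = i then 1 else 0) + adj i (y :: t)

lemma adj_append (i : L) (A B : List L) : adj i A + adj i B ≤ adj i (A ++ B) ∧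
    adj i (A ++ B) ≤ adj i A + adj i B + 1 := by
  induction A with
  | nil => simp [adj]
  | cons x A ih =>
    rcases A with _ | ⟨y, A⟩
    · rcases B with _ | ⟨z, B⟩
      · simp [adj]
      · simp only [List.cons_append, List.nil_append, adj]
        split_ifs <;> omega
    · simp only [List.cons_append, adj] at ih ⊢
      omega

/-- Removing a pair `i i` removes an adjacent pair. -/
lemma adj_remove (i : L) (A B : List L) : adj i (A ++ B) + 1 ≤ adj i (A ++ i :: i :: B) := by
  induction A with
  | nil =>
    rcases B with _ | ⟨z, B⟩
    · simp [adj]
    · simp only [List.nil_append, adj]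
      simp
      omega
  | cons x A ih =>
    rcases A with _ | ⟨y, A⟩
    · rcases B with _ | ⟨z, B⟩
      · simp only [List.cons_append, List.nil_append, adj] at ih ⊢
        omega
      · simp only [List.cons_append, List.nil_append, adj]
        simp only [and_self, if_true, and_true, true_and]
        split_ifs <;> simp_all <;> omega
    · simp only [List.cons_append, adj] at ih ⊢
      omega

/-- The restriction to the letters `o`, `e`, `i`. -/
def fl (i : L) (z : List L) : List L := z.filter fun x => x = o ∨ x = e ∨ x = i

lemma fl_append (i : L) (A B : List L) : fl o e i (A ++ B) = fl o e i A ++ fl o e i B := by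
  simp [fl]

/-- The cancellation inequality. -/
lemma canc (i : L) (hio : i ≠ o) (hie : i ≠ e) (hoe : o ≠ e) (z : List L) :
    (z.count i : ℤ) - (red z).count i ≤ 2 * adj i (fl o e i z) +
      ((z.count o : ℤ) - (red z).count o) + ((z.count e : ℤ) - (red z).count e) := by
  have h := red_le' (fun z => 2 * (adj i (fl o e i z) : ℤ) + z.count o + z.count e - z.count i) (by
    intro A B x
    simp only [fl_append, List.count_append, List.count_cons]
    by_cases hx : x = i
    · subst hx
      have e1 : fl o e x (x :: x :: B) = x :: x :: fl o e x B := by simp [fl]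
      have h1 := adj_remove x (fl o e x A) (fl o e x B)
      rw [e1]
      simp only [beq_iff_eq, hio, hie, if_false, if_true, beq_self_eq_true]
      push_cast
      omega
    · by_cases hxo : x = o
      · subst hxo
        have e1 : fl x e i (x :: x :: B) = x :: x :: fl x e i B := by simp [fl]
        have h1 := adj_append i (fl x e i A) (fl x e i B)
        have h2 := adj_append i (fl x e i A) (x :: x :: fl x e i B)
        have h3 := adj_append i [x, x] (fl x e i B)
        simp only [List.cons_append, List.nil_append] at h3
        rw [e1]
        simp only [beq_iff_eq, hx, hoe, if_false, if_true, beq_self_eq_true]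
        push_cast
        omega
      · by_cases hxe : x = e
        · subst hxe
          have e1 : fl o x i (x :: x :: B) = x :: x :: fl o x i B := by simp [fl]
          have h1 := adj_append i (fl o x i A) (fl o x i B)
          have h2 := adj_append i (fl o x i A) (x :: x :: fl o x i B)
          have h3 := adj_append i [x, x] (fl o x i B)
          simp only [List.cons_append, List.nil_append] at h3
          rw [e1]
          simp only [beq_iff_eq, hx, hxo, if_false, if_true, beq_self_eq_true]
          push_cast
          omega
        · have e1 : fl o e i (x :: x :: B) = fl o e i B := by simp [fl, hx, hxo, hxe]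
          rw [e1]
          simp only [beq_iff_eq, hx, hxo, hxe, if_false]
          push_cast
          omega) z
  have h0 : (0 : ℤ) ≤ adj i (fl o e i (red z)) := Int.natCast_nonneg _
  linarith

end

/-! ### The cut lemma -/

/-- A superadditive counter that vanishes on short words: a word with counter `k` is a product
of at most `2 k + 1` words with counter zero. -/
lemma cut (N : List L → ℕ) (h0 : N [] = 0) (h1 : ∀ x, N [x] = 0)
    (hs : ∀ A B, N A + N B ≤ N (A ++ B)) :
    ∀ Q : List L, ∃ ps : List (List L), ps.flatten = Q ∧ (∀ p ∈ ps, N p = 0) ∧
      ps.length ≤ 2 * N Q + 1 := by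
  intro Q
  induction hn : Q.length using Nat.strong_induction_on generalizing Q with
  | _ n ih =>
    by_cases hQ : N Q = 0
    · exact ⟨[Q], by simp, by simpa using hQ, by simp⟩
    · -- the shortest prefix with a positive counter
      have hex : ∃ m, N (Q.take m) ≠ 0 := ⟨Q.length, by rw [List.take_length]; exact hQ⟩
      classical
      set m := Nat.find hex with hm
      have hm1 : N (Q.take m) ≠ 0 := Nat.find_spec hex
      have hm0 : m ≠ 0 := by
        intro h
        rw [h, List.take_zero] at hm1
        exact hm1 h0
      obtain ⟨m', hm'⟩ : ∃ m', m = m' + 1 := ⟨m - 1, by omega⟩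
      have hm2 : N (Q.take m') = 0 := by
        by_contra h
        have := Nat.find_min' hex h
        omega
      have hlt : m' < Q.length := by
        by_contra h
        rw [not_lt] at h
        have e1 : Q.take m = Q := List.take_of_length_le (by omega)
        have e2 : Q.take m' = Q := List.take_of_length_le h
        rw [e1] at hm1
        rw [e2] at hm2
        exact hm1 hm2
      have hdrop : Q.drop m' = Q[m'] :: Q.drop (m' + 1) := List.drop_eq_getElem_cons hlt
      have hsplit : Q = Q.take m' ++ Q[m'] :: Q.drop (m' + 1) := by
        rw [← hdrop, List.take_append_drop]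
      have hN : N (Q.drop (m' + 1)) + 1 ≤ N Q := by
        have h2 := hs (Q.take m) (Q.drop m)
        rw [List.take_append_drop] at h2
        have h3 : 1 ≤ N (Q.take m) := Nat.one_le_iff_ne_zero.2 hm1
        rw [hm'] at h2 h3
        omega
      obtain ⟨ps, hp1, hp2, hp3⟩ := ih (Q.drop (m' + 1)).length (by
        rw [← hn, List.length_drop]
        omega) (Q.drop (m' + 1)) rfl
      refine ⟨Q.take m' :: [Q[m']] :: ps, ?_, ?_, ?_⟩
      · rw [List.flatten_cons, List.flatten_cons, hp1]
        simpa using hsplit.symm
      · intro p hp
        rcases List.mem_cons.1 hp with rfl | hp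
        · exact hm2
        · rcases List.mem_cons.1 hp with rfl | hp
          · exact h1 _
          · exact hp2 p hp
      · simp only [List.length_cons]
        omega

/-- A subadditive function on a product. -/
lemma flatten_le (W : List L → ℕ) (c K : ℕ) (h0 : W [] = 0) (hc : ∀ A B, W (A ++ B) ≤ W A + W B + c)
    (ps : List (List L)) (hK : ∀ p ∈ ps, W p ≤ K) : W ps.flatten ≤ (K + c) * ps.length := by
  induction ps with
  | nil => simp [h0]
  | cons p ps ih =>
    rw [List.flatten_cons, List.length_cons]
    have h1 := hc p ps.flatten
    have h2 := hK p (by simp)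
    have h3 := ih fun q hq => hK q (by simp [hq])
    nlinarith

end R4.Rl
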