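import Pool.Agent.Work.MP_e3f5d9_al_real48.RA
import Pool.Agent.Work.MP_e3f5d9_al.B1

/-!
# R4, real systems, part B: error free words, rounds and their children
-/

set_option autoImplicit false
set_option linter.unusedSectionVars false

open Finset

namespace R4.Rl

variable {L : Type} [Fintype L] [DecidableEq L]

/-- A real system: the letters are points of an interval, `o` is the left end and `e = nxt o` the
right end, the letters on the side `true` are on the left, `nxt` is decreasing on the left and
increasing on the right. -/
structure IsReal (D : KS L) (rk : L → ℕ) : Prop where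
  inj : ∀ i j, rk i = rk j → i = j
  o_min : ∀ i, rk D.o ≤ rk i
  e_max : ∀ i, rk i ≤ rk (D.nxt D.o)
  side_o : D.side D.o = true
  side_e : D.side (D.nxt D.o) = false
  cross : ∀ i j, D.side i = true → D.side j = false → rk i < rk j
  anti : ∀ i j, D.side i = true → D.side j = true → rk i < rk j → rk (D.nxt j) < rk (D.nxt i)
  mono : ∀ i j, D.side i = false → D.side j = false → rk i < rk j → rk (D.nxt i) < rk (D.nxt j)
  ne : D.nxt (D.nxt D.o) ≠ D.nxt D.o
  orb : ∀ i, ∃ k : ℕ, D.nxt^[k] D.o = i

section

variable {D : KS L} {rk : L → ℕ}

lemma IsReal.lt_of_ne (h : IsReal D rk) {i j : L} (hij : i ≠ j) (hr : ¬ rk i < rk j) :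
    rk j < rk i := by
  rcases Nat.lt_trichotomy (rk i) (rk j) with h1 | h1 | h1
  · exact absurd h1 hr
  · exact absurd (h.inj _ _ h1) hij
  · exact h1

lemma IsReal.oe (h : IsReal D rk) : D.o ≠ D.nxt D.o := fun hh => D.nxt_ne D.o hh.symm

/-- The direction after the letter `y`. -/
def dir (D : KS L) (y : L) (d : Bool) : Bool :=
  if y = D.nxt D.o then false else if y = D.o then true else d

/-- `x` is the last letter, `d` the direction of the motion (`true`: increasing). -/
def okp (D : KS L) (rk : L → ℕ) : L → Bool → List L → Prop
  | _, _, [] => True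
  | x, d, y :: w => (if d then rk x < rk y else rk y < rk x) ∧ okp D rk y (dir D y d) w

lemma okp_of_F (h : IsReal D rk) : ∀ (w : List L) (x : L),
    F rk D.o (D.nxt D.o) (x :: w) = 0 → ∃ d, okp D rk x d w := by
  intro w
  induction w with
  | nil => intro x _; exact ⟨true, trivial⟩
  | cons y w ih =>
    intro x hF
    have hF1 : F rk D.o (D.nxt D.o) (y :: w) = 0 := by
      have := F_cons_le rk D.o (D.nxt D.o) x (y :: w)
      omega
    have hxy : x ≠ y := by
      intro hxy
      unfold F at hF
      simp only [viol, hxy, if_true] at hF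
      omega
    obtain ⟨d', hd'⟩ := ih y hF1
    refine ⟨decide (rk x < rk y), ?_, ?_⟩
    · by_cases hlt : rk x < rk y
      · simp [hlt]
      · simp only [hlt, decide_false, Bool.false_eq_true, if_false]
        exact h.lt_of_ne hxy hlt
    · rcases w with _ | ⟨z, w⟩
      · trivial
      · -- the direction
        have hyz : y ≠ z := by
          intro hyz
          unfold F at hF1
          simp only [viol, hyz, if_true] at hF1
          omega
        have hturn : ¬ Turn rk D.o (D.nxt D.o) x y z := by
          intro hT
          unfold F at hF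
          simp only [bt, hT, if_true] at hF
          omega
        have hd'' : dir D y (decide (rk x < rk y)) = d' := by
          have h1 := hd'.1
          unfold dir
          by_cases hye : y = D.nxt D.o
          · rw [if_pos hye]
            cases d' with
            | false => rfl
            | true =>
              simp only [if_true] at h1
              have := h.e_max z
              rw [← hye] at this
              omega
          · rw [if_neg hye]
            by_cases hyo : y = D.o
            · rw [if_pos hyo]
              cases d' with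
              | true => rfl
              | false =>
                simp only [Bool.false_eq_true, if_false] at h1
                have := h.o_min z
                rw [← hyo] at this
                omega
            · rw [if_neg hyo]
              unfold Turn at hturn
              have hxy' : rk x ≠ rk y := fun hh => hxy (h.inj _ _ hh)
              cases d' with
              | true =>
                simp only [if_true] at h1
                simp only [decide_eq_true_eq]
                by_contra hcon
                exact hturn (Or.inr ⟨by omega, h1, hyo⟩)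
              | false =>
                simp only [Bool.false_eq_true, if_false] at h1
                simp only [decide_eq_false_iff_not]
                intro hcon
                exact hturn (Or.inl ⟨hcon, h1, hye⟩)
        rw [hd'']
        exact hd'

/-- Increasing words in interior letters. -/
def Inc (D : KS L) (rk : L → ℕ) (A : List L) : Prop :=
  A.Pairwise (fun x y => rk x < rk y) ∧ ∀ x ∈ A, x ≠ D.o ∧ x ≠ D.nxt D.o

/-- Decreasing words in interior letters. -/
def Dec (D : KS L) (rk : L → ℕ) (A : List L) : Prop :=
  A.Pairwise (fun x y => rk y < rk x) ∧ ∀ x ∈ A, x ≠ D.o ∧ x ≠ D.nxt D.o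

lemma okp_down (h : IsReal D rk) : ∀ (R : List L) (x : L), D.o ∉ R → okp D rk x false R →
    R.Pairwise (fun x y => rk y < rk x) ∧ ∀ y ∈ R, rk y < rk x ∧ y ≠ D.o ∧ y ≠ D.nxt D.o := by
  intro R
  induction R with
  | nil => intro x _ _; simp
  | cons y R ih =>
    intro x ho hok
    obtain ⟨h1, h2⟩ := hok
    simp only [Bool.false_eq_true, if_false] at h1
    have hyo : y ≠ D.o := fun hh => ho (by rw [hh]; simp)
    have hye : y ≠ D.nxt D.o := by
      intro hh
      have := h.e_max x
      rw [← hh] at this
      omega
    have hd : dir D y false = false := by simp [dir, hyo]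
    rw [hd] at h2
    obtain ⟨h3, h4⟩ := ih y (fun hh => ho (by simp [hh])) h2
    refine ⟨List.pairwise_cons.2 ⟨fun z hz => (h4 z hz).1, h3⟩, ?_⟩
    intro z hz
    rcases List.mem_cons.1 hz with rfl | hz
    · exact ⟨h1, hyo, hye⟩
    · exact ⟨(h4 z hz).1.trans h1, (h4 z hz).2⟩

/-- Upwards without `o`: increasing, then possibly `e` and decreasing. -/
lemma okp_up (h : IsReal D rk) : ∀ (R : List L) (x : L), D.o ∉ R → okp D rk x true R →
    (R.Pairwise (fun x y => rk x < rk y) ∧ ∀ y ∈ R, rk x < rk y ∧ y ≠ D.o ∧ y ≠ D.nxt D.o) ∨
    ∃ A B, R = A ++ D.nxt D.o :: B ∧ Inc D rk A ∧ (∀ y ∈ A, rk x < rk y) ∧ Dec D rk B := by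
  intro R
  induction R with
  | nil => intro x _ _; left; simp
  | cons y R ih =>
    intro x ho hok
    obtain ⟨h1, h2⟩ := hok
    simp only [if_true] at h1
    have hyo : y ≠ D.o := fun hh => ho (by rw [hh]; simp)
    have hoR : D.o ∉ R := fun hh => ho (by simp [hh])
    by_cases hye : y = D.nxt D.o
    · right
      have hd : dir D y true = false := by simp [dir, hye]
      rw [hd] at h2
      obtain ⟨h3, h4⟩ := okp_down h R y hoR h2
      exact ⟨[], R, by rw [hye]; rfl, ⟨List.Pairwise.nil, by simp⟩, by simp,
        h3, fun z hz => (h4 z hz).2⟩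
    · have hd : dir D y true = true := by simp [dir, hye]
      rw [hd] at h2
      rcases ih y hoR h2 with ⟨h3, h4⟩ | ⟨A, B, h3, h4, h5, h6⟩
      · left
        refine ⟨List.pairwise_cons.2 ⟨fun z hz => (h4 z hz).1, h3⟩, ?_⟩
        intro z hz
        rcases List.mem_cons.1 hz with rfl | hz
        · exact ⟨h1, hyo, hye⟩
        · exact ⟨h1.trans (h4 z hz).1, (h4 z hz).2⟩
      · right
        refine ⟨y :: A, B, by rw [h3]; rfl, ⟨List.pairwise_cons.2 ⟨h5, h4.1⟩, ?_⟩, ?_, h6⟩
        · intro z hz
          rcases List.mem_cons.1 hz with rfl | hz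
          · exact ⟨hyo, hye⟩
          · exact h4.2 z hz
        · intro z hz
          rcases List.mem_cons.1 hz with rfl | hz
          · exact h1
          · exact h1.trans (h5 z hz)

/-- An error free round. -/
lemma round_of_F (h : IsReal D rk) {R : List L} (ho : D.o ∉ R)
    (hF : F rk D.o (D.nxt D.o) (D.o :: (R ++ [D.o])) = 0) :
    ∃ A B, R = A ++ D.nxt D.o :: B ∧ Inc D rk A ∧ Dec D rk B := by
  obtain ⟨d, hd⟩ := okp_of_F h (R ++ [D.o]) D.o hF
  -- split off the last letter
  have key : ∀ (R : List L) (x : L) (d : Bool), okp D rk x d (R ++ [D.o]) → okp D rk x d R := by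
    intro R
    induction R with
    | nil => intro x d _; trivial
    | cons y R ih => intro x d hh; exact ⟨hh.1, ih y _ hh.2⟩
  have hd' := key R D.o d hd
  cases d with
  | false =>
    exfalso
    rcases R with _ | ⟨y, R⟩
    · have := hd.1
      simp only [Bool.false_eq_true, if_false] at this
      omega
    · have := hd'.1
      simp only [Bool.false_eq_true, if_false] at this
      have h2 := h.o_min y
      omega
  | true =>
    rcases okp_up h R D.o ho hd' with ⟨h1, h2⟩ | ⟨A, B, h1, h2, -, h4⟩
    · -- impossible: the word goes up to the end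
      exfalso
      have key2 : ∀ (R : List L) (x : L), (∀ y ∈ R, y ≠ D.o ∧ y ≠ D.nxt D.o) →
          ¬ okp D rk x true (R ++ [D.o]) := by
        intro R
        induction R with
        | nil =>
          intro x _ hh
          have := hh.1
          simp only [if_true] at this
          have h2 := h.o_min x
          omega
        | cons y R ih =>
          intro x hy hh
          have hyy := hy y (by simp)
          have h3 := hh.2
          have hdir : dir D y true = true := by simp [dir, hyy.2]
          rw [hdir] at h3
          exact ih y (fun z hz => hy z (by simp [hz])) h3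
      exact key2 R D.o (fun y hy => (h2 y hy).2) hd
    · exact ⟨A, B, h1, h2, h4⟩

/-! ### Words made of rounds -/

/-- The word made of the rounds `0, ..., N - 1`. -/
def wd (D : KS L) : (ℕ → List L) → (ℕ → List L) → ℕ → List L
  | _, _, 0 => []
  | a, b, N + 1 => D.o :: (a 0 ++ D.nxt D.o :: (b 0 ++ wd D (fun t => a (t + 1)) (fun t => b (t + 1)) N))

/-- Good rounds. -/
def GR (D : KS L) (rk : L → ℕ) (a b : ℕ → List L) (N : ℕ) : Prop :=
  ∀ t, t < N → Inc D rk (a t) ∧ Dec D rk (b t)

/-- Put a round in front. -/
def cns (A : List L) (a : ℕ → List L) : ℕ → List L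
  | 0 => A
  | t + 1 => a t

lemma suffix_F {rk : L → ℕ} {A B : List L} (h : F rk D.o (D.nxt D.o) (A ++ B) = 0) :
    F rk D.o (D.nxt D.o) A = 0 ∧ F rk D.o (D.nxt D.o) B = 0 := by
  have := F_append rk D.o (D.nxt D.o) A B
  omega

/-- Decomposition of an error free word that starts with `o`. -/
lemma rounds_of_F (h : IsReal D rk) : ∀ (n : ℕ) (Q : List L), Q.length = n →
    F rk D.o (D.nxt D.o) (D.o :: Q) = 0 →
    ∃ (a b : ℕ → List L) (N : ℕ) (post : List L), D.o :: Q = wd D a b N ++ D.o :: post ∧
      GR D rk a b N ∧ D.o ∉ post := by
  intro n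
  induction n using Nat.strong_induction_on with
  | _ n ih =>
    intro Q hQ hF
    by_cases ho : D.o ∈ Q
    · obtain ⟨R, Q2, hR, hoR⟩ : ∃ R Q2, Q = R ++ D.o :: Q2 ∧ D.o ∉ R := by
        clear hF hQ ih
        induction Q with
        | nil => simp at ho
        | cons x Q ih =>
          by_cases hx : x = D.o
          · exact ⟨[], Q, by rw [hx]; rfl, by simp⟩
          · have : D.o ∈ Q := by
              rcases List.mem_cons.1 ho with h1 | h1
              · exact absurd h1.symm hx
              · exact h1
            obtain ⟨R, Q2, h1, h2⟩ := ih this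
            refine ⟨x :: R, Q2, by rw [h1]; rfl, ?_⟩
            intro hh
            rcases List.mem_cons.1 hh with h3 | h3
            · exact hx h3.symm
            · exact h2 h3
      subst hR
      have e1 : D.o :: (R ++ D.o :: Q2) = (D.o :: (R ++ [D.o])) ++ Q2 := by simp
      have e2 : D.o :: (R ++ D.o :: Q2) = (D.o :: R) ++ (D.o :: Q2) := by simp
      have hF1 : F rk D.o (D.nxt D.o) (D.o :: (R ++ [D.o])) = 0 := by
        rw [e1] at hF; exact (suffix_F hF).1
      have hF2 : F rk D.o (D.nxt D.o) (D.o :: Q2) = 0 := by
        rw [e2] at hF; exact (suffix_F hF).2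
      obtain ⟨A, B, hAB, hA, hB⟩ := round_of_F h hoR hF1
      obtain ⟨a, b, N, post, h1, h2, h3⟩ := ih Q2.length (by
        rw [← hQ, List.length_append, List.length_cons]; omega) Q2 rfl hF2
      refine ⟨cns A a, cns B b, N + 1, post, ?_, ?_, h3⟩
      · show D.o :: (R ++ D.o :: Q2) = (D.o :: (A ++ D.nxt D.o :: (B ++ wd D a b N))) ++ D.o :: post
        rw [hAB, h1]
        simp
      · intro t ht
        rcases t with _ | t
        · exact ⟨hA, hB⟩
        · exact h2 t (by omega)
    · exact ⟨fun _ => [], fun _ => [], 0, Q, rfl, fun t ht => absurd ht (Nat.not_lt_zero t), ho⟩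

/-- Decomposition of an error free word. -/
lemma rounds_of_F' (h : IsReal D rk) {Q : List L} (hF : F rk D.o (D.nxt D.o) Q = 0)
    (ho : D.o ∈ Q) :
    ∃ (a b : ℕ → List L) (N : ℕ) (pre post : List L),
      Q = pre ++ (wd D a b N ++ D.o :: post) ∧ GR D rk a b N ∧ D.o ∉ pre ∧ D.o ∉ post := by
  obtain ⟨pre, Q2, hR, hoR⟩ : ∃ R Q2, Q = R ++ D.o :: Q2 ∧ D.o ∉ R := by
    clear hF
    induction Q with
    | nil => simp at ho
    | cons x Q ih =>
      by_cases hx : x = D.o
      · exact ⟨[], Q, by rw [hx]; rfl, by simp⟩
      · have : D.o ∈ Q := by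
          rcases List.mem_cons.1 ho with h1 | h1
          · exact absurd h1.symm hx
          · exact h1
        obtain ⟨R, Q2, h1, h2⟩ := ih this
        refine ⟨x :: R, Q2, by rw [h1]; rfl, ?_⟩
        intro hh
        rcases List.mem_cons.1 hh with h3 | h3
        · exact hx h3.symm
        · exact h2 h3
  subst hR
  obtain ⟨a, b, N, post, h1, h2, h3⟩ := rounds_of_F h Q2.length Q2 rfl (suffix_F hF).2
  exact ⟨a, b, N, pre, post, by rw [h1], h2, hoR, h3⟩

lemma pairwise_length_le (R : L → L → Prop) (hirr : ∀ x, ¬ R x x) {w : List L}
    (hw : w.Pairwise R) : w.length ≤ Fintype.card L := by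
  have hnd : w.Nodup := by
    apply hw.imp
    intro a b hab hh
    subst hh
    exact hirr a hab
  exact hnd.length_le_card

/-- Error free words without `o` are short. -/
lemma length_of_no_o (h : IsReal D rk) {w : List L} (ho : D.o ∉ w)
    (hF : F rk D.o (D.nxt D.o) w = 0) : w.length ≤ 2 * Fintype.card L + 2 := by
  rcases w with _ | ⟨x, w⟩
  · simp
  · obtain ⟨d, hd⟩ := okp_of_F h w x hF
    have how : D.o ∉ w := fun hh => ho (by simp [hh])
    cases d with
    | false =>
      have h1 := (okp_down h w x how hd).1
      have h2 := pairwise_length_le _ (fun x => lt_irrefl (rk x)) h1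
      simp only [List.length_cons]
      omega
    | true =>
      rcases okp_up h w x how hd with ⟨h1, -⟩ | ⟨A, B, h1, h2, -, h4⟩
      · have h2 := pairwise_length_le _ (fun x => lt_irrefl (rk x)) h1
        simp only [List.length_cons]
        omega
      · have h5 := pairwise_length_le _ (fun x => lt_irrefl (rk x)) h2.1
        have h6 := pairwise_length_le _ (fun x => lt_irrefl (rk x)) h4.1
        rw [h1]
        simp only [List.length_cons, List.length_append]
        omega

/-! ### Children -/

lemma sec_no_o (b : Bool) {w : List L} (ho : D.o ∉ w) (w' : List L) :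
    D.sec b (w ++ w') = D.sec b w ++ D.sec b w' := by
  rw [(b1 D).sec_append]
  have : w.count D.o = 0 := List.count_eq_zero.2 ho
  rw [this]
  simp

lemma sec_cons_o (b : Bool) (w : List L) : D.sec b (D.o :: w) = D.sec (!b) w := by
  simp [KS.sec]

lemma pre_true_e (h : IsReal D rk) : D.pre true (D.nxt D.o) = some D.o :=
  ((b1 D).pre_eq _ _ _).2 ⟨rfl, h.side_o⟩

lemma pre_false_e (h : IsReal D rk) : D.pre false (D.nxt D.o) = none := by
  rcases hp : D.pre false (D.nxt D.o) with _ | j
  · rfl
  · exfalso
    obtain ⟨h1, h2⟩ := ((b1 D).pre_eq _ _ _).1 hp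
    by_cases hj : j = D.nxt D.o
    · rw [hj] at h1; exact h.ne h1
    · have h3 : rk j < rk (D.nxt D.o) := by
        by_contra hcon
        have := h.lt_of_ne hj hcon
        have h4 := h.e_max j
        omega
      have h4 := h.mono j (D.nxt D.o) h2 h.side_e h3
      rw [h1] at h4
      have h5 := h.e_max (D.nxt (D.nxt D.o))
      omega

lemma sec_true_e (h : IsReal D rk) (w : List L) :
    D.sec true (D.nxt D.o :: w) = D.o :: D.sec true w := by
  have : D.nxt D.o ≠ D.o := D.nxt_ne D.o
  simp [KS.sec, this, pre_true_e h]

lemma sec_false_e (h : IsReal D rk) (w : List L) :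
    D.sec false (D.nxt D.o :: w) = D.sec false w := by
  have : D.nxt D.o ≠ D.o := D.nxt_ne D.o
  simp [KS.sec, this, pre_false_e h]

/-- Membership in the section of a word without `o`. -/
lemma mem_sec {w : List L} (ho : D.o ∉ w) (b : Bool) (j : L) :
    j ∈ D.sec b w ↔ D.side j = b ∧ D.nxt j ∈ w := by
  induction w with
  | nil => simp [KS.sec]
  | cons x w ih =>
    have hx : x ≠ D.o := fun hh => ho (by simp [hh])
    have how : D.o ∉ w := fun hh => ho (by simp [hh])
    have ih' := ih how
    rcases hp : D.pre b x with _ | i
    · have e1 : D.sec b (x :: w) = D.sec b w := by simp [KS.sec, hx, hp]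
      rw [e1, ih', List.mem_cons]
      constructor
      · rintro ⟨h1, h2⟩; exact ⟨h1, Or.inr h2⟩
      · rintro ⟨h1, h2 | h2⟩
        · exfalso
          have := ((b1 D).pre_eq b x j).2 ⟨h2, h1⟩
          rw [hp] at this
          simp at this
        · exact ⟨h1, h2⟩
    · have e1 : D.sec b (x :: w) = i :: D.sec b w := by simp [KS.sec, hx, hp]
      obtain ⟨h1, h2⟩ := ((b1 D).pre_eq _ _ _).1 hp
      rw [e1, List.mem_cons, ih', List.mem_cons]
      constructor
      · rintro (h3 | ⟨h3, h4⟩)
        · rw [h3]; exact ⟨h2, Or.inl h1⟩
        · exact ⟨h3, Or.inr h4⟩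
      · rintro ⟨h3, h4 | h4⟩
        · left
          exact D.inj _ _ (h4.trans h1.symm) (h3.trans h2.symm)
        · exact Or.inr ⟨h3, h4⟩

/-- Order of the section of an increasing or decreasing word. -/
lemma pairwise_sec (h : IsReal D rk) {w : List L} (ho : D.o ∉ w) (b : Bool) :
    (w.Pairwise (fun x y => rk x < rk y) →
      (D.sec b w).Pairwise (fun x y => if b then rk y < rk x else rk x < rk y)) ∧
    (w.Pairwise (fun x y => rk y < rk x) →
      (D.sec b w).Pairwise (fun x y => if b then rk x < rk y else rk y < rk x)) := by
  induction w with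
  | nil => simp [KS.sec]
  | cons x w ih =>
    have hx : x ≠ D.o := fun hh => ho (by simp [hh])
    have how : D.o ∉ w := fun hh => ho (by simp [hh])
    obtain ⟨ih1, ih2⟩ := ih how
    rcases hp : D.pre b x with _ | i
    · have e1 : D.sec b (x :: w) = D.sec b w := by simp [KS.sec, hx, hp]
      rw [e1]
      exact ⟨fun hh => ih1 (List.pairwise_cons.1 hh).2, fun hh => ih2 (List.pairwise_cons.1 hh).2⟩
    · have e1 : D.sec b (x :: w) = i :: D.sec b w := by simp [KS.sec, hx, hp]
      obtain ⟨h1, h2⟩ := ((b1 D).pre_eq _ _ _).1 hp
      rw [e1]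
      have hcmp : ∀ j, D.side j = b → rk (D.nxt i) < rk (D.nxt j) →
          (if b then rk j < rk i else rk i < rk j) := by
        intro j hj hlt
        cases b with
        | true =>
          simp only [if_true]
          by_contra hcon
          by_cases hij : i = j
          · rw [hij] at hlt; omega
          · have h3 : rk i < rk j := by
              rcases Nat.lt_trichotomy (rk i) (rk j) with h4 | h4 | h4
              · exact h4
              · exact absurd (h.inj _ _ h4) hij
              · exact absurd h4 hcon
            have := h.anti i j h2 hj h3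
            omega
        | false =>
          simp only [Bool.false_eq_true, if_false]
          by_contra hcon
          by_cases hij : i = j
          · rw [hij] at hlt; omega
          · have h3 : rk j < rk i := h.lt_of_ne hij hcon
            have := h.mono j i hj h2 h3
            omega
      have hcmp' : ∀ j, D.side j = b → rk (D.nxt j) < rk (D.nxt i) →
          (if b then rk i < rk j else rk j < rk i) := by
        intro j hj hlt
        cases b with
        | true =>
          simp only [if_true]
          by_contra hcon
          by_cases hij : i = j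
          · rw [hij] at hlt; omega
          · have h3 : rk j < rk i := h.lt_of_ne hij hcon
            have := h.anti j i hj h2 h3
            omega
        | false =>
          simp only [Bool.false_eq_true, if_false]
          by_contra hcon
          by_cases hij : i = j
          · rw [hij] at hlt; omega
          · have h3 : rk i < rk j := by
              rcases Nat.lt_trichotomy (rk i) (rk j) with h4 | h4 | h4
              · exact h4
              · exact absurd (h.inj _ _ h4) hij
              · exact absurd h4 hcon
            have := h.mono i j h2 hj h3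
            omega
      constructor
      · intro hh
        obtain ⟨h3, h4⟩ := List.pairwise_cons.1 hh
        refine List.pairwise_cons.2 ⟨?_, ih1 h4⟩
        intro j hj
        obtain ⟨h5, h6⟩ := (mem_sec how b j).1 hj
        exact hcmp j h5 (by rw [h1]; exact h3 _ h6)
      · intro hh
        obtain ⟨h3, h4⟩ := List.pairwise_cons.1 hh
        refine List.pairwise_cons.2 ⟨?_, ih2 h4⟩
        intro j hj
        obtain ⟨h5, h6⟩ := (mem_sec how b j).1 hj
        exact hcmp' j h5 (by rw [h1]; exact h3 _ h6)

end

end R4.Rl
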