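import Pool.Agent.Work.MP_e3f5d9_al_real48.RB

/-!
# R4, real systems, part C: the rounds of the children, the laws
-/

set_option autoImplicit false
set_option linter.unusedSectionVars false

open Finset

namespace R4.Rl

variable {L : Type} [Fintype L] [DecidableEq L] {D : KS L} {rk : L → ℕ}

/-- Remove the letter `e`. -/
def fe (D : KS L) (w : List L) : List L := w.filter fun x => x ≠ D.nxt D.o

lemma mem_fe {w : List L} {x : L} : x ∈ fe D w ↔ x ∈ w ∧ x ≠ D.nxt D.o := by
  simp [fe]

lemma Inc.no_o {A : List L} (h : Inc D rk A) : D.o ∉ A := fun hh => (h.2 _ hh).1 rfl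
lemma Inc.no_e {A : List L} (h : Inc D rk A) : D.nxt D.o ∉ A := fun hh => (h.2 _ hh).2 rfl
lemma Dec.no_o {A : List L} (h : Dec D rk A) : D.o ∉ A := fun hh => (h.2 _ hh).1 rfl
lemma Dec.no_e {A : List L} (h : Dec D rk A) : D.nxt D.o ∉ A := fun hh => (h.2 _ hh).2 rfl

lemma side_ne (h : IsReal D rk) {j : L} (hj : D.side j = true) : j ≠ D.nxt D.o := by
  intro hh
  rw [hh, h.side_e] at hj
  exact Bool.false_ne_true hj

lemma side_ne' (h : IsReal D rk) {j : L} (hj : D.side j = false) : j ≠ D.o := by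
  intro hh
  rw [hh, h.side_o] at hj
  exact Bool.false_ne_true hj.symm

/-- Images of letters other than `o` are different from `e`. -/
lemma nxt_ne_e (h : IsReal D rk) {j : L} (hj : j ≠ D.o) : D.nxt j ≠ D.nxt D.o := by
  intro hh
  cases hs : D.side j with
  | true => exact hj (D.inj _ _ hh (hs.trans h.side_o.symm))
  | false =>
    have := ((b1 D).pre_eq false (D.nxt D.o) j).2 ⟨hh, hs⟩
    rw [pre_false_e h] at this
    simp at this

lemma sec_true_inc (h : IsReal D rk) {A : List L} (hA : Inc D rk A) : Dec D rk (D.sec true A) := by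
  refine ⟨?_, ?_⟩
  · have := (pairwise_sec h hA.no_o true).1 hA.1
    simpa using this
  · intro x hx
    obtain ⟨h1, h2⟩ := (mem_sec hA.no_o true x).1 hx
    refine ⟨?_, side_ne h h1⟩
    intro hh
    rw [hh] at h2
    exact hA.no_e h2

lemma sec_true_dec (h : IsReal D rk) {A : List L} (hA : Dec D rk A) : Inc D rk (D.sec true A) := by
  refine ⟨?_, ?_⟩
  · have := (pairwise_sec h hA.no_o true).2 hA.1
    simpa using this
  · intro x hx
    obtain ⟨h1, h2⟩ := (mem_sec hA.no_o true x).1 hx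
    refine ⟨?_, side_ne h h1⟩
    intro hh
    rw [hh] at h2
    exact hA.no_e h2

lemma fe_sec_inc (h : IsReal D rk) {A : List L} (hA : Inc D rk A) :
    Inc D rk (fe D (D.sec false A)) := by
  refine ⟨?_, ?_⟩
  · have := (pairwise_sec h hA.no_o false).1 hA.1
    simp only [Bool.false_eq_true, if_false] at this
    exact this.filter _
  · intro x hx
    obtain ⟨h1, h2⟩ := mem_fe.1 hx
    exact ⟨side_ne' h ((mem_sec hA.no_o false x).1 h1).1, h2⟩

lemma fe_sec_dec (h : IsReal D rk) {A : List L} (hA : Dec D rk A) :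
    Dec D rk (fe D (D.sec false A)) := by
  refine ⟨?_, ?_⟩
  · have := (pairwise_sec h hA.no_o false).2 hA.1
    simp only [Bool.false_eq_true, if_false] at this
    exact this.filter _
  · intro x hx
    obtain ⟨h1, h2⟩ := mem_fe.1 hx
    exact ⟨side_ne' h ((mem_sec hA.no_o false x).1 h1).1, h2⟩

/-- An increasing word: `e` can only be the last letter. -/
lemma split_inc (h : IsReal D rk) : ∀ w : List L, w.Pairwise (fun x y => rk x < rk y) →
    w = fe D w ++ (if D.nxt D.o ∈ w then [D.nxt D.o] else []) := by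
  intro w
  induction w with
  | nil => intro _; simp [fe]
  | cons x w ih =>
    intro hw
    obtain ⟨h1, h2⟩ := List.pairwise_cons.1 hw
    by_cases hx : x = D.nxt D.o
    · have hw0 : w = [] := by
        rcases w with _ | ⟨y, w⟩
        · rfl
        · exfalso
          have := h1 y (by simp)
          have h3 := h.e_max y
          rw [hx] at this
          omega
      subst hw0
      simp [fe, hx]
    · have e1 : fe D (x :: w) = x :: fe D w := by simp [fe, hx]
      have e2 : (D.nxt D.o ∈ x :: w) ↔ D.nxt D.o ∈ w := by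
        rw [List.mem_cons]
        exact ⟨fun hh => hh.resolve_left (fun h3 => hx h3.symm), Or.inr⟩
      rw [e1]
      simp only [e2]
      conv_lhs => rw [ih h2]
      rfl

/-- A decreasing word: `e` can only be the first letter. -/
lemma split_dec (h : IsReal D rk) (w : List L) (hw : w.Pairwise (fun x y => rk y < rk x)) :
    w = (if D.nxt D.o ∈ w then [D.nxt D.o] else []) ++ fe D w := by
  have h1 : w.reverse.Pairwise (fun x y => rk x < rk y) := by
    rw [List.pairwise_reverse]; exact hw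
  have h2 := split_inc h w.reverse h1
  have h3 : fe D w.reverse = (fe D w).reverse := by simp [fe, List.filter_reverse]
  rw [h3] at h2
  simp only [List.mem_reverse] at h2
  have h4 := congrArg List.reverse h2
  rw [List.reverse_reverse, List.reverse_append, List.reverse_reverse] at h4
  by_cases he : D.nxt D.o ∈ w
  · rw [if_pos he] at h4 ⊢
    exact h4
  · rw [if_neg he] at h4 ⊢
    exact h4

lemma e_mem_sec (h : IsReal D rk) {w : List L} (ho : D.o ∉ w) :
    D.nxt D.o ∈ D.sec false w ↔ D.nxt (D.nxt D.o) ∈ w := by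
  rw [mem_sec ho]
  simp [h.side_e]

lemma e_not_sec_true (h : IsReal D rk) {w : List L} (ho : D.o ∉ w) :
    D.nxt D.o ∉ D.sec true w := by
  rw [mem_sec ho]
  simp [h.side_e]

/-- The first halves of the child's rounds. -/
noncomputable def chA (D : KS L) (a b : ℕ → List L) (ρ v : ℕ) : List L :=
  D.sec true (b (2 * v + ρ)) ++ fe D (D.sec false (a (2 * v + ρ + 1)))

/-- The second halves of the child's rounds. -/
noncomputable def chB (D : KS L) (a b : ℕ → List L) (ρ v : ℕ) : List L :=
  fe D (D.sec false (b (2 * v + ρ + 1))) ++ D.sec true (a (2 * v + ρ + 2))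

lemma inc_chA (h : IsReal D rk) {a b : ℕ → List L} {ρ v : ℕ} (hb : Dec D rk (b (2 * v + ρ)))
    (ha : Inc D rk (a (2 * v + ρ + 1))) : Inc D rk (chA D a b ρ v) := by
  have h1 := sec_true_dec h hb
  have h2 := fe_sec_inc h ha
  refine ⟨?_, ?_⟩
  · unfold chA
    rw [List.pairwise_append]
    refine ⟨h1.1, h2.1, ?_⟩
    intro x hx y hy
    exact h.cross x y ((mem_sec hb.no_o true x).1 hx).1
      ((mem_sec ha.no_o false y).1 (mem_fe.1 hy).1).1
  · intro x hx
    rcases List.mem_append.1 hx with hx | hx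
    · exact h1.2 x hx
    · exact h2.2 x hx

lemma dec_chB (h : IsReal D rk) {a b : ℕ → List L} {ρ v : ℕ} (hb : Dec D rk (b (2 * v + ρ + 1)))
    (ha : Inc D rk (a (2 * v + ρ + 2))) : Dec D rk (chB D a b ρ v) := by
  have h1 := sec_true_inc h ha
  have h2 := fe_sec_dec h hb
  refine ⟨?_, ?_⟩
  · unfold chB
    rw [List.pairwise_append]
    refine ⟨h2.1, h1.1, ?_⟩
    intro x hx y hy
    exact h.cross y x ((mem_sec ha.no_o true y).1 hy).1
      ((mem_sec hb.no_o false x).1 (mem_fe.1 hx).1).1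
  · intro x hx
    rcases List.mem_append.1 hx with hx | hx
    · exact h2.2 x hx
    · exact h1.2 x hx

/-- The main computation. -/
lemma child_core (h : IsReal D rk) : ∀ (n : ℕ) (a b : ℕ → List L), GR D rk a b (n + 1) →
    F rk D.o (D.nxt D.o) (D.o :: (D.sec true (b 0) ++
      D.sec true (wd D (fun t => a (t + 1)) (fun t => b (t + 1)) n ++ [D.o]))) = 0 →
    ∃ post, D.o :: (D.sec true (b 0) ++
        D.sec true (wd D (fun t => a (t + 1)) (fun t => b (t + 1)) n ++ [D.o])) =
      wd D (chA D a b 0) (chB D a b 0) (n / 2) ++ D.o :: post ∧ D.o ∉ post ∧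
      ∀ v, v < n / 2 → (D.nxt (D.nxt D.o) ∈ a (2 * v + 1) ↔ D.nxt (D.nxt D.o) ∉ b (2 * v + 1)) := by
  intro n
  induction n using Nat.twoStepInduction with
  | zero =>
    intro a b hG _
    refine ⟨D.sec true (b 0), ?_, ?_, by intro v hv; omega⟩
    · simp [wd, KS.sec]
    · exact (sec_true_dec h (hG 0 (by omega)).2).no_o
  | one =>
    intro a b hG _
    have h1 := (hG 0 (by omega)).2
    have h2 := (hG 1 (by omega))
    refine ⟨D.sec true (b 0) ++ (D.sec false (a 1) ++ D.sec false (b 1)), ?_, ?_,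
      by intro v hv; omega⟩
    · have e1 : wd D (fun t => a (t + 1)) (fun t => b (t + 1)) 1 ++ [D.o] =
          D.o :: (a 1 ++ (D.nxt D.o :: (b 1 ++ [D.o]))) := by simp [wd]
      rw [e1, sec_cons_o, Bool.not_true, sec_no_o false h2.1.no_o, sec_false_e h,
        sec_no_o false h2.2.no_o, sec_cons_o]
      simp [wd, KS.sec]
    · intro hh
      rcases List.mem_append.1 hh with hh | hh
      · exact (sec_true_dec h h1).no_o hh
      · rcases List.mem_append.1 hh with hh | hh
        · exact side_ne' h ((mem_sec h2.1.no_o false _).1 hh).1 rfl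
        · exact side_ne' h ((mem_sec h2.2.no_o false _).1 hh).1 rfl
  | more n ih _ =>
    intro a b hG hF
    have g0 := (hG 0 (by omega))
    have g1 := (hG 1 (by omega))
    have g2 := (hG 2 (by omega))
    set W := D.sec true (wd D (fun t => a (t + 3)) (fun t => b (t + 3)) n ++ [D.o]) with hW
    have e1 : wd D (fun t => a (t + 1)) (fun t => b (t + 1)) (n + 2) ++ [D.o] =
        D.o :: (a 1 ++ (D.nxt D.o :: (b 1 ++ (D.o :: (a 2 ++ (D.nxt D.o :: (b 2 ++
          (wd D (fun t => a (t + 3)) (fun t => b (t + 3)) n ++ [D.o])))))))) := by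
      simp [wd]
    have e2 : D.sec true (wd D (fun t => a (t + 1)) (fun t => b (t + 1)) (n + 2) ++ [D.o]) =
        D.sec false (a 1) ++ (D.sec false (b 1) ++ (D.sec true (a 2) ++
          (D.o :: (D.sec true (b 2) ++ W)))) := by
      rw [e1, sec_cons_o, Bool.not_true, sec_no_o false g1.1.no_o, sec_false_e h,
        sec_no_o false g1.2.no_o, sec_cons_o, Bool.not_false, sec_no_o true g2.1.no_o,
        sec_true_e h, sec_no_o true g2.2.no_o]
    have s1 := split_inc h (D.sec false (a 1)) (by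
      have := (pairwise_sec h g1.1.no_o false).1 g1.1.1
      simpa using this)
    have s2 := split_dec h (D.sec false (b 1)) (by
      have := (pairwise_sec h g1.2.no_o false).2 g1.2.1
      simpa using this)
    rw [e2] at hF ⊢
    set R := D.sec true (b 0) ++ (D.sec false (a 1) ++ (D.sec false (b 1) ++ D.sec true (a 2)))
      with hR
    have e3 : D.o :: (D.sec true (b 0) ++ (D.sec false (a 1) ++ (D.sec false (b 1) ++
        (D.sec true (a 2) ++ (D.o :: (D.sec true (b 2) ++ W)))))) =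
        (D.o :: (R ++ [D.o])) ++ (D.sec true (b 2) ++ W) := by
      rw [hR]; simp
    have e4 : D.o :: (D.sec true (b 0) ++ (D.sec false (a 1) ++ (D.sec false (b 1) ++
        (D.sec true (a 2) ++ (D.o :: (D.sec true (b 2) ++ W)))))) =
        (D.o :: R) ++ (D.o :: (D.sec true (b 2) ++ W)) := by
      rw [hR]; simp
    have hF1 : F rk D.o (D.nxt D.o) (D.o :: (R ++ [D.o])) = 0 := by
      rw [e3] at hF; exact (suffix_F hF).1
    have hF2 : F rk D.o (D.nxt D.o) (D.o :: (D.sec true (b 2) ++ W)) = 0 := by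
      rw [e4] at hF; exact (suffix_F hF).2
    have hoR : D.o ∉ R := by
      intro hh
      rw [hR] at hh
      rcases List.mem_append.1 hh with hh | hh
      · exact (sec_true_dec h g0.2).no_o hh
      · rcases List.mem_append.1 hh with hh | hh
        · exact side_ne' h ((mem_sec g1.1.no_o false _).1 hh).1 rfl
        · rcases List.mem_append.1 hh with hh | hh
          · exact side_ne' h ((mem_sec g1.2.no_o false _).1 hh).1 rfl
          · exact (sec_true_inc h g2.1).no_o hh
    -- exactly one `e`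
    obtain ⟨A, B, hAB, hA, hB⟩ := round_of_F h hoR hF1
    have c1 : R.count (D.nxt D.o) = 1 := by
      rw [hAB, List.count_append, List.count_cons_self, List.count_eq_zero.2 hA.no_e,
        List.count_eq_zero.2 hB.no_e]
    have c2 : R.count (D.nxt D.o) = (if D.nxt (D.nxt D.o) ∈ a 1 then 1 else 0) +
        (if D.nxt (D.nxt D.o) ∈ b 1 then 1 else 0) := by
      have f1 : (D.sec true (b 0)).count (D.nxt D.o) = 0 :=
        List.count_eq_zero.2 (e_not_sec_true h g0.2.no_o)
      have f2 : (D.sec true (a 2)).count (D.nxt D.o) = 0 :=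
        List.count_eq_zero.2 (e_not_sec_true h g2.1.no_o)
      have f3 : ∀ w : List L, (fe D w).count (D.nxt D.o) = 0 := fun w =>
        List.count_eq_zero.2 (fun hh => (mem_fe.1 hh).2 rfl)
      have m1 := e_mem_sec h g1.1.no_o
      have m2 := e_mem_sec h g1.2.no_o
      have f4 : (D.sec false (a 1)).count (D.nxt D.o) =
          (if D.nxt (D.nxt D.o) ∈ a 1 then 1 else 0) := by
        rw [s1, List.count_append, f3]
        simp only [m1]
        split_ifs <;> simp
      have f5 : (D.sec false (b 1)).count (D.nxt D.o) =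
          (if D.nxt (D.nxt D.o) ∈ b 1 then 1 else 0) := by
        rw [s2, List.count_append, f3]
        simp only [m2]
        split_ifs <;> simp
      rw [hR, List.count_append, List.count_append, List.count_append, f1, f2, f4, f5]
      omega
    have hone : (D.nxt (D.nxt D.o) ∈ a 1 ↔ D.nxt (D.nxt D.o) ∉ b 1) := by
      rw [c1] at c2
      by_cases q1 : D.nxt (D.nxt D.o) ∈ a 1 <;> by_cases q2 : D.nxt (D.nxt D.o) ∈ b 1 <;>
        simp [q1, q2] at c2 ⊢
    have hRe : R = chA D a b 0 0 ++ D.nxt D.o :: chB D a b 0 0 := by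
      have m1 := e_mem_sec h g1.1.no_o
      have m2 := e_mem_sec h g1.2.no_o
      rw [hR]
      conv_lhs => rw [s1, s2]
      simp only [m1, m2]
      unfold chA chB
      by_cases q1 : D.nxt (D.nxt D.o) ∈ a 1
      · have q2 := hone.1 q1
        simp [q1, q2]
      · have q2 : D.nxt (D.nxt D.o) ∈ b 1 := by
          by_contra q3; exact q1 (hone.2 q3)
        simp [q1, q2]
    obtain ⟨post, i1, i2, i3⟩ := ih (fun t => a (t + 2)) (fun t => b (t + 2))
      (fun t ht => hG (t + 2) (by omega)) hF2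
    refine ⟨post, ?_, i2, ?_⟩
    · have i1' : D.o :: (D.sec true (b 2) ++ W) =
          wd D (chA D (fun t => a (t + 2)) (fun t => b (t + 2)) 0)
            (chB D (fun t => a (t + 2)) (fun t => b (t + 2)) 0) (n / 2) ++ D.o :: post := i1
      have e5 : (n + 2) / 2 = n / 2 + 1 := by omega
      have e6 : (fun v => chA D a b 0 (v + 1)) =
          chA D (fun t => a (t + 2)) (fun t => b (t + 2)) 0 := by
        funext v
        unfold chA
        congr 3
      have e7 : (fun v => chB D a b 0 (v + 1)) =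
          chB D (fun t => a (t + 2)) (fun t => b (t + 2)) 0 := by
        funext v
        unfold chB
        congr 3
      rw [e4, i1', e5]
      show (D.o :: R) ++ _ = (D.o :: (chA D a b 0 0 ++ D.nxt D.o :: (chB D a b 0 0 ++
        wd D (fun v => chA D a b 0 (v + 1)) (fun v => chB D a b 0 (v + 1)) (n / 2)))) ++
          D.o :: post
      rw [e6, e7, hRe]
      simp
    · intro v hv
      rcases v with _ | v
      · exact hone
      · have := i3 v (by omega)
        have e8 : 2 * (v + 1) + 1 = 2 * v + 1 + 2 := by ring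
        rw [e8]
        exact this

/-- The rounds of the children. -/
lemma child (h : IsReal D rk) (s : Bool) (a b : ℕ → List L) (N ρ : ℕ)
    (hρ : ρ = if s then 1 else 0) (hN : ρ + 1 ≤ N) (hG : GR D rk a b N)
    (hF : F rk D.o (D.nxt D.o) (D.sec s (wd D a b N ++ [D.o])) = 0) :
    ∃ pre post, D.sec s (wd D a b N ++ [D.o]) =
        pre ++ (wd D (chA D a b ρ) (chB D a b ρ) ((N - 1 - ρ) / 2) ++ D.o :: post) ∧
      D.o ∉ pre ∧ D.o ∉ post ∧ ∀ v, v < (N - 1 - ρ) / 2 →
        (D.nxt (D.nxt D.o) ∈ a (2 * v + ρ + 1) ↔ D.nxt (D.nxt D.o) ∉ b (2 * v + ρ + 1)) := by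
  cases s with
  | false =>
    have hρ0 : ρ = 0 := by simpa using hρ
    subst hρ0
    obtain ⟨n, rfl⟩ : ∃ n, N = n + 1 := ⟨N - 1, by omega⟩
    have g0 := hG 0 (by omega)
    have e1 : wd D a b (n + 1) ++ [D.o] = D.o :: (a 0 ++ (D.nxt D.o :: (b 0 ++
        (wd D (fun t => a (t + 1)) (fun t => b (t + 1)) n ++ [D.o])))) := by simp [wd]
    have e2 : D.sec false (wd D a b (n + 1) ++ [D.o]) = D.sec true (a 0) ++ (D.o ::
        (D.sec true (b 0) ++
          D.sec true (wd D (fun t => a (t + 1)) (fun t => b (t + 1)) n ++ [D.o]))) := by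
      rw [e1, sec_cons_o, Bool.not_false, sec_no_o true g0.1.no_o, sec_true_e h,
        sec_no_o true g0.2.no_o]
    rw [e2] at hF ⊢
    obtain ⟨post, i1, i2, i3⟩ := child_core h n a b hG (suffix_F hF).2
    refine ⟨D.sec true (a 0), post, ?_, (sec_true_inc h g0.1).no_o, i2, ?_⟩
    · rw [i1]
      simp
    · intro v hv
      exact i3 v (by omega)
  | true =>
    have hρ1 : ρ = 1 := by simpa using hρ
    subst hρ1
    obtain ⟨n, rfl⟩ : ∃ n, N = n + 2 := ⟨N - 2, by omega⟩
    have g0 := hG 0 (by omega)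
    have g1 := hG 1 (by omega)
    have e1 : wd D a b (n + 2) ++ [D.o] = D.o :: (a 0 ++ (D.nxt D.o :: (b 0 ++
        (D.o :: (a 1 ++ (D.nxt D.o :: (b 1 ++
        (wd D (fun t => a (t + 2)) (fun t => b (t + 2)) n ++ [D.o])))))))) := by simp [wd]
    have e2 : D.sec true (wd D a b (n + 2) ++ [D.o]) =
        (D.sec false (a 0) ++ (D.sec false (b 0) ++ D.sec true (a 1))) ++ (D.o ::
        (D.sec true (b 1) ++
          D.sec true (wd D (fun t => a (t + 2)) (fun t => b (t + 2)) n ++ [D.o]))) := by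
      rw [e1, sec_cons_o, Bool.not_true, sec_no_o false g0.1.no_o, sec_false_e h,
        sec_no_o false g0.2.no_o, sec_cons_o, Bool.not_false, sec_no_o true g1.1.no_o,
        sec_true_e h, sec_no_o true g1.2.no_o]
      simp
    rw [e2] at hF ⊢
    obtain ⟨post, i1, i2, i3⟩ := child_core h n (fun t => a (t + 1)) (fun t => b (t + 1))
      (fun t ht => hG (t + 1) (by omega)) (suffix_F hF).2
    refine ⟨D.sec false (a 0) ++ (D.sec false (b 0) ++ D.sec true (a 1)), post, ?_, ?_, i2, ?_⟩
    · have e3 : (n + 2 - 1 - 1) / 2 = n / 2 := by omega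
      have e4 : chA D a b 1 = chA D (fun t => a (t + 1)) (fun t => b (t + 1)) 0 := by
        funext v; rfl
      have e5 : chB D a b 1 = chB D (fun t => a (t + 1)) (fun t => b (t + 1)) 0 := by
        funext v; rfl
      rw [e3, e4, e5]
      congr 1
    · intro hh
      rcases List.mem_append.1 hh with hh | hh
      · exact side_ne' h ((mem_sec g0.1.no_o false _).1 hh).1 rfl
      · rcases List.mem_append.1 hh with hh | hh
        · exact side_ne' h ((mem_sec g0.2.no_o false _).1 hh).1 rfl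
        · exact (sec_true_inc h g1.1).no_o hh
    · intro v hv
      exact i3 v (by omega)

/-- The rounds of the children are good. -/
lemma GR_child (h : IsReal D rk) {a b : ℕ → List L} {N ρ : ℕ} (hG : GR D rk a b N) :
    GR D rk (chA D a b ρ) (chB D a b ρ) ((N - 1 - ρ) / 2) := by
  intro v hv
  exact ⟨inc_chA h (hG _ (by omega)).2 (hG _ (by omega)).1,
    dec_chB h (hG _ (by omega)).2 (hG _ (by omega)).1⟩

lemma mem_chA_right (h : IsReal D rk) {a b : ℕ → List L} {N ρ v : ℕ} (hG : GR D rk a b N)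
    (hv : 2 * v + ρ + 1 < N) {j : L} (hj : D.side j = false) (hje : j ≠ D.nxt D.o) :
    j ∈ chA D a b ρ v ↔ D.nxt j ∈ a (2 * v + ρ + 1) := by
  unfold chA
  rw [List.mem_append, mem_fe, mem_sec (hG _ (by omega)).2.no_o,
    mem_sec (hG _ hv).1.no_o]
  simp [hj, hje]

lemma mem_chB_right (h : IsReal D rk) {a b : ℕ → List L} {N ρ v : ℕ} (hG : GR D rk a b N)
    (hv : 2 * v + ρ + 2 < N) {j : L} (hj : D.side j = false) (hje : j ≠ D.nxt D.o) :
    j ∈ chB D a b ρ v ↔ D.nxt j ∈ b (2 * v + ρ + 1) := by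
  unfold chB
  rw [List.mem_append, mem_fe, mem_sec (hG _ (by omega)).2.no_o,
    mem_sec (hG _ hv).1.no_o]
  simp [hj, hje]

lemma mem_chA_left (h : IsReal D rk) {a b : ℕ → List L} {N ρ v : ℕ} (hG : GR D rk a b N)
    (hv : 2 * v + ρ + 1 < N) {j : L} (hj : D.side j = true) :
    j ∈ chA D a b ρ v ↔ D.nxt j ∈ b (2 * v + ρ) := by
  unfold chA
  rw [List.mem_append, mem_fe, mem_sec (hG _ (by omega)).2.no_o,
    mem_sec (hG _ hv).1.no_o]
  simp [hj]

lemma mem_chB_left (h : IsReal D rk) {a b : ℕ → List L} {N ρ v : ℕ} (hG : GR D rk a b N)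
    (hv : 2 * v + ρ + 2 < N) {j : L} (hj : D.side j = true) :
    j ∈ chB D a b ρ v ↔ D.nxt j ∈ a (2 * v + ρ + 2) := by
  unfold chB
  rw [List.mem_append, mem_fe, mem_sec (hG _ (by omega)).2.no_o,
    mem_sec (hG _ hv).1.no_o]
  simp [hj]

/-! ### Words that are error free to depth `T` -/

/-- All raw sections up to depth `T` are error free. -/
def GT (D : KS L) (rk : L → ℕ) : ℕ → List L → Prop
  | 0, Q => F rk D.o (D.nxt D.o) Q = 0
  | T + 1, Q => F rk D.o (D.nxt D.o) Q = 0 ∧ ∀ b, GT D rk T (D.sec b Q)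

lemma GT.F {T : ℕ} {Q : List L} (h : GT D rk T Q) : F rk D.o (D.nxt D.o) Q = 0 := by
  cases T with
  | zero => exact h
  | succ T => exact h.1

lemma GT.mono {T : ℕ} : ∀ {Q : List L}, GT D rk (T + 1) Q → GT D rk T Q := by
  induction T with
  | zero => intro Q h; exact h.1
  | succ T ih => intro Q h; exact ⟨h.1, fun b => ih (h.2 b)⟩

lemma GT.mono' {T T' : ℕ} (hT : T ≤ T') {Q : List L} (h : GT D rk T' Q) : GT D rk T Q := by
  induction T', hT using Nat.le_induction with
  | base => exact h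
  | succ n _ ih => exact ih h.mono

lemma GT.factor : ∀ (T : ℕ) {A B : List L}, GT D rk T (A ++ B) → GT D rk T A ∧ GT D rk T B := by
  intro T
  induction T with
  | zero => intro A B h; exact suffix_F h
  | succ T ih =>
    intro A B h
    have h1 := suffix_F h.1
    refine ⟨⟨h1.1, fun b => ?_⟩, ⟨h1.2, fun b => ?_⟩⟩
    · have := h.2 b
      rw [(b1 D).sec_append] at this
      exact (ih this).1
    · have := h.2 (xor b (decide (Odd (A.count D.o))))
      rw [(b1 D).sec_append] at this
      have h2 := (ih this).2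
      have e : xor (xor b (decide (Odd (A.count D.o)))) (decide (Odd (A.count D.o))) = b := by
        cases b <;> cases decide (Odd (A.count D.o)) <;> rfl
      rwa [e] at h2

/-- A law for the letter `i` with shift `s`. -/
def Law (D : KS L) (rk : L → ℕ) (i : L) (s : ℤ) : Prop :=
  ∃ T c : ℕ, ∀ (a b : ℕ → List L) (N : ℕ), GR D rk a b N → GT D rk T (wd D a b N ++ [D.o]) →
    ∀ t t' : ℕ, (t' : ℤ) = t + s → c ≤ t → t + c < N → c ≤ t' → t' + c < N →
      (i ∈ a t ↔ i ∉ b t')

lemma GT_child (h : IsReal D rk) {T : ℕ} {s : Bool} {a b : ℕ → List L} {N ρ : ℕ}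
    (hρ : ρ = if s then 1 else 0) (hN : ρ + 1 ≤ N) (hG : GR D rk a b N)
    (hT : GT D rk (T + 1) (wd D a b N ++ [D.o])) :
    GT D rk T (wd D (chA D a b ρ) (chB D a b ρ) ((N - 1 - ρ) / 2) ++ [D.o]) := by
  have h1 := hT.2 s
  obtain ⟨pre, post, e, -, -, -⟩ := child h s a b N ρ hρ hN hG h1.F
  rw [e] at h1
  have h2 := (GT.factor T h1).2
  have e2 : wd D (chA D a b ρ) (chB D a b ρ) ((N - 1 - ρ) / 2) ++ D.o :: post =
      (wd D (chA D a b ρ) (chB D a b ρ) ((N - 1 - ρ) / 2) ++ [D.o]) ++ post := by simp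
  rw [e2] at h2
  exact (GT.factor T h2).1

/-- The base law. -/
lemma law_base (h : IsReal D rk) : Law D rk (D.nxt (D.nxt D.o)) 0 := by
  refine ⟨1, 4, ?_⟩
  intro a b N hG hT t t' ht' h1 h2 _ _
  have htt : t' = t := by omega
  subst htt
  -- t = 2 v + ρ + 1
  set s : Bool := decide (t' % 2 = 0) with hs
  set ρ : ℕ := if s then 1 else 0 with hρ
  have hρ' : ρ = if t' % 2 = 0 then 1 else 0 := by
    rw [hρ, hs]; by_cases h3 : t' % 2 = 0 <;> simp [h3]
  obtain ⟨v, hv⟩ : ∃ v, t' = 2 * v + ρ + 1 := by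
    refine ⟨(t' - 1) / 2, ?_⟩
    rw [hρ']
    split_ifs <;> omega
  have hρ1 : ρ ≤ 1 := by rw [hρ']; split_ifs <;> omega
  obtain ⟨pre, post, -, -, -, h5⟩ := child h s a b N ρ hρ (by omega) hG (hT.2 s).F
  have := h5 v (by omega)
  rw [hv]
  exact this

/-- Transfer of a law, right letters. -/
lemma law_right (h : IsReal D rk) {j : L} {s : ℤ} (hj : D.side j = false) (hje : j ≠ D.nxt D.o)
    (hL : Law D rk j s) : Law D rk (D.nxt j) (2 * s) := by
  obtain ⟨T, c, hL⟩ := hL
  refine ⟨T + 1, 2 * c + 6, ?_⟩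
  intro a b N hG hT t t' ht' h1 h2 h1' h2'
  set σ : Bool := decide (t % 2 = 0) with hs
  set ρ : ℕ := if σ then 1 else 0 with hρ
  have hρ' : ρ = if t % 2 = 0 then 1 else 0 := by
    rw [hρ, hs]; by_cases h3 : t % 2 = 0 <;> simp [h3]
  obtain ⟨v, hv⟩ : ∃ v, t = 2 * v + ρ + 1 := by
    refine ⟨(t - 1) / 2, ?_⟩
    rw [hρ']
    split_ifs <;> omega
  have hρ1 : ρ ≤ 1 := by rw [hρ']; split_ifs <;> omega
  obtain ⟨v', hv'⟩ : ∃ v' : ℕ, t' = 2 * v' + ρ + 1 := by
    refine ⟨((v : ℤ) + s).toNat, ?_⟩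
    omega
  have hvs : (v' : ℤ) = v + s := by omega
  have h3 := GT_child h hρ (by omega) hG hT
  have h4 := hL _ _ _ (GR_child h (ρ := ρ) hG) h3 v v' hvs (by omega) (by omega) (by omega)
    (by omega)
  rw [mem_chA_right h hG (by omega) hj hje, mem_chB_right h hG (by omega) hj hje] at h4
  rw [hv, hv']
  exact h4

/-- Transfer of a law, left letters. -/
lemma law_left (h : IsReal D rk) {j : L} {s : ℤ} (hj : D.side j = true)
    (hL : Law D rk j s) : Law D rk (D.nxt j) (-2 * s - 2) := by
  obtain ⟨T, c, hL⟩ := hL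
  refine ⟨T + 1, 2 * c + 6, ?_⟩
  intro a b N hG hT t t' ht' h1 h2 h1' h2'
  set σ : Bool := decide (t' % 2 = 1) with hs
  set ρ : ℕ := if σ then 1 else 0 with hρ
  have hρ' : ρ = if t' % 2 = 1 then 1 else 0 := by
    rw [hρ, hs]; by_cases h3 : t' % 2 = 1 <;> simp [h3]
  obtain ⟨v, hv⟩ : ∃ v, t' = 2 * v + ρ := by
    refine ⟨t' / 2, ?_⟩
    rw [hρ']
    split_ifs <;> omega
  have hρ1 : ρ ≤ 1 := by rw [hρ']; split_ifs <;> omega
  obtain ⟨v', hv'⟩ : ∃ v' : ℕ, t = 2 * v' + ρ + 2 := by
    refine ⟨((v : ℤ) + s).toNat, ?_⟩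
    omega
  have hvs : (v' : ℤ) = v + s := by omega
  have h3 := GT_child h hρ (by omega) hG hT
  have h4 := hL _ _ _ (GR_child h (ρ := ρ) hG) h3 v v' hvs (by omega) (by omega) (by omega)
    (by omega)
  rw [mem_chA_left h hG (by omega) hj, mem_chB_left h hG (by omega) hj] at h4
  rw [hv, hv']
  tauto

end R4.Rl
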