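import Pool.Agent.Work.MP_e3f5d9_al_real48.RC

/-!
# R4, real systems, part D: two laws at the periodic letters, periodic bits, counting
-/

set_option autoImplicit false
set_option linter.unusedSectionVars false

open Finset

namespace R4.Rl

variable {L : Type} [Fintype L] [DecidableEq L] {D : KS L} {rk : L → ℕ}

/-! ### Two different laws -/

/-- A law with even shift. -/
def LE (D : KS L) (rk : L → ℕ) (i : L) : Prop := ∃ s : ℤ, Even s ∧ Law D rk i s

/-- Two different laws. -/
def TL (D : KS L) (rk : L → ℕ) (i : L) : Prop := ∃ s s' : ℤ, s ≠ s' ∧ Law D rk i s ∧ Law D rk i s'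

lemma LE_step (h : IsReal D rk) {j : L} (hje : j ≠ D.nxt D.o) (hj : LE D rk j) :
    LE D rk (D.nxt j) := by
  obtain ⟨s, hs, hL⟩ := hj
  cases hside : D.side j with
  | false => exact ⟨2 * s, even_two_mul s, law_right h hside hje hL⟩
  | true => exact ⟨-2 * s - 2, ⟨-s - 1, by ring⟩, law_left h hside hL⟩

lemma TL_step (h : IsReal D rk) {j : L} (hje : j ≠ D.nxt D.o) (hj : TL D rk j) :
    TL D rk (D.nxt j) := by
  obtain ⟨s, s', hs, hL, hL'⟩ := hj
  cases hside : D.side j with
  | false => exact ⟨2 * s, 2 * s', by omega, law_right h hside hje hL, law_right h hside hje hL'⟩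
  | true => exact ⟨-2 * s - 2, -2 * s' - 2, by omega, law_left h hside hL, law_left h hside hL'⟩

lemma int_step (h : IsReal D rk) {j : L} (hjo : j ≠ D.o) :
    D.nxt j ≠ D.o ∧ D.nxt j ≠ D.nxt D.o := ⟨D.nxt_ne j, nxt_ne_e h hjo⟩

lemma LE_all (h : IsReal D rk) : ∀ l : ℕ, D.nxt^[l] (D.nxt (D.nxt D.o)) ≠ D.o ∧
    D.nxt^[l] (D.nxt (D.nxt D.o)) ≠ D.nxt D.o ∧ LE D rk (D.nxt^[l] (D.nxt (D.nxt D.o))) := by
  intro l
  induction l with
  | zero => exact ⟨D.nxt_ne _, h.ne, 0, ⟨0, by ring⟩, law_base h⟩
  | succ l ih =>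
    obtain ⟨h1, h2, h3⟩ := ih
    rw [Function.iterate_succ_apply']
    exact ⟨D.nxt_ne _, nxt_ne_e h h1, LE_step h h2 h3⟩

lemma LE_int (h : IsReal D rk) {i : L} (hio : i ≠ D.o) (hie : i ≠ D.nxt D.o) : LE D rk i := by
  obtain ⟨k, hk⟩ := h.orb i
  rcases k with _ | _ | k
  · exact absurd hk.symm hio
  · exact absurd hk.symm hie
  · have := (LE_all h k).2.2
    rw [← hk]
    have e : D.nxt^[k + 1 + 1] D.o = D.nxt^[k] (D.nxt (D.nxt D.o)) := by
      rw [Function.iterate_add_apply]
      rfl
    rw [e]
    exact this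

/-- The collision. -/
lemma collision (D : KS L) : ∃ j j', D.side j = false ∧ D.side j' = true ∧ D.nxt j = D.nxt j' := by
  have hns : ¬ Function.Surjective D.nxt := by
    intro hh
    obtain ⟨j, hj⟩ := hh D.o
    exact D.nxt_ne j hj
  have hni : ¬ Function.Injective D.nxt := fun hh => hns (Finite.injective_iff_surjective.1 hh)
  unfold Function.Injective at hni
  push Not at hni
  obtain ⟨j, j', h1, h2⟩ := hni
  cases hs : D.side j with
  | false =>
    cases hs' : D.side j' with
    | false => exact absurd (D.inj _ _ h1 (hs.trans hs'.symm)) h2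
    | true => exact ⟨j, j', hs, hs', h1⟩
  | true =>
    cases hs' : D.side j' with
    | false => exact ⟨j', j, hs', hs, h1.symm⟩
    | true => exact absurd (D.inj _ _ h1 (hs.trans hs'.symm)) h2

lemma TL_collision (h : IsReal D rk) {j j' : L} (hj : D.side j = false) (hj' : D.side j' = true)
    (hjj : D.nxt j = D.nxt j') : TL D rk (D.nxt j) := by
  have hjo : j ≠ D.o := side_ne' h hj
  have hj'o : j' ≠ D.o := by
    intro hh
    rw [hh] at hjj
    exact nxt_ne_e h hjo hjj
  have hj'e : j' ≠ D.nxt D.o := side_ne h hj'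
  obtain ⟨s', ⟨r', hr'⟩, hL'⟩ := LE_int h hj'o hj'e
  have hA := law_left h hj' hL'
  rw [← hjj] at hA
  by_cases hje : j = D.nxt D.o
  · refine ⟨0, -2 * s' - 2, by omega, ?_, hA⟩
    rw [hje]
    exact law_base h
  · obtain ⟨s, ⟨r, hr⟩, hL⟩ := LE_int h hjo hje
    exact ⟨2 * s, -2 * s' - 2, by omega, law_right h hj hje hL, hA⟩

/-- All letters have two different laws after sufficiently many steps. -/
lemma TL_all (h : IsReal D rk) : ∃ K, ∀ i, TL D rk (D.nxt^[K] i) := by
  obtain ⟨j, j', hj, hj', hjj⟩ := collision D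
  have hp := TL_collision h hj hj' hjj
  have hjo : j ≠ D.o := side_ne' h hj
  have hall : ∀ l : ℕ, D.nxt^[l] (D.nxt j) ≠ D.o ∧ D.nxt^[l] (D.nxt j) ≠ D.nxt D.o ∧
      TL D rk (D.nxt^[l] (D.nxt j)) := by
    intro l
    induction l with
    | zero => exact ⟨D.nxt_ne _, nxt_ne_e h hjo, hp⟩
    | succ l ih =>
      obtain ⟨h1, h2, h3⟩ := ih
      rw [Function.iterate_succ_apply']
      exact ⟨D.nxt_ne _, nxt_ne_e h h1, TL_step h h2 h3⟩
  obtain ⟨α, hα⟩ := h.orb j
  refine ⟨α + 1, fun i => ?_⟩
  obtain ⟨γ, hγ⟩ := h.orb i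
  have e : D.nxt^[α + 1] i = D.nxt^[γ] (D.nxt j) := by
    rw [← hγ, ← hα, ← Function.iterate_add_apply, Nat.add_comm (α + 1) γ,
      Function.iterate_add_apply, Function.iterate_succ_apply']
  rw [e]
  exact (hall γ).2.2

/-! ### Periodic bits -/

/-- The bits of the letter `i` have period `P` in the rounds `c, ..., N - c`. -/
def PB (P c : ℕ) (i : L) (a b : ℕ → List L) (N : ℕ) : Prop :=
  ∀ t, c ≤ t → t + P + c < N → (i ∈ a t ↔ i ∈ a (t + P)) ∧ (i ∈ b t ↔ i ∈ b (t + P))

lemma PB.mono {P c c' : ℕ} (hc : c ≤ c') {i : L} {a b : ℕ → List L} {N : ℕ}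
    (h : PB P c i a b N) : PB P c' i a b N := fun t h1 h2 => h t (by omega) (by omega)

lemma PB.mul {P c : ℕ} {i : L} {a b : ℕ → List L} {N : ℕ} (h : PB P c i a b N) (q : ℕ) :
    PB (q * P) c i a b N := by
  induction q with
  | zero => intro t _ _; simp
  | succ q ih =>
    intro t h1 h2
    have e : t + (q + 1) * P = (t + q * P) + P := by ring
    have h3 := ih t h1 (by nlinarith)
    have h4 := h (t + q * P) (by omega) (by rw [e] at h2; exact h2)
    rw [e]
    exact ⟨h3.1.trans h4.1, h3.2.trans h4.2⟩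

/-- Two different laws give periodic bits. -/
lemma per_of_TL {i : L} (hi : TL D rk i) : ∃ P T c : ℕ, 0 < P ∧ ∀ (a b : ℕ → List L) (N : ℕ),
    GR D rk a b N → GT D rk T (wd D a b N ++ [D.o]) → PB P c i a b N := by
  -- order the shifts
  obtain ⟨s, s', hs, ⟨T, c, hL⟩, ⟨T', c', hL'⟩⟩ : ∃ s s' : ℤ, s < s' ∧ Law D rk i s ∧
      Law D rk i s' := by
    obtain ⟨s, s', h1, h2, h3⟩ := hi
    rcases lt_or_gt_of_ne h1 with h4 | h4
    · exact ⟨s, s', h4, h2, h3⟩
    · exact ⟨s', s, h4, h3, h2⟩
  obtain ⟨P, hP⟩ : ∃ P : ℕ, (P : ℤ) = s' - s := ⟨(s' - s).toNat, by omega⟩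
  refine ⟨P, max T T', c + c' + s.natAbs + s'.natAbs + P + 1, by omega, ?_⟩
  intro a b N hG hT
  have hT1 := hT.mono' (le_max_left T T')
  have hT2 := hT.mono' (le_max_right T T')
  intro t h1 h2
  obtain ⟨τ, hτ⟩ : ∃ τ : ℕ, (τ : ℤ) = t - s := ⟨((t : ℤ) - s).toNat, by omega⟩
  obtain ⟨σ, hσ⟩ : ∃ σ : ℕ, (σ : ℤ) = t + s' := ⟨((t : ℤ) + s').toNat, by omega⟩
  have l1 := hL a b N hG hT1 τ t (by omega) (by omega) (by omega) (by omega) (by omega)
  have l2 := hL' a b N hG hT2 τ (t + P) (by push_cast; omega) (by omega) (by omega) (by omega)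
    (by omega)
  have l3 := hL' a b N hG hT2 t σ (by omega) (by omega) (by omega) (by omega) (by omega)
  have l4 := hL a b N hG hT1 (t + P) σ (by push_cast; omega) (by omega) (by omega) (by omega)
    (by omega)
  constructor
  · exact l3.trans l4.symm
  · have := l1.symm.trans l2
    tauto

/-- Uniform version: all letters after `K` steps. -/
lemma per_all (h : IsReal D rk) : ∃ K P T c : ℕ, 0 < P ∧ ∀ (a b : ℕ → List L) (N : ℕ),
    GR D rk a b N → GT D rk T (wd D a b N ++ [D.o]) → ∀ i, PB P c (D.nxt^[K] i) a b N := by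
  obtain ⟨K, hK⟩ := TL_all h
  have hex : ∀ i, ∃ P T c : ℕ, 0 < P ∧ ∀ (a b : ℕ → List L) (N : ℕ),
    GR D rk a b N → GT D rk T (wd D a b N ++ [D.o]) → PB P c (D.nxt^[K] i) a b N :=
    fun i => per_of_TL (hK i)
  choose P T c hP hall using hex
  refine ⟨K, ∏ i, P i, univ.sup T, univ.sup c, Finset.prod_pos fun i _ => hP i, ?_⟩
  intro a b N hG hT i
  have h1 := hall i a b N hG (hT.mono' (Finset.le_sup (mem_univ i)))
  have h2 := h1.mono (Finset.le_sup (f := c) (mem_univ i))
  have e : ∏ i, P i = (∏ j ∈ univ.erase i, P j) * P i := by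
    rw [mul_comm, Finset.mul_prod_erase _ _ (mem_univ i)]
  rw [e]
  exact h2.mul _

/-! ### Descent -/

lemma length_sec_le (b : Bool) (w : List L) : (D.sec b w).length ≤ w.length := by
  induction w generalizing b with
  | nil => simp [KS.sec]
  | cons x w ih =>
    by_cases hx : x = D.o
    · rw [hx, sec_cons_o]
      have := ih (!b)
      simp only [List.length_cons]
      omega
    · rcases hp : D.pre b x with _ | i
      · have e1 : D.sec b (x :: w) = D.sec b w := by simp [KS.sec, hx, hp]
        rw [e1]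
        have := ih b
        simp only [List.length_cons]
        omega
      · have e1 : D.sec b (x :: w) = i :: D.sec b w := by simp [KS.sec, hx, hp]
        rw [e1]
        have := ih b
        simp only [List.length_cons]
        omega

/-- Words made of about `N0` rounds, with periodic bits for the letters of `S`. -/
def DS (D : KS L) (rk : L → ℕ) (S : Set L) (P c N0 : ℕ) (z : List L) : Prop :=
  (z.length ≤ c ∧ N0 ≤ c) ∨ ∃ (a b : ℕ → List L) (N : ℕ) (pre post : List L),
    z = pre ++ (wd D a b N ++ D.o :: post) ∧ GR D rk a b N ∧ pre.length ≤ c ∧ post.length ≤ c ∧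
      N ≤ N0 + c ∧ N0 ≤ N + c ∧ ∀ i ∈ S, i ≠ D.o → i ≠ D.nxt D.o → PB P c i a b N

lemma length_inc {A : List L} (h : Inc D rk A) : A.length ≤ Fintype.card L :=
  pairwise_length_le _ (fun x => lt_irrefl (rk x)) h.1

lemma length_dec {A : List L} (h : Dec D rk A) : A.length ≤ Fintype.card L :=
  pairwise_length_le _ (fun x => lt_irrefl (rk x)) h.1

lemma DS_child (h : IsReal D rk) (S : Set L) (P c : ℕ) : ∃ c', ∀ (N0 : ℕ) (z : List L),
    DS D rk S P c N0 z → GT D rk 1 z → ∀ s, DS D rk {j | D.nxt j ∈ S} P c' (N0 / 2) (D.sec s z) := by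
  refine ⟨3 * c + 2 * Fintype.card L + 20, ?_⟩
  intro N0 z hz hT s
  rcases hz with ⟨h1, h2⟩ | ⟨a, b, N, pre, post, hz, hG, h1, h2, h3, h4, h5⟩
  · left
    have := length_sec_le (D := D) s z
    constructor <;> omega
  · by_cases hN : N ≤ 1
    · left
      have e1 : z.length ≤ 2 * c + 2 * Fintype.card L + 3 := by
        rw [hz]
        simp only [List.length_append, List.length_cons]
        have : (wd D a b N).length ≤ 2 * Fintype.card L + 2 := by
          interval_cases N
          · simp [wd]
          · have g := hG 0 (by omega)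
            have g1 := length_inc g.1
            have g2 := length_dec g.2
            simp only [wd, List.length_cons, List.length_append, List.length_nil]
            omega
        omega
      have := length_sec_le (D := D) s z
      constructor <;> omega
    · right
      -- the side at the beginning of the rounds
      set s1 : Bool := xor s (decide (Odd (pre.count D.o))) with hs1
      set ρ : ℕ := if s1 then 1 else 0 with hρ
      have hρ1 : ρ ≤ 1 := by rw [hρ]; split_ifs <;> omega
      have e1 : z = pre ++ ((wd D a b N ++ [D.o]) ++ post) := by rw [hz]; simp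
      have hT1 : GT D rk 1 (wd D a b N ++ [D.o]) := by
        rw [e1] at hT
        exact (GT.factor 1 (GT.factor 1 hT).2).1
      obtain ⟨pre1, post1, e2, k1, k2, -⟩ := child h s1 a b N ρ hρ (by omega) hG (hT1.2 s1)
      have hF1 : F rk D.o (D.nxt D.o) (D.sec s1 (wd D a b N ++ [D.o])) = 0 := hT1.2 s1
      have l1 : pre1.length ≤ 2 * Fintype.card L + 2 := by
        rw [e2] at hF1
        exact length_of_no_o h k1 (suffix_F hF1).1
      have l2 : post1.length ≤ 2 * Fintype.card L + 2 := by
        rw [e2] at hF1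
        have h6 := (suffix_F (suffix_F hF1).2).2
        have e3 : D.o :: post1 = [D.o] ++ post1 := rfl
        rw [e3] at h6
        exact length_of_no_o h k2 (suffix_F h6).2
      set s2 : Bool := xor s1 (decide (Odd ((wd D a b N ++ [D.o]).count D.o))) with hs2
      have e4 : D.sec s z = (D.sec s pre ++ pre1) ++
          (wd D (chA D a b ρ) (chB D a b ρ) ((N - 1 - ρ) / 2) ++ D.o :: (post1 ++ D.sec s2 post)) := by
        rw [e1, (b1 D).sec_append, (b1 D).sec_append, ← hs1, ← hs2, e2]
        simp
      refine ⟨chA D a b ρ, chB D a b ρ, (N - 1 - ρ) / 2, D.sec s pre ++ pre1,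
        post1 ++ D.sec s2 post, e4, GR_child h hG, ?_, ?_, by omega, by omega, ?_⟩
      · have := length_sec_le (D := D) s pre
        rw [List.length_append]
        omega
      · have := length_sec_le (D := D) s2 post
        rw [List.length_append]
        omega
      · intro j hj hjo hje
        have hi := h5 (D.nxt j) hj (D.nxt_ne j) (nxt_ne_e h hjo)
        have hi2 := hi.mul 2
        intro v h6 h7
        cases hside : D.side j with
        | false =>
          rw [mem_chA_right h hG (by omega) hside hje, mem_chB_right h hG (by omega) hside hje,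
            mem_chA_right h hG (by omega) hside hje, mem_chB_right h hG (by omega) hside hje]
          have := hi2 (2 * v + ρ + 1) (by omega) (by omega)
          have e5 : 2 * (v + P) + ρ + 1 = 2 * v + ρ + 1 + 2 * P := by ring
          rw [e5]
          exact this
        | true =>
          rw [mem_chA_left h hG (by omega) hside, mem_chB_left h hG (by omega) hside,
            mem_chA_left h hG (by omega) hside, mem_chB_left h hG (by omega) hside]
          have g1 := hi2 (2 * v + ρ) (by omega) (by omega)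
          have g2 := hi2 (2 * v + ρ + 2) (by omega) (by omega)
          have e5 : 2 * (v + P) + ρ = 2 * v + ρ + 2 * P := by ring
          have e6 : 2 * v + ρ + 2 * P + 2 = 2 * v + ρ + 2 + 2 * P := by ring
          rw [e5, e6]
          exact ⟨g1.2, g2.1⟩

lemma DS_mono {S S' : Set L} (hS : S' ⊆ S) {P c c' N0 : ℕ} (hc : c ≤ c') {z : List L}
    (hz : DS D rk S P c N0 z) : DS D rk S' P c' N0 z := by
  rcases hz with ⟨h1, h2⟩ | ⟨a, b, N, pre, post, hz, hG, h1, h2, h3, h4, h5⟩
  · left; constructor <;> omega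
  · right
    exact ⟨a, b, N, pre, post, hz, hG, by omega, by omega, by omega, by omega,
      fun i hi hio hie => (h5 i (hS hi) hio hie).mono hc⟩

lemma DS_depth (h : IsReal D rk) (P : ℕ) : ∀ (k : ℕ) (S : Set L) (c : ℕ), ∃ c', ∀ (N0 : ℕ) (z : List L),
    DS D rk S P c N0 z → GT D rk k z → ∀ v : List Bool, v.length = k →
      DS D rk {j | D.nxt^[k] j ∈ S} P c' (N0 / 2 ^ k) (D.secL v z) := by
  intro k
  induction k with
  | zero =>
    intro S c
    refine ⟨c, ?_⟩
    intro N0 z hz _ v hv
    rw [List.length_eq_zero_iff] at hv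
    subst hv
    have e1 : D.secL [] z = z := rfl
    have e2 : N0 / 2 ^ 0 = N0 := by simp
    rw [e1, e2]
    exact hz
  | succ k ih =>
    intro S c
    obtain ⟨c1, hc1⟩ := DS_child h S P c
    obtain ⟨c2, hc2⟩ := ih {j | D.nxt j ∈ S} c1
    refine ⟨c2, ?_⟩
    intro N0 z hz hT v hv
    rcases v with _ | ⟨b, v⟩
    · simp at hv
    have hv' : v.length = k := by simpa using hv
    have h1 := hc1 N0 z hz (hT.mono' (by omega)) b
    have h2 := hc2 (N0 / 2) (D.sec b z) h1 (hT.2 b) v hv'
    have e1 : N0 / 2 ^ (k + 1) = N0 / 2 / 2 ^ k := by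
      rw [Nat.div_div_eq_div_mul, pow_succ, Nat.mul_comm]
    have e2 : {j | D.nxt^[k + 1] j ∈ S} = {j | D.nxt^[k] j ∈ {j | D.nxt j ∈ S}} := by
      ext j
      rw [Set.mem_ofPred_eq, Set.mem_ofPred_eq, Set.mem_ofPred_eq, Function.iterate_succ_apply']
    rw [e1, e2]
    exact h2

/-- The number of rounds of an error free word is the number of letters `o` minus one. -/
lemma count_wd (h : IsReal D rk) : ∀ (N : ℕ) (a b : ℕ → List L), GR D rk a b N →
    (wd D a b N).count D.o = N := by
  intro N
  induction N with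
  | zero => intro a b _; simp [wd]
  | succ N ih =>
    intro a b hG
    have g := hG 0 (by omega)
    have h1 := ih (fun t => a (t + 1)) (fun t => b (t + 1)) (fun t ht => hG (t + 1) (by omega))
    have hne : D.nxt D.o ≠ D.o := D.nxt_ne D.o
    simp only [wd, List.count_cons_self, List.count_append, List.count_cons_of_ne hne, h1,
      List.count_eq_zero.2 g.1.no_o, List.count_eq_zero.2 g.2.no_o]
    omega

/-- All sections of depth `K` have periodic bits. -/
lemma deep (h : IsReal D rk) : ∃ K P T c : ℕ, 0 < P ∧ ∀ Q : List L, GT D rk T Q →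
    ∀ v : List Bool, v.length = K → DS D rk Set.univ P c (Q.count D.o / 2 ^ K) (D.secL v Q) := by
  obtain ⟨K, P, T, c, hP, hall⟩ := per_all h
  set S : Set L := Set.range (D.nxt^[K]) with hS
  obtain ⟨c', hc'⟩ := DS_depth h P K S (c + 2 * Fintype.card L + 2)
  refine ⟨K, P, max T K, c', hP, ?_⟩
  intro Q hQ v hv
  have hF := hQ.F
  have htop : DS D rk S P (c + 2 * Fintype.card L + 2) (Q.count D.o) Q := by
    by_cases ho : D.o ∈ Q
    · right
      obtain ⟨a, b, N, pre, post, e1, hG, k1, k2⟩ := rounds_of_F' h hF ho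
      have e2 : Q = pre ++ ((wd D a b N ++ [D.o]) ++ post) := by rw [e1]; simp
      have hT : GT D rk T (wd D a b N ++ [D.o]) := by
        have := hQ.mono' (le_max_left T K)
        rw [e2] at this
        exact (GT.factor T (GT.factor T this).2).1
      have hF2 : F rk D.o (D.nxt D.o) (pre ++ ((wd D a b N ++ [D.o]) ++ post)) = 0 := by
        rw [← e2]; exact hF
      have l1 := length_of_no_o h k1 (suffix_F hF2).1
      have l2 := length_of_no_o h k2 (suffix_F (suffix_F hF2).2).2
      have hcount : Q.count D.o = N + 1 := by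
        rw [e1, List.count_append, List.count_append, count_wd h N a b hG,
          List.count_eq_zero.2 k1, List.count_cons_self, List.count_eq_zero.2 k2]
        omega
      refine ⟨a, b, N, pre, post, e1, hG, by omega, by omega, by omega, by omega, ?_⟩
      rintro i ⟨j, rfl⟩ _ _
      exact (hall a b N hG hT j).mono (by omega)
    · left
      have := length_of_no_o h ho hF
      have h0 : Q.count D.o = 0 := List.count_eq_zero.2 ho
      constructor <;> omega
  have := hc' _ _ htop (hQ.mono' (le_max_right T K)) v hv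
  have hsub : (Set.univ : Set L) ⊆ {j | D.nxt^[K] j ∈ S} := fun j _ => ⟨j, rfl⟩
  exact DS_mono hsub le_rfl this

end R4.Rl
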