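import Pool.Agent.Work.MP_e3f5d9_al_real48.RD
import Pool.Agent.Work.MP_e3f5d9_al.B8

/-!
# R4, real systems, part E: finitely many error free elements for a given number of rounds
-/

set_option autoImplicit false
set_option linter.unusedSectionVars false

open Finset

namespace R4.Rl

variable {L : Type} [Fintype L] [DecidableEq L] {D : KS L} {rk : L → ℕ}

/-- Short words. -/
abbrev SW (L : Type) (n : ℕ) : Type := {l : List L // l.length ≤ n}

instance (n : ℕ) : Finite (SW L n) := (List.finite_length_le L n).to_subtype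

lemma eq_of_inc {A B : List L} (hA : Inc D rk A) (hB : Inc D rk B)
    (hAB : ∀ x, x ∈ A ↔ x ∈ B) : A = B := by
  have nA : A.Nodup := hA.1.imp (fun {a b} hab hh => by subst hh; exact lt_irrefl _ hab)
  have nB : B.Nodup := hB.1.imp (fun {a b} hab hh => by subst hh; exact lt_irrefl _ hab)
  have hp : A.Perm B := (List.perm_ext_iff_of_nodup nA nB).2 hAB
  exact hp.eq_of_pairwise (fun a b _ _ h1 h2 => absurd h1 (lt_asymm h2)) hA.1 hB.1

lemma eq_of_dec {A B : List L} (hA : Dec D rk A) (hB : Dec D rk B)
    (hAB : ∀ x, x ∈ A ↔ x ∈ B) : A = B := by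
  have nA : A.Nodup := hA.1.imp (fun {a b} hab hh => by subst hh; exact lt_irrefl _ hab)
  have nB : B.Nodup := hB.1.imp (fun {a b} hab hh => by subst hh; exact lt_irrefl _ hab)
  have hp : A.Perm B := (List.perm_ext_iff_of_nodup nA nB).2 hAB
  exact hp.eq_of_pairwise (fun a b _ _ h1 h2 => absurd h1 (lt_asymm h2)) hA.1 hB.1

lemma wd_congr : ∀ (N : ℕ) (a b a' b' : ℕ → List L), (∀ t < N, a t = a' t) →
    (∀ t < N, b t = b' t) → wd D a b N = wd D a' b' N := by
  intro N
  induction N with
  | zero => intro a b a' b' _ _; rfl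
  | succ N ih =>
    intro a b a' b' ha hb
    have := ih (fun t => a (t + 1)) (fun t => b (t + 1)) (fun t => a' (t + 1))
      (fun t => b' (t + 1)) (fun t ht => ha (t + 1) (by omega)) (fun t ht => hb (t + 1) (by omega))
    simp only [wd]
    rw [this, ha 0 (by omega), hb 0 (by omega)]

/-- Reconstruction of the rounds from finitely many of them. -/
def rcn (P c m : ℕ) (x : Fin (c + P) → SW L m) (y : Fin (c + 1) → SW L m) (N t : ℕ) : List L :=
  if h : t < c + P then (x ⟨t, h⟩).1
  else if h' : N - 1 - t < c + 1 then (y ⟨N - 1 - t, h'⟩).1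
  else if h'' : c + (t - c) % P < c + P then (x ⟨c + (t - c) % P, h''⟩).1 else []

/-- Parameters. -/
abbrev Par (L : Type) (P c m : ℕ) : Type :=
  SW L c ⊕ (SW L c × SW L c × Fin (2 * c + 1) × (Fin (c + P) → SW L m) × (Fin (c + P) → SW L m) ×
    (Fin (c + 1) → SW L m) × (Fin (c + 1) → SW L m))

/-- The word of a parameter. -/
noncomputable def wpar (D : KS L) (P c m N0 : ℕ) : Par L P c m → List L
  | Sum.inl z => z.1
  | Sum.inr (pre, post, k, x, x', y, y') =>
      pre.1 ++ (wd D (rcn P c m x y (N0 + k.1 - c)) (rcn P c m x' y' (N0 + k.1 - c))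
        (N0 + k.1 - c) ++ D.o :: post.1)

lemma rcn_eq {P c m N : ℕ} (hP : 0 < P) (a : ℕ → List L) (hm : ∀ t, t < N → (a t).length ≤ m)
    (hper : ∀ t, c ≤ t → t + P + c < N → a t = a (t + P)) :
    ∃ (x : Fin (c + P) → SW L m) (y : Fin (c + 1) → SW L m), ∀ t < N, rcn P c m x y N t = a t := by
  classical
  refine ⟨fun s => if h : s.1 < N then ⟨a s.1, hm _ h⟩ else ⟨[], by simp⟩,
    fun s => if h : N - 1 - s.1 < N then ⟨a (N - 1 - s.1), hm _ h⟩ else ⟨[], by simp⟩, ?_⟩
  intro t ht
  unfold rcn
  split_ifs with h1 h2 h3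
  · simp [ht]
  · have e : N - 1 - (N - 1 - t) = t := by omega
    have e2 : N - 1 - (N - 1 - t) < N := by omega
    simp only [e]
    simp [ht]
  · -- periodicity
    have hlt : c + (t - c) % P < N := by
      have := Nat.mod_le (t - c) P
      omega
    simp only [dif_pos hlt]
    have key : ∀ q : ℕ, c + (t - c) % P + q * P ≤ t → a (c + (t - c) % P) =
        a (c + (t - c) % P + q * P) := by
      intro q
      induction q with
      | zero => intro _; simp
      | succ q ih =>
        intro hq
        have e1 : c + (t - c) % P + (q + 1) * P = (c + (t - c) % P + q * P) + P := by ring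
        rw [e1] at hq ⊢
        rw [ih (by omega)]
        exact hper _ (by omega) (by omega)
    have e2 : c + (t - c) % P + (t - c) / P * P = t := by
      have := Nat.mod_add_div (t - c) P
      have e3 : (t - c) / P * P = P * ((t - c) / P) := Nat.mul_comm _ _
      rw [e3]
      omega
    rw [key ((t - c) / P) (by rw [e2]), e2]
  · exfalso
    have := Nat.mod_lt (t - c) hP
    omega

lemma exists_par {P c N0 : ℕ} (hP : 0 < P) {z : List L}
    (hz : DS D rk Set.univ P c N0 z) :
    ∃ π : Par L P c (Fintype.card L), wpar D P c (Fintype.card L) N0 π = z := by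
  rcases hz with ⟨h1, -⟩ | ⟨a, b, N, pre, post, hz, hG, h1, h2, h3, h4, h5⟩
  · exact ⟨Sum.inl ⟨z, h1⟩, rfl⟩
  · have hPB : ∀ i, i ≠ D.o → i ≠ D.nxt D.o → PB P c i a b N := fun i => h5 i (Set.mem_univ i)
    have ha : ∀ t, c ≤ t → t + P + c < N → a t = a (t + P) := by
      intro t ht ht'
      have g1 := (hG t (by omega)).1
      have g2 := (hG (t + P) (by omega)).1
      refine eq_of_inc g1 g2 fun x => ?_
      by_cases hxo : x = D.o
      · subst hxo
        exact ⟨fun hh => absurd hh g1.no_o, fun hh => absurd hh g2.no_o⟩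
      · by_cases hxe : x = D.nxt D.o
        · subst hxe
          exact ⟨fun hh => absurd hh g1.no_e, fun hh => absurd hh g2.no_e⟩
        · exact (hPB x hxo hxe t ht ht').1
    have hb : ∀ t, c ≤ t → t + P + c < N → b t = b (t + P) := by
      intro t ht ht'
      have g1 := (hG t (by omega)).2
      have g2 := (hG (t + P) (by omega)).2
      refine eq_of_dec g1 g2 fun x => ?_
      by_cases hxo : x = D.o
      · subst hxo
        exact ⟨fun hh => absurd hh g1.no_o, fun hh => absurd hh g2.no_o⟩
      · by_cases hxe : x = D.nxt D.o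
        · subst hxe
          exact ⟨fun hh => absurd hh g1.no_e, fun hh => absurd hh g2.no_e⟩
        · exact (hPB x hxo hxe t ht ht').2
    obtain ⟨x, y, hxy⟩ := rcn_eq hP a (fun t ht => length_inc (hG t ht).1) ha
    obtain ⟨x', y', hxy'⟩ := rcn_eq hP b (fun t ht => length_dec (hG t ht).2) hb
    refine ⟨Sum.inr (⟨pre, h1⟩, ⟨post, h2⟩, ⟨N + c - N0, by omega⟩, x, x', y, y'), ?_⟩
    have e : N0 + (N + c - N0) - c = N := by omega
    simp only [wpar, e]
    rw [hz, wd_congr N _ _ a b hxy hxy']

/-- The element of an error free word is determined by the number of letters `o` and by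
finitely many data. -/
theorem finite_codes (h : IsReal D rk) : ∃ (T K : ℕ) (cd : List L → ℕ), (∀ Q, cd Q < K) ∧
    ∀ Q Q', GT D rk T Q → GT D rk T Q' → Q.count D.o = Q'.count D.o → cd Q = cd Q' →
      D.ev Q = D.ev Q' := by
  classical
  obtain ⟨k, P, T, c, hP, hdeep⟩ := deep h
  let X : Type := ((Fin k → Bool) → {l : List Bool // l.length = k}) ×
    ((Fin k → Bool) → Par L P c (Fintype.card L))
  have : Finite {l : List Bool // l.length = k} := (List.finite_length_eq Bool k).to_subtype
  have : Finite X := inferInstance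
  have : Fintype X := Fintype.ofFinite X
  have hne : Nonempty (Par L P c (Fintype.card L)) := ⟨Sum.inl ⟨[], by simp⟩⟩
  -- the chosen parameter
  let par : List L → (Fin k → Bool) → Par L P c (Fintype.card L) := fun Q v =>
    if hh : ∃ π : Par L P c (Fintype.card L), wpar D P c (Fintype.card L) (Q.count D.o / 2 ^ k) π =
      D.secL (List.ofFn v) Q then hh.choose else Classical.choice hne
  have hpar : ∀ Q, GT D rk T Q → ∀ v, wpar D P c (Fintype.card L) (Q.count D.o / 2 ^ k) (par Q v) =
      D.secL (List.ofFn v) Q := by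
    intro Q hQ v
    have hh : ∃ π : Par L P c (Fintype.card L), wpar D P c (Fintype.card L) (Q.count D.o / 2 ^ k) π =
      D.secL (List.ofFn v) Q := exists_par hP (hdeep Q hQ _ (by simp))
    simp only [par, dif_pos hh]
    exact hh.choose_spec
  let G : List L → X := fun Q => (fun v => ⟨D.ev Q (List.ofFn v), by
    rw [(b1 D).ev_length]; simp⟩, par Q)
  refine ⟨T, Fintype.card X, fun Q => (Fintype.equivFin X (G Q)).1, fun Q => Fin.is_lt _, ?_⟩
  intro Q Q' hQ hQ' hc hG
  have hG' : G Q = G Q' := (Fintype.equivFin X).injective (Fin.ext hG)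
  have e1 := congrArg Prod.fst hG'
  have e2 := congrArg Prod.snd hG'
  apply ev_ext D (b1 D) k
  · intro v hv
    subst hv
    have := congrArg Subtype.val (congrFun e1 v.get)
    simpa [G] using this
  · intro v hv
    subst hv
    have h1 := hpar Q hQ v.get
    have h2 := hpar Q' hQ' v.get
    have e3 : par Q v.get = par Q' v.get := congrFun e2 v.get
    rw [List.ofFn_get] at h1 h2
    rw [← h1, ← h2, hc, e3]

end R4.Rl
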