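import Pool.Agent.Work.MP_e3f5d9_al_real48.RE
import Pool.Agent.Work.MP_e3f5d9_al_real48.RDefs

/-!
# R4, real systems, part F: inequalities for words
-/

set_option autoImplicit false
set_option linter.unusedSectionVars false

open Finset

namespace R4.Rl

variable {L : Type} [Fintype L] [DecidableEq L]

/-- The letters below `q`. -/
def dn (rk : L → ℕ) (q : L) : Finset L := univ.filter fun i => rk i < rk q

/-- The letters above `q`. -/
def upp (rk : L → ℕ) (q : L) : Finset L := univ.filter fun i => rk q < rk i

@[simp] lemma mem_dn {rk : L → ℕ} {q i : L} : i ∈ dn rk q ↔ rk i < rk q := by simp [dn]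
@[simp] lemma mem_upp {rk : L → ℕ} {q i : L} : i ∈ upp rk q ↔ rk q < rk i := by simp [upp]

/-! ### Blocks with a flag -/

/-- Number of `Y`-blocks relative to `X`, with a flag. -/
def bk (X Y : Finset L) : Bool → List L → ℕ
  | _, [] => 0
  | q, x :: w => if x ∈ Y then (if q then 0 else 1) + bk X Y true w
      else if x ∈ X then bk X Y false w else bk X Y q w

lemma blk_eq_aux (X Y : Finset L) (w : List L) : ∀ q,
    runsAux Y q (w.filter fun x => x ∈ X ∨ x ∈ Y) = bk X Y q w := by
  induction w with
  | nil => intro q; rfl
  | cons x w ih =>
    intro q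
    by_cases h1 : x ∈ Y
    · simp only [h1, or_true, decide_true, List.filter_cons_of_pos, runsAux, bk, if_true, ih]
    · by_cases h2 : x ∈ X
      · simp only [h1, h2, or_false, decide_true, List.filter_cons_of_pos, runsAux, bk, if_true,
          if_false, ih]
      · have : ((x :: w).filter fun x => x ∈ X ∨ x ∈ Y) = w.filter fun x => x ∈ X ∨ x ∈ Y := by
          rw [List.filter_cons_of_neg]
          simp [h1, h2]
        rw [this, ih]
        simp [bk, h1, h2]

lemma blk_eq (X Y : Finset L) (w : List L) : blk X Y w = bk X Y false w := blk_eq_aux X Y w false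

/-! ### Turning letters -/

/-- Number of letters `y` between two letters of `X`. -/
def mx (X : Finset L) (y : L) : List L → ℕ
  | [] => 0
  | [_] => 0
  | [_, _] => 0
  | x :: y' :: z :: t => (if x ∈ X ∧ y' = y ∧ z ∈ X then 1 else 0) + mx X y (y' :: z :: t)

/-- The version with a state: `1` after a letter of `X`, `2` after a letter of `X` and `y`. -/
def mxs (X : Finset L) (y : L) : ℕ → List L → ℕ
  | _, [] => 0
  | s, x :: w => (if s = 2 ∧ x ∈ X then 1 else 0) +
      mxs X y (if x ∈ X then 1 else if s = 1 ∧ x = y then 2 else 0) w

lemma mx_two (X : Finset L) (y : L) (hy : y ∉ X) : ∀ (w : List L) (x y' : L),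
    mx X y (x :: y' :: w) = mxs X y (if y' ∈ X then 1 else if x ∈ X ∧ y' = y then 2 else 0) w := by
  intro w
  induction w with
  | nil => intro x y'; simp [mx, mxs]
  | cons z t ih =>
    intro x y'
    simp only [mx, mxs, ih]
    by_cases h1 : y' ∈ X
    · have h2 : y' ≠ y := fun hh => hy (hh ▸ h1)
      simp [h1, h2]
    · by_cases h2 : x ∈ X <;> by_cases h3 : y' = y <;> by_cases h4 : z ∈ X <;>
        simp [h1, h2, h3, h4, hy]

lemma mx_one (X : Finset L) (y : L) (hy : y ∉ X) (w : List L) (x : L) :
    mx X y (x :: w) = mxs X y (if x ∈ X then 1 else 0) w := by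
  rcases w with _ | ⟨z, t⟩
  · simp [mx, mxs]
  · rw [mx_two X y hy]
    simp only [mxs]
    by_cases h1 : x ∈ X <;> by_cases h2 : z ∈ X <;> by_cases h3 : z = y <;> simp [h1, h2, h3, hy]

lemma mx_zero (X : Finset L) (y : L) (hy : y ∉ X) (w : List L) : mx X y w = mxs X y 0 w := by
  rcases w with _ | ⟨z, t⟩
  · simp [mx, mxs]
  · rw [mx_one X y hy]
    simp only [mxs]
    by_cases h1 : z ∈ X <;> simp [h1]

lemma mx_aux (X Y : Finset L) (y : L) (hX : y ∉ X) (hY : y ∉ Y) (hd : Disjoint X Y) (w : List L) :
    mxs X y 1 w + bk X Y false w ≤ runsAux Xᶜ false w ∧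
    mxs X y 2 w + bk X Y false w ≤ runsAux Xᶜ true w + 1 ∧
    mxs X y 0 w + bk X Y false w ≤ runsAux Xᶜ true w + 1 ∧
    mxs X y 0 w + bk X Y true w ≤ runsAux Xᶜ true w ∧
    mxs X y 0 w + bk X Y false w ≤ runsAux Xᶜ false w := by
  induction w with
  | nil => simp [mxs, bk, runsAux]
  | cons x w ih =>
    obtain ⟨i1, i2, i3, i4, i5⟩ := ih
    by_cases h1 : x ∈ X
    · have h2 : x ∉ Y := fun hh => Finset.disjoint_left.1 hd h1 hh
      simp only [mxs, bk, runsAux, h1, h2, Finset.mem_compl, not_true, if_true, if_false, and_true,
        and_false, reduceCtorEq, OfNat.zero_ne_ofNat, OfNat.one_ne_ofNat]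
      omega
    · by_cases h3 : x = y
      · subst h3
        simp only [mxs, bk, runsAux, h1, hY, Finset.mem_compl, not_false_eq_true, if_true, if_false,
          and_true, and_false, OfNat.ofNat_ne_one, zero_ne_one, Bool.false_eq_true]
        omega
      · by_cases h2 : x ∈ Y
        · simp only [mxs, bk, runsAux, h1, h2, h3, Finset.mem_compl, not_false_eq_true, if_true,
            if_false, and_false, Bool.false_eq_true]
          omega
        · simp only [mxs, bk, runsAux, h1, h2, h3, Finset.mem_compl, not_false_eq_true, if_true,
            if_false, and_false, Bool.false_eq_true]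
          omega

/-- Letters `y` between two letters of `X`, and `Y`-blocks. -/
lemma mx_le (X Y : Finset L) (y : L) (hX : y ∉ X) (hY : y ∉ Y) (hd : Disjoint X Y) (w : List L) :
    mx X y w + blk X Y w ≤ runs Xᶜ w := by
  rw [mx_zero X y hX, blk_eq]
  exact (mx_aux X Y y hX hY hd w).2.2.2.2

/-- The turning letters. -/
lemma bt_le (rk : L → ℕ) (o e : L) (ho : ∀ i, rk o ≤ rk i) (he : ∀ i, rk i ≤ rk e) :
    ∀ w : List L, bt rk o e w ≤
      ∑ y ∈ univ.filter (fun y => y ≠ o ∧ y ≠ e), (mx (dn rk y) y w + mx (upp rk y) y w) := by
  intro w
  induction w with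
  | nil => simp [bt]
  | cons x w ih =>
    rcases w with _ | ⟨y, _ | ⟨z, t⟩⟩
    · simp [bt]
    · simp [bt]
    · simp only [bt, mx]
      have hsum : ∀ y', ((if x ∈ dn rk y' ∧ y = y' ∧ z ∈ dn rk y' then 1 else 0) +
          mx (dn rk y') y' (y :: z :: t) +
          ((if x ∈ upp rk y' ∧ y = y' ∧ z ∈ upp rk y' then 1 else 0) +
          mx (upp rk y') y' (y :: z :: t))) =
          ((if x ∈ dn rk y' ∧ y = y' ∧ z ∈ dn rk y' then 1 else 0) +
            (if x ∈ upp rk y' ∧ y = y' ∧ z ∈ upp rk y' then 1 else 0)) +
          (mx (dn rk y') y' (y :: z :: t) + mx (upp rk y') y' (y :: z :: t)) := by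
        intro y'; omega
      rw [Finset.sum_congr rfl fun y' _ => hsum y', Finset.sum_add_distrib]
      refine Nat.add_le_add ?_ ih
      split_ifs with hT
      · unfold Turn at hT
        rcases hT with ⟨h1, h2, h3⟩ | ⟨h1, h2, h3⟩
        · have hyo : y ≠ o := by
            intro hh; have := ho x; rw [hh] at h1; omega
          refine le_trans ?_ (Finset.single_le_sum (f := fun y' =>
            ((if x ∈ dn rk y' ∧ y = y' ∧ z ∈ dn rk y' then 1 else 0) +
            (if x ∈ upp rk y' ∧ y = y' ∧ z ∈ upp rk y' then 1 else 0)))
            (fun _ _ => Nat.zero_le _) (Finset.mem_filter.2 ⟨mem_univ y, hyo, h3⟩))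
          simp [h1, h2]
        · have hye : y ≠ e := by
            intro hh; have := he x; rw [hh] at h1; omega
          refine le_trans ?_ (Finset.single_le_sum (f := fun y' =>
            ((if x ∈ dn rk y' ∧ y = y' ∧ z ∈ dn rk y' then 1 else 0) +
            (if x ∈ upp rk y' ∧ y = y' ∧ z ∈ upp rk y' then 1 else 0)))
            (fun _ _ => Nat.zero_le _) (Finset.mem_filter.2 ⟨mem_univ y, h3, hye⟩))
          simp [h1, h2]
      · exact Nat.zero_le _

/-! ### Runs with an odd number of a letter -/

/-- Number of `A`-runs with an odd number of letters `x`; the flag is the current parity. -/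
def od (A : Finset L) (x : L) : Bool → List L → ℕ
  | p, [] => if p then 1 else 0
  | p, y :: w => if y = x then od A x (!p) w else if y ∈ A then od A x p w
      else (if p then 1 else 0) + od A x false w

lemma od_flag (x : L) (w : List L) :
    od {x} x true w ≤ od {x} x false w + 1 ∧ od {x} x false w ≤ od {x} x true w + 1 := by
  induction w with
  | nil => simp [od]
  | cons y w ih =>
    obtain ⟨h1, h2⟩ := ih
    by_cases h : y = x
    · simp only [od, h, if_true, Bool.not_true, Bool.not_false]
      omega
    · have h' : y ∉ ({x} : Finset L) := by simpa using h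
      simp only [od, h, h', if_false, if_true, Bool.false_eq_true]
      omega

lemma od_remove (x : L) (y : L) : ∀ (A B : List L) (p : Bool),
    od {x} x p (A ++ B) ≤ od {x} x p (A ++ y :: y :: B) := by
  intro A
  induction A with
  | nil =>
    intro B p
    have h1 := od_flag x B
    by_cases h : y = x
    · simp [od, h]
    · have h' : y ∉ ({x} : Finset L) := by simpa using h
      simp only [List.nil_append, od, h, h', if_false]
      cases p
      · simp
      · simp only [if_true, Bool.false_eq_true, if_false]
        omega
  | cons z A ih =>
    intro B p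
    by_cases h : z = x
    · simp only [List.cons_append, od, h, if_true]
      exact ih B _
    · have h' : z ∉ ({x} : Finset L) := by simpa using h
      simp only [List.cons_append, od, h, h', if_false]
      have := ih B false
      omega

lemma od_red (x : L) (z : List L) : od {x} x false (red z) ≤ od {x} x false z := by
  have := red_le' (fun z => (od {x} x false z : ℤ)) (fun A B y => by
    have := od_remove x y A B false
    exact_mod_cast this) z
  exact_mod_cast this

lemma count_le_od (x : L) (w : List L) : w.count x ≤ od {x} x false w + 2 * viol w ∧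
    w.count x + 1 ≤ od {x} x true w + 2 * viol (x :: w) := by
  induction w with
  | nil => simp [od, viol]
  | cons y w ih =>
    obtain ⟨h1, h2⟩ := ih
    have h3 := (viol_cons_le y w).1
    have h4 := (viol_cons_le x w).1
    by_cases h : y = x
    · subst h
      simp only [od, if_true, List.count_cons_self, Bool.not_false, Bool.not_true]
      have e : viol (y :: y :: w) = 1 + viol (y :: w) := by simp [viol]
      rw [e]
      omega
    · have h' : y ∉ ({x} : Finset L) := by simpa using h
      simp only [od, h, h', if_false, if_true, List.count_cons_of_ne h, Bool.false_eq_true]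
      have e : viol (x :: y :: w) = viol (y :: w) := by
        have : x ≠ y := fun hh => h hh.symm
        simp [viol, this]
      rw [e]
      omega

lemma viol_of_chain {w : List L} (h : w.IsChain (· ≠ ·)) : viol w = 0 := by
  induction w with
  | nil => rfl
  | cons x w ih =>
    rcases w with _ | ⟨y, t⟩
    · rfl
    · rw [List.isChain_cons_cons] at h
      simp [viol, h.1, ih h.2]

lemma viol_red (z : List L) : viol (red z) = 0 := viol_of_chain ((b1p L).red_chain z)

lemma count_red_le_od (x : L) (z : List L) : (red z).count x ≤ od {x} x false z := by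
  have h1 := (count_le_od x (red z)).1
  have h2 := od_red x z
  have h3 := viol_red z
  omega

section

variable {D : KS L} {rk : L → ℕ}

lemma pre_false_above (h : IsReal D rk) {y : L} (hy : rk (D.nxt (D.nxt D.o)) < rk y) :
    D.pre false y = none := by
  rcases hp : D.pre false y with _ | i
  · rfl
  · exfalso
    obtain ⟨h1, h2⟩ := ((b1 D).pre_eq _ _ _).1 hp
    by_cases hi : i = D.nxt D.o
    · rw [← h1, hi] at hy
      exact lt_irrefl _ hy
    · have h3 : rk i < rk (D.nxt D.o) := by
        by_contra hcon
        have := h.lt_of_ne hi hcon
        have h4 := h.e_max i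
        omega
      have h4 := h.mono i (D.nxt D.o) h2 h.side_e h3
      rw [h1] at h4
      omega

/-- The odd runs of the letter `e` in the children. -/
lemma od_child (h : IsReal D rk) (Q : List L) : ∀ π pr pl : Bool,
    od {D.nxt D.o} (D.nxt D.o) pr (D.sec false Q) + od {D.nxt D.o} (D.nxt D.o) pl (D.sec true Q) ≤
      od (up rk (D.nxt (D.nxt D.o))) (D.nxt (D.nxt D.o)) π Q + (if pl then 1 else 0) +
        (if π = pr then 0 else 1) := by
  set u := D.nxt (D.nxt D.o) with hu
  set e := D.nxt D.o with he
  induction Q with
  | nil =>
    intro π pr pl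
    simp only [KS.sec, od]
    cases π <;> cases pr <;> cases pl <;> simp
  | cons y Q ih =>
    intro π pr pl
    have huo : u ≠ D.o := D.nxt_ne _
    by_cases hyo : y = D.o
    · subst hyo
      have hou : D.o ∉ up rk u := by
        rw [mem_up, not_le]
        have := h.o_min u
        rcases Nat.lt_or_ge (rk D.o) (rk u) with h1 | h1
        · exact h1
        · exact absurd (h.inj _ _ (le_antisymm h1 this)) huo
      rw [sec_cons_o, sec_cons_o, Bool.not_false, Bool.not_true]
      have := ih false pl pr
      simp only [od, huo.symm, hou, if_false]
      revert this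
      cases π <;> cases pr <;> cases pl <;> simp <;> omega
    · by_cases hyu : y = u
      · -- the letter u: e on the right side
        have hr : D.pre false y = some e := ((b1 D).pre_eq _ _ _).2 ⟨hyu.symm ▸ rfl, h.side_e⟩
        have e1 : D.sec false (y :: Q) = e :: D.sec false Q := by simp [KS.sec, hyo, hr]
        have e2 : od (up rk u) u π (y :: Q) = od (up rk u) u (!π) Q := by simp [od, hyu]
        have e3 : od {e} e pr (e :: D.sec false Q) = od {e} e (!pr) (D.sec false Q) := by simp [od]
        rw [e1, e2, e3]
        rcases hl : D.pre true y with _ | i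
        · have e4 : D.sec true (y :: Q) = D.sec true Q := by simp [KS.sec, hyo, hl]
          rw [e4]
          have := ih (!π) (!pr) pl
          revert this
          cases π <;> cases pr <;> cases pl <;> simp
        · have e4 : D.sec true (y :: Q) = i :: D.sec true Q := by simp [KS.sec, hyo, hl]
          have hie : i ≠ e := side_ne h ((b1 D).pre_eq _ _ _ |>.1 hl).2
          have hie' : i ∉ ({e} : Finset L) := by simpa using hie
          have e5 : od {e} e pl (i :: D.sec true Q) = (if pl then 1 else 0) +
              od {e} e false (D.sec true Q) := by simp [od, hie, hie']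
          rw [e4, e5]
          have := ih (!π) (!pr) false
          revert this
          cases π <;> cases pr <;> cases pl <;> simp <;> omega
      · -- the left child
        have hleft : ∀ (π' pr' : Bool), od {e} e pr' (D.sec false Q) +
            od {e} e pl (D.sec true (y :: Q)) ≤
            od (up rk u) u π' Q + (if pl then 1 else 0) + (if π' = pr' then 0 else 1) := by
          intro π' pr'
          rcases hl : D.pre true y with _ | i
          · have e4 : D.sec true (y :: Q) = D.sec true Q := by simp [KS.sec, hyo, hl]
            rw [e4]
            exact ih π' pr' pl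
          · have e4 : D.sec true (y :: Q) = i :: D.sec true Q := by simp [KS.sec, hyo, hl]
            have hie : i ≠ e := side_ne h ((b1 D).pre_eq _ _ _ |>.1 hl).2
            have hie' : i ∉ ({e} : Finset L) := by simpa using hie
            have e5 : od {e} e pl (i :: D.sec true Q) = (if pl then 1 else 0) +
                od {e} e false (D.sec true Q) := by simp [od, hie, hie']
            rw [e4, e5]
            have := ih π' pr' false
            simp only [Bool.false_eq_true, if_false] at this
            omega
        by_cases hyU : y ∈ up rk u
        · have hlt : rk u < rk y := by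
            rw [mem_up] at hyU
            rcases Nat.lt_or_ge (rk u) (rk y) with h1 | h1
            · exact h1
            · exact absurd (h.inj _ _ (le_antisymm h1 hyU)) hyu
          have hr := pre_false_above h hlt
          have e1 : D.sec false (y :: Q) = D.sec false Q := by simp [KS.sec, hyo, hr]
          have e2 : od (up rk u) u π (y :: Q) = od (up rk u) u π Q := by simp only [od, hyu, hyU, if_false, if_true]
          rw [e1, e2]
          exact hleft π pr
        · have e2 : od (up rk u) u π (y :: Q) = (if π then 1 else 0) + od (up rk u) u false Q := by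
            simp only [od, hyu, hyU, if_false]
          rw [e2]
          rcases hr : D.pre false y with _ | i
          · have e1 : D.sec false (y :: Q) = D.sec false Q := by simp [KS.sec, hyo, hr]
            rw [e1]
            have := hleft false pr
            revert this
            cases π <;> cases pr <;> simp <;> omega
          · have e1 : D.sec false (y :: Q) = i :: D.sec false Q := by simp [KS.sec, hyo, hr]
            have hie : i ≠ e := by
              intro hh
              have := ((b1 D).pre_eq _ _ _ |>.1 hr).1
              rw [hh] at this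
              exact hyu this.symm
            have hie' : i ∉ ({e} : Finset L) := by simpa using hie
            have e5 : od {e} e pr (i :: D.sec false Q) = (if pr then 1 else 0) +
                od {e} e false (D.sec false Q) := by simp [od, hie, hie']
            rw [e1, e5]
            have := hleft false false
            revert this
            cases π <;> cases pr <;> simp <;> omega

/-- The letters `e` of the children. -/
lemma count_e_child (h : IsReal D rk) (Q : List L) :
    (red (D.sec false Q)).count (D.nxt D.o) + (red (D.sec true Q)).count (D.nxt D.o) ≤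
      od (up rk (D.nxt (D.nxt D.o))) (D.nxt (D.nxt D.o)) false Q := by
  have h1 := count_red_le_od (D.nxt D.o) (D.sec false Q)
  have h2 := count_red_le_od (D.nxt D.o) (D.sec true Q)
  have h3 := od_child h Q false false false
  simp only [Bool.false_eq_true, if_false, if_true] at h3
  omega

end

end R4.Rl
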