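import Pool.Agent.Work.MP_e3f5d9_al_real48.RZ

/-!
# R4, real systems: the growth of the iterated monodromy group under the covering condition
-/

set_option autoImplicit false

open R4 R4.Rl PCF Polynomial

namespace RealB

/-- Intermediate growth for a real parameter, from the covering condition. -/
theorem ig_of_cov {c : ℝ} (hfin : (postCrit (qf c)).Finite) (h0 : ∀ n, 1 ≤ n → orb c n ≠ 0)
    (hc : c ≠ -2) (hcov : ∀ P, OD c P → Cov c P) (t : ℂ) (ht : t ∉ postCrit (qf c)) :
    IntermediateGrowth (IMG (qf c) t) := by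
  obtain ⟨P, hP, hpc, hmem⟩ := exists_RP c hfin h0
  have h : OD c P := ⟨hP, hmem⟩
  have ht' : t ∉ PC P := by rwa [← hpc]
  obtain ⟨e1⟩ := img_GG hP hpc t ht'
  obtain ⟨a0, ha0⟩ : ∃ a0 : ℝ, a0 ∉ P := P.finite_toSet.infinite_compl.nonempty
  obtain ⟨e2⟩ := GG_equiv hP a0 ha0
  have h1 : IntermediateGrowth (ks h.toRP).grp := growth_real (isReal h hc) (mixing h (hcov P h))
  exact ig_congr (e1.trans e2).symm h1

/-- The map `x ^ 2 + c` is topologically exact on `[c, c ^ 2 + c]`: the iterated images of every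
non-degenerate subinterval finally cover everything. -/
def Exact (c : ℝ) : Prop :=
  ∀ u v : ℝ, c ≤ u → u < v → v ≤ c ^ 2 + c → ∃ n, ∀ z, c ≤ z → z ≤ c ^ 2 + c →
    ∃ x, u ≤ x ∧ x ≤ v ∧ (fc c)^[n] x = z

lemma cov_of_exact {c : ℝ} (hex : Exact c) (P : Finset ℝ) (h : OD c P) : Cov c P :=
  fun u hu v hv huv => hex u v (h.mem_core hu).1 huv (h.mem_core hv).2

/-- The version for topologically exact maps. -/
theorem ig_iff_of_exact {c : ℝ} (hfin : (postCrit (qf c)).Finite)
    (h0 : ∀ n, 1 ≤ n → orb c n ≠ 0) (hex : Exact c) (t : ℂ) (ht : t ∉ postCrit (qf c)) :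
    IntermediateGrowth (IMG (qf c) t) ↔ c ≠ -2 := by
  constructor
  · rintro h rfl
    exact not_ig_neg_two ht h
  · intro hc
    exact ig_of_cov hfin h0 hc (cov_of_exact hex) t ht

end RealB
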