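import Pool.Agent.Work.MP_e3f5d9_al_real48.RF

/-!
# R4, real systems, part G: the letters `o` and `nxt e` alternate up to the errors
-/

set_option autoImplicit false
set_option linter.unusedSectionVars false

open Finset

namespace R4.Rl

variable {L : Type} [Fintype L] [DecidableEq L]

/-- Equal neighbours in the projection to `{o, u}`, with the state: `0` at the beginning, `1`
after `o`, `2` after `u`. -/
def vp (o u : L) : ℕ → List L → ℕ
  | _, [] => 0
  | s, x :: w => if x = o then (if s = 1 then 1 else 0) + vp o u 1 w
      else if x = u then (if s = 2 then 1 else 0) + vp o u 2 w else vp o u s w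

/-- Equal neighbours `u u`, with a flag. -/
def vl (u : L) : Bool → List L → ℕ
  | _, [] => 0
  | l, x :: w => if x = u then (if l then 1 else 0) + vl u true w else vl u false w

lemma vl_le (u : L) (w : List L) : vl u false w ≤ viol w ∧ vl u true w ≤ viol (u :: w) := by
  induction w with
  | nil => simp [vl, viol]
  | cons x w ih =>
    obtain ⟨h1, h2⟩ := ih
    have h3 := (viol_cons_le x w).1
    have h4 := (viol_cons_le u (x :: w)).1
    by_cases h : x = u
    · subst h
      have e : viol (x :: x :: w) = 1 + viol (x :: w) := by simp [viol]
      simp only [vl, if_true, Bool.false_eq_true, if_false]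
      omega
    · simp only [vl, h, if_false]
      omega

section

variable (rk : L → ℕ) (o u : L)

/-- Left hand side. -/
def lG (s : ℕ) (b π m : Bool) (w : List L) : ℕ :=
  vp o u s w + 2 * bk {o} (up rk u) b w + 2 * od (up rk u) u π w + 2 * bk (dn rk u) (upp rk u) m w

/-- Right hand side. -/
def rG (r ρ l : Bool) (w : List L) : ℕ :=
  w.count o + 3 * runsAux (up rk u) r w + 2 * runsAux (upp rk u) ρ w + 2 * vl u l w

lemma G_aux (hou : rk o < rk u) (hinj : ∀ i, rk i = rk u → i = u) (w : List L) :
    lG rk o u 0 false false false w ≤ rG rk o u false false false w + 1 ∧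
    lG rk o u 0 true false false w ≤ rG rk o u false false false w ∧
    lG rk o u 0 true false true w ≤ rG rk o u true true false w + 2 ∧
    lG rk o u 1 false false false w ≤ rG rk o u false false false w + 1 ∧
    lG rk o u 1 true false false w ≤ rG rk o u false false false w + 1 ∧
    lG rk o u 1 true false true w ≤ rG rk o u true true false w + 2 ∧
    lG rk o u 2 true false false w ≤ rG rk o u false false false w ∧
    lG rk o u 2 true false false w ≤ rG rk o u true false true w + 3 ∧
    lG rk o u 2 true false true w ≤ rG rk o u true false true w + 1 ∧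
    lG rk o u 2 true false true w ≤ rG rk o u true true false w + 3 ∧
    lG rk o u 2 true true false w ≤ rG rk o u true false true w + 2 ∧
    lG rk o u 2 true true true w ≤ rG rk o u true false true w + 2 ∧
    lG rk o u 2 true true true w ≤ rG rk o u true true false w + 2 := by
  have hne : u ≠ o := by intro hh; rw [hh] at hou; exact lt_irrefl _ hou
  have hne' : o ≠ u := hne.symm
  induction w with
  | nil => simp [lG, rG, vp, bk, od, runsAux, vl]
  | cons x w ih =>
    simp only [lG, rG] at ih ⊢
    rcases lt_trichotomy (rk x) (rk u) with h1 | h1 | h1
    · have m1 : x ∉ up rk u := by rw [mem_up]; omega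
      have m2 : x ∉ upp rk u := by rw [mem_upp]; omega
      have m3 : x ∈ dn rk u := by rw [mem_dn]; omega
      have m4 : x ≠ u := by intro hh; rw [hh] at h1; exact lt_irrefl _ h1
      by_cases hxo : x = o
      · subst hxo
        simp only [vp, bk, od, runsAux, vl, m1, m2, m3, m4, Finset.mem_singleton, if_true, if_false,
          List.count_cons_self, OfNat.ofNat_ne_one, zero_ne_one, OfNat.zero_ne_ofNat,
          Bool.false_eq_true]
        omega
      · simp only [vp, bk, od, runsAux, vl, m1, m2, m3, m4, hxo, Finset.mem_singleton, if_true,
          if_false, List.count_cons_of_ne hxo, Bool.false_eq_true]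
        omega
    · have hxu : x = u := hinj x h1
      subst hxu
      have m1 : x ∈ up rk x := by rw [mem_up]
      have m2 : x ∉ upp rk x := by rw [mem_upp]; omega
      have m3 : x ∉ dn rk x := by rw [mem_dn]; omega
      simp only [vp, bk, od, runsAux, vl, m1, m2, m3, hne, Finset.mem_singleton, if_true,
        if_false, List.count_cons_of_ne hne, Bool.false_eq_true, Bool.not_true, Bool.not_false,
        OfNat.one_ne_ofNat, OfNat.zero_ne_ofNat]
      omega
    · have m1 : x ∈ up rk u := by rw [mem_up]; omega
      have m2 : x ∈ upp rk u := by rw [mem_upp]; omega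
      have m3 : x ∉ dn rk u := by rw [mem_dn]; omega
      have m4 : x ≠ u := by intro hh; rw [hh] at h1; exact lt_irrefl _ h1
      have m5 : x ≠ o := by intro hh; rw [hh] at h1; omega
      simp only [vp, bk, od, runsAux, vl, m1, m2, m4, m5, if_true,
          if_false, List.count_cons_of_ne m5, Bool.false_eq_true]
      omega

/-- The alternation of `o` and `u` up to the errors. -/
lemma G_le (hou : rk o < rk u) (hinj : ∀ i, rk i = rk u → i = u) (w : List L) :
    vp o u 0 w + 2 * blk {o} (up rk u) w + 2 * od (up rk u) u false w +
      2 * blk (dn rk u) (upp rk u) w ≤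
    w.count o + 3 * runs (up rk u) w + 2 * runs (upp rk u) w + 2 * viol w + 1 := by
  have h1 := (G_aux rk o u hou hinj w).1
  have h2 := (vl_le u w).1
  simp only [lG, rG] at h1
  rw [blk_eq, blk_eq]
  unfold runs
  omega

/-- The number of letters `u`. -/
lemma count_u_le (hne : o ≠ u) (w : List L) : w.count u ≤ w.count o + vp o u 0 w + 1 ∧
    w.count u ≤ w.count o + vp o u 1 w + 1 ∧ w.count u ≤ w.count o + vp o u 2 w := by
  induction w with
  | nil => simp [vp]
  | cons x w ih =>
    obtain ⟨h1, h2, h3⟩ := ih
    by_cases hxo : x = o
    · subst hxo
      simp only [vp, if_true, List.count_cons_self, List.count_cons_of_ne hne, zero_ne_one,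
        OfNat.ofNat_ne_one, if_false]
      omega
    · by_cases hxu : x = u
      · subst hxu
        simp only [vp, hxo, if_true, List.count_cons_self, List.count_cons_of_ne hxo,
          OfNat.one_ne_ofNat, OfNat.zero_ne_ofNat, if_false]
        omega
      · simp only [vp, hxo, hxu, List.count_cons_of_ne hxo, List.count_cons_of_ne hxu, if_false]
        omega

lemma vp_append_state (A B : List L) : ∀ s : ℕ, vp o u s A + vp o u 0 B ≤ vp o u s (A ++ B) := by
  have key : ∀ (w : List L) (s : ℕ), vp o u 0 w ≤ vp o u s w := by
    intro w
    induction w with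
    | nil => intro s; simp [vp]
    | cons y w ih =>
      intro s
      by_cases hyo : y = o
      · simp [vp, hyo]
      · by_cases hyu : y = u
        · subst hyu
          simp [vp, hyo]
        · simpa [vp, hyo, hyu] using ih s
  induction A with
  | nil => intro s; simpa [vp] using key B s
  | cons x A ih =>
    intro s
    by_cases hxo : x = o
    · have := ih 1
      simp only [List.cons_append, vp, hxo, if_true]
      omega
    · by_cases hxu : x = u
      · subst hxu
        have := ih 2
        simp only [List.cons_append, vp, hxo, if_true, if_false]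
        omega
      · have := ih s
        simpa [List.cons_append, vp, hxo, hxu] using this

/-- Superadditivity. -/
lemma vp_append (A B : List L) : vp o u 0 A + vp o u 0 B ≤ vp o u 0 (A ++ B) :=
  vp_append_state o u A B 0

end

end R4.Rl
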