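import Pool.Agent.Work.MP_e3f5d9_al_real48.RG

/-!
# R4, real systems, part H: adjacent equal letters of the children
-/

set_option autoImplicit false
set_option linter.unusedSectionVars false

open Finset

namespace R4.Rl

variable {L : Type} [Fintype L] [DecidableEq L] {D : KS L} {rk : L → ℕ}

lemma length_sec_inc {b : Bool} {A : List L} (hA : Inc D rk A) :
    (D.sec b A).length ≤ Fintype.card L :=
  (length_sec_le b A).trans (length_inc hA)

lemma length_sec_dec {b : Bool} {A : List L} (hA : Dec D rk A) :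
    (D.sec b A).length ≤ Fintype.card L :=
  (length_sec_le b A).trans (length_dec hA)

/-- The computation of `child_core` when the letter `nxt e` appears once in every round. -/
lemma child_coreG (h : IsReal D rk) : ∀ (n : ℕ) (a b : ℕ → List L), GR D rk a b (n + 1) →
    (∀ t, t < n + 1 → (D.nxt (D.nxt D.o) ∈ a t ↔ D.nxt (D.nxt D.o) ∉ b t)) →
    ∃ post, D.o :: (D.sec true (b 0) ++
        D.sec true (wd D (fun t => a (t + 1)) (fun t => b (t + 1)) n ++ [D.o])) =
      wd D (chA D a b 0) (chB D a b 0) (n / 2) ++ D.o :: post ∧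
      post.length ≤ 3 * Fintype.card L := by
  intro n
  induction n using Nat.twoStepInduction with
  | zero =>
    intro a b hG _
    refine ⟨D.sec true (b 0), ?_, ?_⟩
    · simp [wd, KS.sec]
    · have := length_sec_dec (b := true) (hG 0 (by omega)).2
      omega
  | one =>
    intro a b hG _
    have h1 := (hG 0 (by omega)).2
    have h2 := (hG 1 (by omega))
    refine ⟨D.sec true (b 0) ++ (D.sec false (a 1) ++ D.sec false (b 1)), ?_, ?_⟩
    · have e1 : wd D (fun t => a (t + 1)) (fun t => b (t + 1)) 1 ++ [D.o] =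
          D.o :: (a 1 ++ (D.nxt D.o :: (b 1 ++ [D.o]))) := by simp [wd]
      rw [e1, sec_cons_o, Bool.not_true, sec_no_o false h2.1.no_o, sec_false_e h,
        sec_no_o false h2.2.no_o, sec_cons_o]
      simp [wd, KS.sec]
    · have g1 := length_sec_dec (b := true) h1
      have g2 := length_sec_inc (b := false) h2.1
      have g3 := length_sec_dec (b := false) h2.2
      simp only [List.length_append]
      omega
  | more n ih _ =>
    intro a b hG hu
    have g0 := (hG 0 (by omega))
    have g1 := (hG 1 (by omega))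
    have g2 := (hG 2 (by omega))
    set W := D.sec true (wd D (fun t => a (t + 3)) (fun t => b (t + 3)) n ++ [D.o]) with hW
    have e1 : wd D (fun t => a (t + 1)) (fun t => b (t + 1)) (n + 2) ++ [D.o] =
        D.o :: (a 1 ++ (D.nxt D.o :: (b 1 ++ (D.o :: (a 2 ++ (D.nxt D.o :: (b 2 ++
          (wd D (fun t => a (t + 3)) (fun t => b (t + 3)) n ++ [D.o])))))))) := by
      simp [wd]
    have e2 : D.sec true (wd D (fun t => a (t + 1)) (fun t => b (t + 1)) (n + 2) ++ [D.o]) =
        D.sec false (a 1) ++ (D.sec false (b 1) ++ (D.sec true (a 2) ++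
          (D.o :: (D.sec true (b 2) ++ W)))) := by
      rw [e1, sec_cons_o, Bool.not_true, sec_no_o false g1.1.no_o, sec_false_e h,
        sec_no_o false g1.2.no_o, sec_cons_o, Bool.not_false, sec_no_o true g2.1.no_o,
        sec_true_e h, sec_no_o true g2.2.no_o]
    have s1 := split_inc h (D.sec false (a 1)) (by
      have := (pairwise_sec h g1.1.no_o false).1 g1.1.1
      simpa using this)
    have s2 := split_dec h (D.sec false (b 1)) (by
      have := (pairwise_sec h g1.2.no_o false).2 g1.2.1
      simpa using this)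
    rw [e2]
    set R := D.sec true (b 0) ++ (D.sec false (a 1) ++ (D.sec false (b 1) ++ D.sec true (a 2)))
      with hR
    have e4 : D.o :: (D.sec true (b 0) ++ (D.sec false (a 1) ++ (D.sec false (b 1) ++
        (D.sec true (a 2) ++ (D.o :: (D.sec true (b 2) ++ W)))))) =
        (D.o :: R) ++ (D.o :: (D.sec true (b 2) ++ W)) := by
      rw [hR]; simp
    have hone := hu 1 (by omega)
    have hRe : R = chA D a b 0 0 ++ D.nxt D.o :: chB D a b 0 0 := by
      have m1 := e_mem_sec h g1.1.no_o
      have m2 := e_mem_sec h g1.2.no_o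
      rw [hR]
      conv_lhs => rw [s1, s2]
      simp only [m1, m2]
      unfold chA chB
      by_cases q1 : D.nxt (D.nxt D.o) ∈ a 1
      · have q2 := hone.1 q1
        simp [q1, q2]
      · have q2 : D.nxt (D.nxt D.o) ∈ b 1 := by
          by_contra q3; exact q1 (hone.2 q3)
        simp [q1, q2]
    obtain ⟨post, i1, i2⟩ := ih (fun t => a (t + 2)) (fun t => b (t + 2))
      (fun t ht => hG (t + 2) (by omega)) (fun t ht => hu (t + 2) (by omega))
    refine ⟨post, ?_, i2⟩
    have i1' : D.o :: (D.sec true (b 2) ++ W) =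
        wd D (chA D (fun t => a (t + 2)) (fun t => b (t + 2)) 0)
          (chB D (fun t => a (t + 2)) (fun t => b (t + 2)) 0) (n / 2) ++ D.o :: post := i1
    have e5 : (n + 2) / 2 = n / 2 + 1 := by omega
    have e6 : (fun v => chA D a b 0 (v + 1)) =
        chA D (fun t => a (t + 2)) (fun t => b (t + 2)) 0 := by
      funext v
      unfold chA
      congr 3
    have e7 : (fun v => chB D a b 0 (v + 1)) =
        chB D (fun t => a (t + 2)) (fun t => b (t + 2)) 0 := by
      funext v
      unfold chB
      congr 3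
    rw [e4, i1', e5]
    show (D.o :: R) ++ _ = (D.o :: (chA D a b 0 0 ++ D.nxt D.o :: (chB D a b 0 0 ++
      wd D (fun v => chA D a b 0 (v + 1)) (fun v => chB D a b 0 (v + 1)) (n / 2)))) ++
        D.o :: post
    rw [e6, e7, hRe]
    simp

/-- The rounds of the children when the letter `nxt e` appears once in every round. -/
lemma childG (h : IsReal D rk) (s : Bool) (a b : ℕ → List L) (N ρ : ℕ)
    (hρ : ρ = if s then 1 else 0) (hN : ρ + 1 ≤ N) (hG : GR D rk a b N)
    (hu : ∀ t, t < N → (D.nxt (D.nxt D.o) ∈ a t ↔ D.nxt (D.nxt D.o) ∉ b t)) :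
    ∃ pre post, D.sec s (wd D a b N ++ [D.o]) =
        pre ++ (wd D (chA D a b ρ) (chB D a b ρ) ((N - 1 - ρ) / 2) ++ D.o :: post) ∧
      pre.length ≤ 3 * Fintype.card L ∧ post.length ≤ 3 * Fintype.card L := by
  cases s with
  | false =>
    have hρ0 : ρ = 0 := by simpa using hρ
    subst hρ0
    obtain ⟨n, rfl⟩ : ∃ n, N = n + 1 := ⟨N - 1, by omega⟩
    have g0 := hG 0 (by omega)
    have e1 : wd D a b (n + 1) ++ [D.o] = D.o :: (a 0 ++ (D.nxt D.o :: (b 0 ++
        (wd D (fun t => a (t + 1)) (fun t => b (t + 1)) n ++ [D.o])))) := by simp [wd]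
    have e2 : D.sec false (wd D a b (n + 1) ++ [D.o]) = D.sec true (a 0) ++ (D.o ::
        (D.sec true (b 0) ++
          D.sec true (wd D (fun t => a (t + 1)) (fun t => b (t + 1)) n ++ [D.o]))) := by
      rw [e1, sec_cons_o, Bool.not_false, sec_no_o true g0.1.no_o, sec_true_e h,
        sec_no_o true g0.2.no_o]
    rw [e2]
    obtain ⟨post, i1, i2⟩ := child_coreG h n a b hG hu
    refine ⟨D.sec true (a 0), post, ?_, ?_, i2⟩
    · rw [i1]
      simp
    · have := length_sec_inc (b := true) g0.1
      omega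
  | true =>
    have hρ1 : ρ = 1 := by simpa using hρ
    subst hρ1
    obtain ⟨n, rfl⟩ : ∃ n, N = n + 2 := ⟨N - 2, by omega⟩
    have g0 := hG 0 (by omega)
    have g1 := hG 1 (by omega)
    have e1 : wd D a b (n + 2) ++ [D.o] = D.o :: (a 0 ++ (D.nxt D.o :: (b 0 ++
        (D.o :: (a 1 ++ (D.nxt D.o :: (b 1 ++
        (wd D (fun t => a (t + 2)) (fun t => b (t + 2)) n ++ [D.o])))))))) := by
      simp [wd]
    have e2 : D.sec true (wd D a b (n + 2) ++ [D.o]) =
        (D.sec false (a 0) ++ (D.sec false (b 0) ++ D.sec true (a 1))) ++ (D.o ::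
        (D.sec true (b 1) ++
          D.sec true (wd D (fun t => a (t + 2)) (fun t => b (t + 2)) n ++ [D.o]))) := by
      rw [e1, sec_cons_o, Bool.not_true, sec_no_o false g0.1.no_o, sec_false_e h,
        sec_no_o false g0.2.no_o, sec_cons_o, Bool.not_false, sec_no_o true g1.1.no_o,
        sec_true_e h, sec_no_o true g1.2.no_o]
      simp
    rw [e2]
    obtain ⟨post, i1, i2⟩ := child_coreG h n (fun t => a (t + 1)) (fun t => b (t + 1))
      (fun t ht => hG (t + 1) (by omega)) (fun t ht => hu (t + 1) (by omega))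
    refine ⟨D.sec false (a 0) ++ (D.sec false (b 0) ++ D.sec true (a 1)), post, ?_, ?_, i2⟩
    · have e3 : (n + 2 - 1 - 1) / 2 = n / 2 := by omega
      have e4 : chA D a b 1 = chA D (fun t => a (t + 1)) (fun t => b (t + 1)) 0 := by
        funext v; rfl
      have e5 : chB D a b 1 = chB D (fun t => a (t + 1)) (fun t => b (t + 1)) 0 := by
        funext v; rfl
      rw [e3, e4, e5]
      congr 1
    · have f1 := length_sec_inc (b := false) g0.1
      have f2 := length_sec_dec (b := false) g0.2
      have f3 := length_sec_inc (b := true) g1.1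
      simp only [List.length_append]
      omega

/-! ### The projection to `{o, nxt e}` -/

lemma vp_block (o u : L) : ∀ (A : List L) (s : ℕ) (Y : List L), A.Nodup → o ∉ A →
    vp o u s (A ++ Y) = if u ∈ A then (if s = 2 then 1 else 0) + vp o u 2 Y else vp o u s Y := by
  intro A
  induction A with
  | nil => intro s Y _ _; simp
  | cons x A ih =>
    intro s Y hnd ho
    have hxo : x ≠ o := fun hh => ho (by simp [hh])
    have hoA : o ∉ A := fun hh => ho (by simp [hh])
    obtain ⟨h1, h2⟩ := List.nodup_cons.1 hnd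
    by_cases hxu : x = u
    · subst hxu
      simp only [List.cons_append, vp, hxo, if_true, if_false, List.mem_cons, true_or]
      rw [ih 2 Y h2 hoA, if_neg h1]
    · have hux : u ≠ x := fun hh => hxu hh.symm
      simp only [List.cons_append, vp, hxo, hxu, if_false, List.mem_cons, hux, false_or]
      exact ih s Y h2 hoA

lemma nodup_inc {A : List L} (h : Inc D rk A) : A.Nodup :=
  h.1.imp (fun {a b} hab hh => by subst hh; exact lt_irrefl _ hab)

lemma nodup_dec {A : List L} (h : Dec D rk A) : A.Nodup :=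
  h.1.imp (fun {a b} hab hh => by subst hh; exact lt_irrefl _ hab)

lemma wd_head (a b : ℕ → List L) (N : ℕ) (post : List L) :
    ∃ rest, wd D a b N ++ D.o :: post = D.o :: rest := by
  cases N with
  | zero => exact ⟨post, rfl⟩
  | succ N => exact ⟨_, rfl⟩

lemma one_of_vp (h : IsReal D rk) : ∀ (N : ℕ) (a b : ℕ → List L) (s : ℕ), GR D rk a b N →
    vp D.o (D.nxt (D.nxt D.o)) s (wd D a b N ++ [D.o]) = 0 →
    ∀ t, t < N → (D.nxt (D.nxt D.o) ∈ a t ↔ D.nxt (D.nxt D.o) ∉ b t) := by
  intro N
  induction N with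
  | zero => intro a b s _ _ t ht; omega
  | succ N ih =>
    intro a b s hG hv t ht
    have g0 := hG 0 (by omega)
    have hue : D.nxt D.o ≠ D.nxt (D.nxt D.o) := fun hh => h.ne hh.symm
    have heo : D.nxt D.o ≠ D.o := D.nxt_ne _
    have e1 : wd D a b (N + 1) ++ [D.o] = D.o :: (a 0 ++ (D.nxt D.o :: (b 0 ++
        (wd D (fun t => a (t + 1)) (fun t => b (t + 1)) N ++ [D.o])))) := by simp [wd]
    rw [e1] at hv
    have hv1 : vp D.o (D.nxt (D.nxt D.o)) 1 (a 0 ++ (D.nxt D.o :: (b 0 ++
        (wd D (fun t => a (t + 1)) (fun t => b (t + 1)) N ++ [D.o])))) = 0 := by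
      simp only [vp, if_true] at hv
      omega
    have e2 : ∀ (s : ℕ) (Y : List L), vp D.o (D.nxt (D.nxt D.o)) s (D.nxt D.o :: Y) =
        vp D.o (D.nxt (D.nxt D.o)) s Y := by
      intro s Y; simp only [vp, heo, hue, if_false]
    obtain ⟨rest, hrest⟩ := wd_head (D := D) (fun t => a (t + 1)) (fun t => b (t + 1)) N []
    rw [hrest] at hv1
    rw [vp_block _ _ _ _ _ (nodup_inc g0.1) g0.1.no_o] at hv1
    have key : (D.nxt (D.nxt D.o) ∈ a 0 ↔ D.nxt (D.nxt D.o) ∉ b 0) ∧
        vp D.o (D.nxt (D.nxt D.o)) 2 (D.o :: rest) = 0 := by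
      by_cases q1 : D.nxt (D.nxt D.o) ∈ a 0
      · rw [if_pos q1, e2, vp_block _ _ _ _ _ (nodup_dec g0.2) g0.2.no_o] at hv1
        by_cases q2 : D.nxt (D.nxt D.o) ∈ b 0
        · rw [if_pos q2] at hv1
          simp at hv1
        · rw [if_neg q2] at hv1
          exact ⟨by simp [q1, q2], by simpa using hv1⟩
      · rw [if_neg q1, e2, vp_block _ _ _ _ _ (nodup_dec g0.2) g0.2.no_o] at hv1
        by_cases q2 : D.nxt (D.nxt D.o) ∈ b 0
        · rw [if_pos q2] at hv1
          exact ⟨by simp [q1, q2], by simpa using hv1⟩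
        · rw [if_neg q2] at hv1
          exfalso
          simp only [vp, if_true] at hv1
          omega
    rw [← hrest] at key
    rcases t with _ | t
    · exact key.1
    · exact ih _ _ 2 (fun t ht => hG (t + 1) (by omega)) key.2 t (by omega)

/-! ### Adjacent letters -/

lemma adj_le_length (i : L) (w : List L) : adj i w ≤ w.length := by
  induction w with
  | nil => simp [adj]
  | cons x w ih =>
    rcases w with _ | ⟨y, t⟩
    · simp [adj]
    · simp only [adj, List.length_cons] at ih ⊢
      split_ifs <;> omega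

lemma adj_fl_le (o e i : L) (w : List L) : adj i (fl o e i w) ≤ w.length :=
  (adj_le_length i _).trans (List.length_filter_le _ _)

lemma fl_block (o e i : L) (hio : i ≠ o) (hie : i ≠ e) : ∀ (A : List L), A.Nodup → o ∉ A → e ∉ A →
    fl o e i A = if i ∈ A then [i] else [] := by
  intro A
  induction A with
  | nil => intro _ _ _; simp [fl]
  | cons x A ih =>
    intro hnd ho he
    have hxo : x ≠ o := fun hh => ho (by simp [hh])
    have hoA : o ∉ A := fun hh => ho (by simp [hh])
    have hxe : x ≠ e := fun hh => he (by simp [hh])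
    have heA : e ∉ A := fun hh => he (by simp [hh])
    obtain ⟨h1, h2⟩ := List.nodup_cons.1 hnd
    have ih' := ih h2 hoA heA
    by_cases hxi : x = i
    · subst hxi
      have e1 : fl o e x (x :: A) = x :: fl o e x A := by simp [fl]
      rw [e1, ih', if_neg h1]
      simp
    · have hix : i ≠ x := fun hh => hxi hh.symm
      have e1 : fl o e i (x :: A) = fl o e i A := by simp [fl, hxo, hxe, hxi]
      rw [e1, ih']
      simp [hix]

/-- In a word made of good rounds no letter is adjacent to itself. -/
lemma adj_wd (i : L) (hio : i ≠ D.o) (hie : i ≠ D.nxt D.o) (post : List L) :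
    ∀ (N : ℕ) (a b : ℕ → List L), GR D rk a b N →
    adj i (fl D.o (D.nxt D.o) i (wd D a b N ++ D.o :: post)) ≤
      adj i (fl D.o (D.nxt D.o) i (D.o :: post)) := by
  intro N
  induction N with
  | zero => intro a b _; exact le_rfl
  | succ N ih =>
    intro a b hG
    have g0 := hG 0 (by omega)
    have ih' := ih (fun t => a (t + 1)) (fun t => b (t + 1)) (fun t ht => hG (t + 1) (by omega))
    obtain ⟨rest, hrest⟩ := wd_head (D := D) (fun t => a (t + 1)) (fun t => b (t + 1)) N post
    have e1 : wd D a b (N + 1) ++ D.o :: post = D.o :: (a 0 ++ (D.nxt D.o :: (b 0 ++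
        (wd D (fun t => a (t + 1)) (fun t => b (t + 1)) N ++ D.o :: post)))) := by simp [wd]
    rw [e1]
    refine le_trans (le_of_eq ?_) ih'
    rw [hrest]
    have f1 : ∀ Y, fl D.o (D.nxt D.o) i (D.o :: Y) = D.o :: fl D.o (D.nxt D.o) i Y := by
      intro Y; simp [fl]
    have f2 : ∀ Y, fl D.o (D.nxt D.o) i (D.nxt D.o :: Y) = D.nxt D.o :: fl D.o (D.nxt D.o) i Y := by
      intro Y; simp [fl]
    rw [f1, fl_append, f2, fl_append, f1,
      fl_block _ _ i hio hie _ (nodup_inc g0.1) g0.1.no_o g0.1.no_e,
      fl_block _ _ i hio hie _ (nodup_dec g0.2) g0.2.no_o g0.2.no_e]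
    have hoi : D.o ≠ i := hio.symm
    have hei : D.nxt D.o ≠ i := hie.symm
    by_cases q1 : i ∈ a 0 <;> by_cases q2 : i ∈ b 0 <;>
      simp [q1, q2, adj, hoi, hei]

/-- Adjacent equal letters in the children of an error free word. -/
lemma adj_piece (h : IsReal D rk) (i : L) (hio : i ≠ D.o) (hie : i ≠ D.nxt D.o) {p : List L}
    (hF : F rk D.o (D.nxt D.o) p = 0) (hv : vp D.o (D.nxt (D.nxt D.o)) 0 p = 0) (s : Bool) :
    adj i (fl D.o (D.nxt D.o) i (D.sec s p)) ≤ 10 * Fintype.card L + 20 := by
  by_cases ho : D.o ∈ p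
  · obtain ⟨a, b, N, pre, post, e1, hG, k1, k2⟩ := rounds_of_F' h hF ho
    have e2 : p = pre ++ ((wd D a b N ++ [D.o]) ++ post) := by rw [e1]; simp
    have hF2 : F rk D.o (D.nxt D.o) (pre ++ ((wd D a b N ++ [D.o]) ++ post)) = 0 := by
      rw [← e2]; exact hF
    have l1 := length_of_no_o h k1 (suffix_F hF2).1
    have l2 := length_of_no_o h k2 (suffix_F (suffix_F hF2).2).2
    have hv2 : vp D.o (D.nxt (D.nxt D.o)) 0 (wd D a b N ++ [D.o]) = 0 := by
      have q1 := vp_append D.o (D.nxt (D.nxt D.o)) pre ((wd D a b N ++ [D.o]) ++ post)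
      have q2 := vp_append D.o (D.nxt (D.nxt D.o)) (wd D a b N ++ [D.o]) post
      rw [← e2] at q1
      omega
    have hu := one_of_vp h N a b 0 hG hv2
    set s1 : Bool := xor s (decide (Odd (pre.count D.o))) with hs1
    set s2 : Bool := xor s1 (decide (Odd ((wd D a b N ++ [D.o]).count D.o))) with hs2
    have e4 : D.sec s p = D.sec s pre ++ (D.sec s1 (wd D a b N ++ [D.o]) ++ D.sec s2 post) := by
      rw [e2, (b1 D).sec_append, (b1 D).sec_append, ← hs1, ← hs2]
    have m1 := adj_append i (fl D.o (D.nxt D.o) i (D.sec s pre))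
      (fl D.o (D.nxt D.o) i (D.sec s1 (wd D a b N ++ [D.o]) ++ D.sec s2 post))
    have m2 := adj_append i (fl D.o (D.nxt D.o) i (D.sec s1 (wd D a b N ++ [D.o])))
      (fl D.o (D.nxt D.o) i (D.sec s2 post))
    rw [← fl_append] at m1 m2
    have m3 := adj_fl_le D.o (D.nxt D.o) i (D.sec s pre)
    have m4 := adj_fl_le D.o (D.nxt D.o) i (D.sec s2 post)
    have m5 := length_sec_le (D := D) s pre
    have m6 := length_sec_le (D := D) s2 post
    have main : adj i (fl D.o (D.nxt D.o) i (D.sec s1 (wd D a b N ++ [D.o]))) ≤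
        6 * Fintype.card L + 4 := by
      set ρ : ℕ := if s1 then 1 else 0 with hρ
      have hρ1 : ρ ≤ 1 := by rw [hρ]; split_ifs <;> omega
      by_cases hN : ρ + 1 ≤ N
      · obtain ⟨pre1, post1, e5, n1, n2⟩ := childG h s1 a b N ρ hρ hN hG hu
        rw [e5, fl_append]
        have n3 := adj_append i (fl D.o (D.nxt D.o) i pre1) (fl D.o (D.nxt D.o) i
          (wd D (chA D a b ρ) (chB D a b ρ) ((N - 1 - ρ) / 2) ++ D.o :: post1))
        have n4 := adj_wd i hio hie post1 _ _ _ (GR_child h (ρ := ρ) hG)
        have n5 := adj_fl_le D.o (D.nxt D.o) i pre1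
        have n6 := adj_fl_le D.o (D.nxt D.o) i (D.o :: post1)
        simp only [List.length_cons] at n6
        omega
      · have q1 := adj_fl_le D.o (D.nxt D.o) i (D.sec s1 (wd D a b N ++ [D.o]))
        have q2 := length_sec_le (D := D) s1 (wd D a b N ++ [D.o])
        have q3 : (wd D a b N).length ≤ 2 * Fintype.card L + 2 := by
          have : N ≤ 1 := by omega
          interval_cases N
          · simp [wd]
          · have g := hG 0 (by omega)
            have g1 := length_inc g.1
            have g2 := length_dec g.2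
            simp only [wd, List.length_cons, List.length_append, List.length_nil]
            omega
        simp only [List.length_append, List.length_cons, List.length_nil] at q2
        omega
    rw [e4]
    omega
  · have := length_of_no_o h ho hF
    have q1 := adj_fl_le D.o (D.nxt D.o) i (D.sec s p)
    have q2 := length_sec_le (D := D) s p
    omega

/-- Adjacent equal letters in the children of a word. -/
lemma adj_all (h : IsReal D rk) (i : L) (hio : i ≠ D.o) (hie : i ≠ D.nxt D.o) (Q : List L) :
    adj i (fl D.o (D.nxt D.o) i (D.sec false Q)) + adj i (fl D.o (D.nxt D.o) i (D.sec true Q)) ≤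
      (20 * Fintype.card L + 42) *
        (2 * (F rk D.o (D.nxt D.o) Q + vp D.o (D.nxt (D.nxt D.o)) 0 Q) + 1) := by
  obtain ⟨ps, h1, h2, h3⟩ := cut (fun Q => F rk D.o (D.nxt D.o) Q + vp D.o (D.nxt (D.nxt D.o)) 0 Q)
    (by simp [vp]) (by intro x; simp [vp]) (by
      intro A B
      have q1 := (F_append rk D.o (D.nxt D.o) A B).1
      have q2 := vp_append D.o (D.nxt (D.nxt D.o)) A B
      omega) Q
  have h4 := flatten_le (fun Q => adj i (fl D.o (D.nxt D.o) i (D.sec false Q)) +
    adj i (fl D.o (D.nxt D.o) i (D.sec true Q))) 2 (2 * (10 * Fintype.card L + 20))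
    (by simp [KS.sec, fl, adj]) (by
      intro A B
      have g1 : ∀ b, adj i (fl D.o (D.nxt D.o) i (D.sec b (A ++ B))) ≤
          adj i (fl D.o (D.nxt D.o) i (D.sec b A)) +
          adj i (fl D.o (D.nxt D.o) i (D.sec (xor b (decide (Odd (A.count D.o)))) B)) + 1 := by
        intro b
        rw [(b1 D).sec_append, fl_append]
        exact (adj_append i _ _).2
      have g2 := g1 false
      have g3 := g1 true
      cases hp : decide (Odd (A.count D.o)) <;> rw [hp] at g2 g3 <;>
        simp only [Bool.xor_false, Bool.xor_true, Bool.not_false, Bool.not_true] at g2 g3 ⊢ <;>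
        omega) ps (by
      intro p hp
      have h5 := h2 p hp
      have h6 := adj_piece h i hio hie (p := p) (by omega) (by omega) false
      have h7 := adj_piece h i hio hie (p := p) (by omega) (by omega) true
      omega)
  rw [h1] at h4
  refine h4.trans ?_
  have e : 2 * (10 * Fintype.card L + 20) + 2 = 20 * Fintype.card L + 42 := by ring
  rw [e]
  exact Nat.mul_le_mul_left _ h3

end R4.Rl
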