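import Pool.Agent.Work.MP_e3f5d9_al_real48.RH
import Pool.Agent.Work.MP_e3f5d9_al.Main

/-!
# R4, real systems, part I: error control in the window
-/

set_option autoImplicit false
set_option linter.unusedSectionVars false

open Finset

namespace R4.Rl

variable {L : Type} [Fintype L] [DecidableEq L] {D : KS L} {rk : L → ℕ} {E : Finset (Finset L)}

/-! ### Calculus of totals -/

/-- Total of `f` over the reduced sections of level `j`. -/
noncomputable def T (D : KS L) (f : List L → ℕ) (j : ℕ) (w : List L) : ℕ :=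
  D.tot (fun z => f (red z)) j w

/-- The total of `f` is at most `k M` up to the error. -/
def Hi (D : KS L) (E : Finset (Finset L)) (k : ℕ) (f : List L → ℕ) : Prop :=
  ∃ c d : ℕ, ∀ w j0 j1 M r, D.Win E w j0 j1 M r → 2 ^ (j1 + 1) ≤ r →
    ∀ j, j0 + d ≤ j → j + d ≤ j1 → T D f j w ≤ k * M + c * r

/-- The total of `f` is at least `k M` up to the error. -/
def Lw (D : KS L) (E : Finset (Finset L)) (k : ℕ) (f : List L → ℕ) : Prop :=
  ∃ c d : ℕ, ∀ w j0 j1 M r, D.Win E w j0 j1 M r → 2 ^ (j1 + 1) ≤ r →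
    ∀ j, j0 + d ≤ j → j + d ≤ j1 → k * M ≤ T D f j w + c * r

lemma T_mono {f g : List L → ℕ} (h : ∀ z, f (red z) ≤ g (red z)) (j : ℕ) (w : List L) :
    T D f j w ≤ T D g j w := (b3 D).tot_mono _ _ j w h

lemma T_add (f g : List L → ℕ) (j : ℕ) (w : List L) :
    T D (fun z => f z + g z) j w = T D f j w + T D g j w :=
  (b3 D).tot_add (fun z => f (red z)) (fun z => g (red z)) j w

lemma T_const (c j : ℕ) (w : List L) : T D (fun _ => c) j w = c * 2 ^ j :=
  (b3 D).tot_const c j w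

lemma T_smul (a : ℕ) (f : List L → ℕ) (j : ℕ) (w : List L) :
    T D (fun z => a * f z) j w = a * T D f j w :=
  B5Aux.tot_mul D (b3 D) a (fun z => f (red z)) j w

lemma Hi.of_le {k : ℕ} {f g : List L → ℕ} (h : ∀ z, f (red z) ≤ g (red z)) (hg : Hi D E k g) :
    Hi D E k f := by
  obtain ⟨c, d, hc⟩ := hg
  exact ⟨c, d, fun w j0 j1 M r hw hr j h0 h1 =>
    (T_mono h j w).trans (hc w j0 j1 M r hw hr j h0 h1)⟩

lemma Lw.of_le {k : ℕ} {f g : List L → ℕ} (h : ∀ z, f (red z) ≤ g (red z)) (hf : Lw D E k f) :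
    Lw D E k g := by
  obtain ⟨c, d, hc⟩ := hf
  refine ⟨c, d, fun w j0 j1 M r hw hr j h0 h1 => ?_⟩
  have h2 := hc w j0 j1 M r hw hr j h0 h1
  have h3 := T_mono (D := D) h j w
  omega

lemma Hi.add {k l : ℕ} {f g : List L → ℕ} (hf : Hi D E k f) (hg : Hi D E l g) :
    Hi D E (k + l) (fun z => f z + g z) := by
  obtain ⟨c, d, hc⟩ := hf
  obtain ⟨c', d', hc'⟩ := hg
  refine ⟨c + c', d + d', fun w j0 j1 M r hw hr j h0 h1 => ?_⟩
  have h2 := hc w j0 j1 M r hw hr j (by omega) (by omega)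
  have h3 := hc' w j0 j1 M r hw hr j (by omega) (by omega)
  rw [T_add]
  have e : (k + l) * M + (c + c') * r = (k * M + c * r) + (l * M + c' * r) := by ring
  omega

lemma Lw.add {k l : ℕ} {f g : List L → ℕ} (hf : Lw D E k f) (hg : Lw D E l g) :
    Lw D E (k + l) (fun z => f z + g z) := by
  obtain ⟨c, d, hc⟩ := hf
  obtain ⟨c', d', hc'⟩ := hg
  refine ⟨c + c', d + d', fun w j0 j1 M r hw hr j h0 h1 => ?_⟩
  have h2 := hc w j0 j1 M r hw hr j (by omega) (by omega)
  have h3 := hc' w j0 j1 M r hw hr j (by omega) (by omega)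
  rw [T_add]
  have e1 : (k + l) * M = k * M + l * M := by ring
  have e2 : (c + c') * r = c * r + c' * r := by ring
  omega

lemma Hi.const (a : ℕ) : Hi D E 0 (fun _ => a) := by
  refine ⟨a, 0, fun w j0 j1 M r hw hr j h0 h1 => ?_⟩
  rw [T_const]
  have : 2 ^ j ≤ r := le_trans (Nat.pow_le_pow_right (by norm_num) (by omega)) hr
  have := Nat.mul_le_mul_left a this
  omega

lemma Hi.smul {k : ℕ} (a : ℕ) {f : List L → ℕ} (hf : Hi D E k f) :
    Hi D E (a * k) (fun z => a * f z) := by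
  obtain ⟨c, d, hc⟩ := hf
  refine ⟨a * c, d, fun w j0 j1 M r hw hr j h0 h1 => ?_⟩
  have h2 := hc w j0 j1 M r hw hr j h0 h1
  rw [T_smul]
  calc a * T D f j w ≤ a * (k * M + c * r) := Nat.mul_le_mul_left a h2
    _ = a * k * M + a * c * r := by ring

lemma Lw.smul {k : ℕ} (a : ℕ) {f : List L → ℕ} (hf : Lw D E k f) :
    Lw D E (a * k) (fun z => a * f z) := by
  obtain ⟨c, d, hc⟩ := hf
  refine ⟨a * c, d, fun w j0 j1 M r hw hr j h0 h1 => ?_⟩
  have h2 := hc w j0 j1 M r hw hr j h0 h1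
  rw [T_smul]
  calc a * k * M = a * (k * M) := by ring
    _ ≤ a * (T D f j w + c * r) := Nat.mul_le_mul_left a h2
    _ = a * T D f j w + a * c * r := by ring

/-- The difference of an upper and a lower bound. -/
lemma Hi.sub {k l m : ℕ} {f g h : List L → ℕ} (hle : ∀ z, f (red z) + g (red z) ≤ h (red z))
    (hg : Lw D E k g) (hh : Hi D E m h) (hm : m = k + l) : Hi D E l f := by
  subst hm
  obtain ⟨c, d, hc⟩ := hg
  obtain ⟨c', d', hc'⟩ := hh
  refine ⟨c + c', d + d', fun w j0 j1 M r hw hr j h0 h1 => ?_⟩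
  have h2 := hc w j0 j1 M r hw hr j (by omega) (by omega)
  have h3 := hc' w j0 j1 M r hw hr j (by omega) (by omega)
  have h4 := T_mono (D := D) (f := fun z => f z + g z) (g := h) hle j w
  rw [T_add] at h4
  have e1 : (k + l) * M = k * M + l * M := by ring
  have e2 : (c + c') * r = c * r + c' * r := by ring
  omega

lemma Hi.sum {ι : Type} [DecidableEq ι] (k : ℕ) (S : Finset ι) {f : ι → List L → ℕ}
    (hf : ∀ i ∈ S, Hi D E k (f i)) : Hi D E (S.card * k) (fun z => ∑ i ∈ S, f i z) := by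
  induction S using Finset.induction_on with
  | empty => simpa using Hi.const (D := D) (E := E) 0
  | insert i S hi ih =>
    have h1 := hf i (Finset.mem_insert_self _ _)
    have h2 := ih fun j hj => hf j (Finset.mem_insert_of_mem hj)
    have h3 := h1.add h2
    have e1 : (insert i S).card * k = k + S.card * k := by
      rw [Finset.card_insert_of_notMem hi]; ring
    rw [e1]
    refine Hi.of_le (fun z => ?_) h3
    rw [Finset.sum_insert hi]

lemma Lw.sum {ι : Type} [DecidableEq ι] (k : ℕ) (S : Finset ι) {f : ι → List L → ℕ}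
    (hf : ∀ i ∈ S, Lw D E k (f i)) : Lw D E (S.card * k) (fun z => ∑ i ∈ S, f i z) := by
  induction S using Finset.induction_on with
  | empty => exact ⟨0, 0, fun w j0 j1 M r hw hr j h0 h1 => by simp⟩
  | insert i S hi ih =>
    have h1 := hf i (Finset.mem_insert_self _ _)
    have h2 := ih fun j hj => hf j (Finset.mem_insert_of_mem hj)
    have h3 := h1.add h2
    have e1 : (insert i S).card * k = k + S.card * k := by
      rw [Finset.card_insert_of_notMem hi]; ring
    rw [e1]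
    refine Lw.of_le (fun z => ?_) h3
    rw [Finset.sum_insert hi]

/-- Total over the children of depth `l`. -/
noncomputable def chl (D : KS L) (l : ℕ) (f : List L → ℕ) : List L → ℕ :=
  fun Q => D.tot (fun z => f (red z)) l Q

lemma T_chl (l : ℕ) (f : List L → ℕ) (j : ℕ) (w : List L) :
    T D (chl D l f) j w = T D f (j + l) w := by
  unfold T chl
  rw [tot_tot]
  congr 1
  funext z
  exact (b3 D).tot_red (fun z => f (red z)) l z (fun z => by
    rw [red_red (b1p L)])

lemma Hi.chl {k : ℕ} {f : List L → ℕ} (l : ℕ) (hf : Hi D E k f) : Hi D E k (chl D l f) := by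
  obtain ⟨c, d, hc⟩ := hf
  refine ⟨c, d + l, fun w j0 j1 M r hw hr j h0 h1 => ?_⟩
  rw [T_chl]
  exact hc w j0 j1 M r hw hr (j + l) (by omega) (by omega)

lemma Lw.chl {k : ℕ} {f : List L → ℕ} (l : ℕ) (hf : Lw D E k f) : Lw D E k (chl D l f) := by
  obtain ⟨c, d, hc⟩ := hf
  refine ⟨c, d + l, fun w j0 j1 M r hw hr j h0 h1 => ?_⟩
  rw [T_chl]
  exact hc w j0 j1 M r hw hr (j + l) (by omega) (by omega)

lemma chl_one (f : List L → ℕ) (Q : List L) :
    chl D 1 f Q = f (red (D.sec false Q)) + f (red (D.sec true Q)) := rfl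

/-! ### Cuts -/

lemma side_hi (X : Finset L) (hX : D.Side E X) : Hi D E 1 (runs X) ∧ Lw D E 1 (runs X) := by
  constructor
  · refine ⟨2, 0, fun w j0 j1 M r hw hr j h0 h1 => ?_⟩
    have := (B5Aux.side D (b1p L) (b3 D) E X hX w j0 j1 M r hw hr j (by omega) (by omega)).1.2
    have e : T D (runs X) j w = D.tot (rr X) j w := rfl
    rw [e]
    omega
  · refine ⟨2, 0, fun w j0 j1 M r hw hr j h0 h1 => ?_⟩
    have := (B5Aux.side D (b1p L) (b3 D) E X hX w j0 j1 M r hw hr j (by omega) (by omega)).1.1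
    have e : T D (runs X) j w = D.tot (rr X) j w := rfl
    rw [e]
    omega

lemma side_compl {X : Finset L} (hX : D.Side E X) : D.Side E Xᶜ := by
  unfold KS.Side KS.nm at hX ⊢
  by_cases ho : D.o ∈ X
  · have : D.o ∉ Xᶜ := by simpa using ho
    rw [if_neg this]
    rwa [if_pos ho] at hX
  · have : D.o ∈ Xᶜ := by simpa using ho
    rw [if_pos this, compl_compl]
    rwa [if_neg ho] at hX

lemma mono_lw (hm : D.Mixing E) {X Y : Finset L} (h : D.Mono E X Y) : Lw D E 1 (blk X Y) := by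
  obtain ⟨c, d, hc⟩ := b5 D (b1 D) (b1p L) (b2b D) (b2c D) (b2d D) (b3 D) E hm X Y h
  refine ⟨c, d, fun w j0 j1 M r hw hr j h0 h1 => ?_⟩
  have := hc w j0 j1 M r hw hr j h0 h1
  have e : T D (blk X Y) j w = D.tot (bb X Y) j w := rfl
  rw [e]
  omega

end R4.Rl
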