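import Pool.Agent.Work.MP_e3f5d9_al_real48.RI

/-!
# R4, real systems, part J: all error counters are small in the window
-/

set_option autoImplicit false
set_option linter.unusedSectionVars false

open Finset

namespace R4.Rl

variable {L : Type} [Fintype L] [DecidableEq L] {D : KS L} {rk : L → ℕ}

/-- All interior letters separate monotonically. -/
def AllMono (D : KS L) (rk : L → ℕ) : Prop :=
  ∀ y, y ≠ D.o → y ≠ D.nxt D.o → D.Mono (gE D rk) (dn rk y) (upp rk y)

lemma o_lt (h : IsReal D rk) {q : L} (hq : q ≠ D.o) : rk D.o < rk q := by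
  have := h.o_min q
  rcases Nat.lt_or_ge (rk D.o) (rk q) with h1 | h1
  · exact h1
  · exact absurd (h.inj _ _ (le_antisymm h1 this)) hq

lemma lt_e (h : IsReal D rk) {q : L} (hq : q ≠ D.nxt D.o) : rk q < rk (D.nxt D.o) := by
  have := h.e_max q
  rcases Nat.lt_or_ge (rk q) (rk (D.nxt D.o)) with h1 | h1
  · exact h1
  · exact absurd (h.inj _ _ (le_antisymm this h1)) hq

lemma up_mem {q : L} (hq : q ≠ D.o) : up rk q ∈ gE D rk :=
  mem_gE.2 ⟨q, hq, rfl⟩

lemma side_up (h : IsReal D rk) {q : L} (hq : q ≠ D.o) : D.Side (gE D rk) (up rk q) := by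
  unfold KS.Side KS.nm
  have : D.o ∉ up rk q := by
    rw [mem_up]
    have := o_lt h hq
    omega
  rw [if_neg this]
  exact up_mem hq

lemma upp_eq (h : IsReal D rk) {y : L} (hy : y ≠ D.nxt D.o) : ∃ q, q ≠ D.o ∧ upp rk y = up rk q := by
  have hne : (upp rk y).Nonempty := ⟨D.nxt D.o, mem_upp.2 (lt_e h hy)⟩
  obtain ⟨q, hq, hmin⟩ := (upp rk y).exists_min_image rk hne
  refine ⟨q, ?_, ?_⟩
  · intro hh
    rw [hh, mem_upp] at hq
    have := h.o_min y
    omega
  · ext i
    rw [mem_upp, mem_up]
    rw [mem_upp] at hq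
    constructor
    · intro hi; exact hmin i (mem_upp.2 hi)
    · intro hi; omega

lemma side_upp (h : IsReal D rk) {y : L} (hy : y ≠ D.nxt D.o) : D.Side (gE D rk) (upp rk y) := by
  obtain ⟨q, hq, he⟩ := upp_eq h hy
  rw [he]
  exact side_up h hq

lemma side_o (hm : D.Mixing (gE D rk)) : D.Side (gE D rk) {D.o} := by
  unfold KS.Side KS.nm
  rw [if_pos (Finset.mem_singleton_self _)]
  exact hm.base

lemma compl_dn (y : L) : (dn rk y)ᶜ = up rk y := by
  ext i; rw [Finset.mem_compl, mem_dn, mem_up, not_lt]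

lemma compl_up (y : L) : (up rk y)ᶜ = dn rk y := by
  ext i; rw [Finset.mem_compl, mem_dn, mem_up, not_le]

lemma mono_o (h : IsReal D rk) (hm : D.Mixing (gE D rk)) (ha : AllMono D rk) :
    ∀ (n : ℕ) (q : L), rk q = n → q ≠ D.o → D.Mono (gE D rk) {D.o} (up rk q) := by
  intro n
  induction n using Nat.strong_induction_on with
  | _ n ih =>
    intro q hn hq
    set S := univ.filter fun i => rk i < rk q ∧ i ≠ D.o with hS
    by_cases hS0 : S.Nonempty
    · obtain ⟨y, hy, hmax⟩ := S.exists_max_image rk hS0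
      rw [hS, Finset.mem_filter] at hy
      obtain ⟨-, hy1, hy2⟩ := hy
      have hye : y ≠ D.nxt D.o := by
        intro hh; rw [hh] at hy1; have := h.e_max q; omega
      have e1 : upp rk y = up rk q := by
        ext i
        rw [mem_upp, mem_up]
        constructor
        · intro hi
          by_contra hcon
          rw [not_le] at hcon
          have hio : i ≠ D.o := by
            intro hh; rw [hh] at hi; have := h.o_min y; omega
          have := hmax i (by rw [hS, Finset.mem_filter]; exact ⟨mem_univ _, hcon, hio⟩)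
          omega
        · intro hi; omega
      have m1 := ih (rk y) (by omega) y rfl hy2
      have m2 := ha y hy2 hye
      rw [e1] at m2
      refine KS.Mono.glue {D.o} (up rk y) (up rk q) (side_up h hy2) ?_ ?_ m1 ?_
      · intro i hi
        rw [Finset.mem_singleton] at hi
        rw [hi, Finset.mem_compl, mem_up]
        have := o_lt h hy2
        omega
      · intro i hi
        rw [mem_up] at hi ⊢
        omega
      · rw [compl_up]; exact m2
    · have e1 : up rk q = ({D.o} : Finset L)ᶜ := by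
        ext i
        rw [mem_up, Finset.mem_compl, Finset.mem_singleton]
        constructor
        · intro hi hh
          rw [hh] at hi
          have := o_lt h hq
          omega
        · intro hi
          by_contra hcon
          rw [not_le] at hcon
          exact hS0 ⟨i, by rw [hS, Finset.mem_filter]; exact ⟨mem_univ _, hcon, hi⟩⟩
      rw [e1]
      exact KS.Mono.triv _ (side_o hm)

/-! ### Turning letters -/

lemma hi_mx (h : IsReal D rk) (hm : D.Mixing (gE D rk)) (ha : AllMono D rk) {y : L} (hyo : y ≠ D.o)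
    (hye : y ≠ D.nxt D.o) :
    Hi D (gE D rk) 0 (fun z => mx (dn rk y) y z + mx (upp rk y) y z) := by
  have n1 : y ∉ dn rk y := by rw [mem_dn]; omega
  have n2 : y ∉ upp rk y := by rw [mem_upp]; omega
  have hd : Disjoint (dn rk y) (upp rk y) := by
    rw [Finset.disjoint_left]
    intro i hi hi'
    rw [mem_dn] at hi
    rw [mem_upp] at hi'
    omega
  have h1 : Hi D (gE D rk) 0 (mx (dn rk y) y) := by
    refine Hi.sub (k := 1) (l := 0) (m := 1) (g := blk (dn rk y) (upp rk y))
      (h := runs (dn rk y)ᶜ) (fun z => mx_le _ _ y n1 n2 hd _) (mono_lw hm (ha y hyo hye)) ?_ rfl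
    rw [compl_dn]
    exact (side_hi _ (side_up h hyo)).1
  have h2 : Hi D (gE D rk) 0 (mx (upp rk y) y) := by
    refine Hi.sub (k := 1) (l := 0) (m := 1) (g := blk (upp rk y) (dn rk y))
      (h := runs (upp rk y)ᶜ) (fun z => mx_le _ _ y n2 n1 hd.symm _)
      (mono_lw hm (KS.Mono.symm _ _ (ha y hyo hye))) ?_ rfl
    exact (side_hi _ (side_compl (side_upp h hye))).1
  exact h1.add h2

lemma hi_F (h : IsReal D rk) (hm : D.Mixing (gE D rk)) (ha : AllMono D rk) :
    Hi D (gE D rk) 0 (F rk D.o (D.nxt D.o)) := by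
  have h1 := Hi.sum (D := D) (E := gE D rk) 0 (univ.filter (fun y => y ≠ D.o ∧ y ≠ D.nxt D.o))
    (f := fun y z => mx (dn rk y) y z + mx (upp rk y) y z) (fun y hy => by
      rw [Finset.mem_filter] at hy
      exact hi_mx h hm ha hy.2.1 hy.2.2)
  rw [Nat.mul_zero] at h1
  refine Hi.of_le (fun z => ?_) h1
  have h2 := bt_le rk D.o (D.nxt D.o) h.o_min h.e_max (red z)
  have h3 := viol_red z
  unfold F
  omega

/-! ### Counts of `o`, `e` and `nxt e` -/

lemma hl_o (hm : D.Mixing (gE D rk)) : Hi D (gE D rk) 1 (fun z => z.count D.o) ∧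
    Lw D (gE D rk) 1 (fun z => z.count D.o) := by
  have h1 := side_hi _ (side_o hm)
  have h2 : ∀ z : List L, (red z).count D.o = runs {D.o} (red z) := fun z =>
    ((b1p L).rr_single D.o z).symm
  exact ⟨Hi.of_le (fun z => le_of_eq (h2 z)) h1.1, Lw.of_le (fun z => le_of_eq (h2 z).symm) h1.2⟩

lemma hl_e (h : IsReal D rk) : Hi D (gE D rk) 1 (fun z => z.count (D.nxt D.o)) ∧
    Lw D (gE D rk) 1 (fun z => z.count (D.nxt D.o)) := by
  have e1 : up rk (D.nxt D.o) = {D.nxt D.o} := by
    ext i
    rw [mem_up, Finset.mem_singleton]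
    constructor
    · intro hi
      exact h.inj _ _ (le_antisymm (h.e_max i) hi)
    · intro hi; rw [hi]
  have h1 := side_hi _ (side_up h (D.nxt_ne D.o))
  rw [e1] at h1
  have h2 : ∀ z : List L, (red z).count (D.nxt D.o) = runs {D.nxt D.o} (red z) := fun z =>
    ((b1p L).rr_single (D.nxt D.o) z).symm
  exact ⟨Hi.of_le (fun z => le_of_eq (h2 z)) h1.1, Lw.of_le (fun z => le_of_eq (h2 z).symm) h1.2⟩

lemma lw_od (h : IsReal D rk) : Lw D (gE D rk) 1
    (od (up rk (D.nxt (D.nxt D.o))) (D.nxt (D.nxt D.o)) false) := by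
  refine Lw.of_le (f := chl D 1 (fun z => z.count (D.nxt D.o))) (fun z => ?_) ((hl_e h).2.chl 1)
  rw [chl_one]
  exact count_e_child h (red z)

lemma hi_vp (h : IsReal D rk) (hm : D.Mixing (gE D rk)) (ha : AllMono D rk) :
    Hi D (gE D rk) 0 (vp D.o (D.nxt (D.nxt D.o)) 0) := by
  set u := D.nxt (D.nxt D.o) with hu
  have huo : u ≠ D.o := D.nxt_ne _
  have hue : u ≠ D.nxt D.o := h.ne
  have g1 : Lw D (gE D rk) 1 (blk {D.o} (up rk u)) := mono_lw hm (mono_o h hm ha _ u rfl huo)
  have g2 : Lw D (gE D rk) 1 (od (up rk u) u false) := lw_od h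
  have g3 : Lw D (gE D rk) 1 (blk (dn rk u) (upp rk u)) := mono_lw hm (ha u huo hue)
  have g := ((g1.smul 2).add (g2.smul 2)).add (g3.smul 2)
  have k1 := (hl_o hm).1
  have k2 := (side_hi _ (side_up h huo)).1
  have k3 := (side_hi _ (side_upp h hue)).1
  have k := ((k1.add (k2.smul 3)).add (k3.smul 2)).add (Hi.const (D := D) (E := gE D rk) 1)
  refine Hi.sub (l := 0) (fun z => ?_) g k (by norm_num)
  have := G_le rk D.o u (o_lt h huo) (fun i hi => h.inj _ _ hi) (red z)
  have h3 := viol_red z
  omega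

lemma hi_u (h : IsReal D rk) (hm : D.Mixing (gE D rk)) (ha : AllMono D rk) :
    Hi D (gE D rk) 1 (fun z => z.count (D.nxt (D.nxt D.o))) := by
  have h1 := ((hl_o hm).1.add (hi_vp h hm ha)).add (Hi.const (D := D) (E := gE D rk) 1)
  refine Hi.of_le (fun z => ?_) h1
  exact (count_u_le D.o (D.nxt (D.nxt D.o)) (D.nxt_ne _).symm (red z)).1

/-! ### Counts of all letters -/

/-- Adjacent letters of the children. -/
lemma hi_adj (h : IsReal D rk) (hm : D.Mixing (gE D rk)) (ha : AllMono D rk) (i : L)
    (hio : i ≠ D.o) (hie : i ≠ D.nxt D.o) : Hi D (gE D rk) 0 (fun Q =>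
      adj i (fl D.o (D.nxt D.o) i (D.sec false Q)) +
        adj i (fl D.o (D.nxt D.o) i (D.sec true Q))) := by
  have h1 := (((hi_F h hm ha).add (hi_vp h hm ha)).smul 2).add (Hi.const (D := D) (E := gE D rk) 1)
  have h2 := h1.smul (20 * Fintype.card L + 42)
  have h3 := Hi.of_le (f := fun Q => adj i (fl D.o (D.nxt D.o) i (D.sec false Q)) +
        adj i (fl D.o (D.nxt D.o) i (D.sec true Q))) (fun z => adj_all h i hio hie (red z)) h2
  simpa using h3

lemma count_nxt (i : L) (Q : List L) :
    Q.count (D.nxt i) = (D.sec false Q).count i + (D.sec true Q).count i :=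
  ((b1 D).count_sec Q i).symm

lemma hi_step (h : IsReal D rk) (hm : D.Mixing (gE D rk)) (ha : AllMono D rk) (i : L)
    (hio : i ≠ D.o) (hie : i ≠ D.nxt D.o) (hi : Hi D (gE D rk) 1 (fun z => z.count i)) :
    Hi D (gE D rk) 1 (fun z => z.count (D.nxt i)) := by
  have g := ((hl_o hm).2.chl 1).add ((hl_e h).2.chl 1)
  have k := (((hi.chl 1).add ((hi_adj h hm ha i hio hie).smul 2)).add (hl_e h).1).add (hi_u h hm ha)
  refine Hi.sub (l := 1) (fun z => ?_) g k (by norm_num)
  simp only [chl_one]
  have c1 := canc D.o (D.nxt D.o) i hio hie (D.nxt_ne D.o).symm (D.sec false (red z))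
  have c2 := canc D.o (D.nxt D.o) i hio hie (D.nxt_ne D.o).symm (D.sec true (red z))
  have q1 := count_nxt (D := D) i (red z)
  have q2 := count_nxt (D := D) D.o (red z)
  have q3 := count_nxt (D := D) (D.nxt D.o) (red z)
  omega

lemma hi_all (h : IsReal D rk) (hm : D.Mixing (gE D rk)) (ha : AllMono D rk) (i : L) :
    Hi D (gE D rk) 1 (fun z => z.count i) := by
  have key : ∀ l : ℕ, Hi D (gE D rk) 1 (fun z => z.count (D.nxt^[l] (D.nxt (D.nxt D.o)))) := by
    intro l
    induction l with
    | zero => exact hi_u h hm ha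
    | succ l ih =>
      rw [Function.iterate_succ_apply']
      exact hi_step h hm ha _ (LE_all h l).1 (LE_all h l).2.1 ih
  obtain ⟨k, hk⟩ := h.orb i
  rcases k with _ | _ | k
  · rw [← hk]; exact (hl_o hm).1
  · rw [← hk]; exact (hl_e h).1
  · have e : D.nxt^[k + 1 + 1] D.o = D.nxt^[k] (D.nxt (D.nxt D.o)) := by
      rw [Function.iterate_add_apply]
      rfl
    rw [← hk, e]
    exact key k

lemma lw_all (h : IsReal D rk) (hm : D.Mixing (gE D rk)) (i : L) :
    Lw D (gE D rk) 1 (fun z => z.count i) := by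
  have key : ∀ l : ℕ, Lw D (gE D rk) 1 (fun z => z.count (D.nxt^[l] D.o)) := by
    intro l
    induction l with
    | zero => exact (hl_o hm).2
    | succ l ih =>
      rw [Function.iterate_succ_apply']
      refine Lw.of_le (fun z => ?_) (ih.chl 1)
      rw [chl_one, count_nxt (D := D)]
      have q1 := (b1p L).count_red (D.nxt^[l] D.o) (D.sec false (red z))
      have q2 := (b1p L).count_red (D.nxt^[l] D.o) (D.sec true (red z))
      omega
  obtain ⟨k, hk⟩ := h.orb i
  rw [← hk]
  exact key k

/-! ### Lengths -/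

lemma length_eq_sum (w : List L) : w.length = ∑ i, w.count i := by
  induction w with
  | nil => simp
  | cons x w ih =>
    simp only [List.length_cons, List.count_cons, Finset.sum_add_distrib, ← ih]
    congr 1
    simp

lemma tot_sum {ι : Type} [DecidableEq ι] (S : Finset ι) (f : ι → List L → ℕ) (j : ℕ) (w : List L) :
    D.tot (fun z => ∑ i ∈ S, f i z) j w = ∑ i ∈ S, D.tot (f i) j w := by
  induction S using Finset.induction_on with
  | empty => simpa using (b3 D).tot_const 0 j w
  | insert i S hi ih =>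
    rw [Finset.sum_insert hi, ← ih, ← (b3 D).tot_add]
    congr 1
    funext z
    rw [Finset.sum_insert hi]

lemma lw_length (h : IsReal D rk) (hm : D.Mixing (gE D rk)) :
    Lw D (gE D rk) (Fintype.card L) (fun z => z.length) := by
  have h1 := Lw.sum (D := D) (E := gE D rk) 1 (univ : Finset L) (f := fun i z => z.count i)
    (fun i _ => lw_all h hm i)
  rw [Nat.mul_one, Finset.card_univ] at h1
  exact Lw.of_le (fun z => le_of_eq (length_eq_sum _).symm) h1

lemma hi_raw (h : IsReal D rk) (hm : D.Mixing (gE D rk)) (ha : AllMono D rk) (l : ℕ) :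
    Hi D (gE D rk) (Fintype.card L) (fun Q => D.tot (fun z => z.length) l Q) := by
  have h1 := Hi.sum (D := D) (E := gE D rk) 1 (univ : Finset L)
    (f := fun i z => z.count (D.nxt^[l] i)) (fun i _ => hi_all h hm ha _)
  rw [Nat.mul_one, Finset.card_univ] at h1
  refine Hi.of_le (fun z => le_of_eq ?_) h1
  have e1 : (fun z : List L => z.length) = fun z => ∑ i, z.count i := by
    funext z; exact length_eq_sum z
  rw [e1, tot_sum]
  exact Finset.sum_congr rfl fun i _ => (b3 D).tot_count i l (red z)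

/-- The error counter of the raw sections of depth `l`. -/
lemma hi_tot (h : IsReal D rk) (hm : D.Mixing (gE D rk)) (ha : AllMono D rk) (l : ℕ) :
    Hi D (gE D rk) 0 (fun Q => D.tot (F rk D.o (D.nxt D.o)) l Q) := by
  have g := ((lw_length h hm).chl l).smul 4
  have k := ((hi_F h hm ha).chl l).add ((hi_raw h hm ha l).smul 4)
  refine Hi.sub (l := 0) (fun z => ?_) g k (by simp)
  simp only [chl]
  rw [← B5Aux.tot_mul D (b3 D) 4, ← B5Aux.tot_mul D (b3 D) 4, ← (b3 D).tot_add,
    ← (b3 D).tot_add]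
  apply (b3 D).tot_mono
  intro y
  have h1 := F_le_red rk D.o (D.nxt D.o) y
  omega

/-- The error counter up to depth `T`. -/
noncomputable def NT (D : KS L) (rk : L → ℕ) (T : ℕ) (Q : List L) : ℕ :=
  ∑ l ∈ range (T + 1), D.tot (F rk D.o (D.nxt D.o)) l Q

lemma hi_NT (h : IsReal D rk) (hm : D.Mixing (gE D rk)) (ha : AllMono D rk) (T : ℕ) :
    Hi D (gE D rk) 0 (NT D rk T) := by
  have h1 := Hi.sum (D := D) (E := gE D rk) 0 (range (T + 1))
    (f := fun l Q => D.tot (F rk D.o (D.nxt D.o)) l Q) (fun l _ => hi_tot h hm ha l)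
  rw [Nat.mul_zero] at h1
  exact h1

/-! ### The counter is superadditive -/

lemma tot_F_append (l : ℕ) : ∀ A B : List L, D.tot (F rk D.o (D.nxt D.o)) l A +
    D.tot (F rk D.o (D.nxt D.o)) l B ≤ D.tot (F rk D.o (D.nxt D.o)) l (A ++ B) := by
  induction l with
  | zero => intro A B; exact (F_append rk D.o (D.nxt D.o) A B).1
  | succ l ih =>
    intro A B
    simp only [KS.tot, (b1 D).sec_append]
    have g1 := ih (D.sec false A) (D.sec (xor false (decide (Odd (A.count D.o)))) B)
    have g2 := ih (D.sec true A) (D.sec (xor true (decide (Odd (A.count D.o)))) B)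
    revert g1 g2
    cases decide (Odd (A.count D.o)) <;>
      simp only [Bool.xor_false, Bool.xor_true, Bool.not_false, Bool.not_true] <;> omega

lemma NT_append (T : ℕ) (A B : List L) : NT D rk T A + NT D rk T B ≤ NT D rk T (A ++ B) := by
  unfold NT
  rw [← Finset.sum_add_distrib]
  exact Finset.sum_le_sum fun l _ => tot_F_append l A B

lemma tot_F_short (l : ℕ) : ∀ A : List L, A.length ≤ 1 →
    D.tot (F rk D.o (D.nxt D.o)) l A = 0 := by
  induction l with
  | zero =>
    intro A hA
    rcases A with _ | ⟨x, _ | ⟨y, A⟩⟩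
    · simp [KS.tot]
    · simp [KS.tot]
    · simp at hA
  | succ l ih =>
    intro A hA
    have h1 := length_sec_le (D := D) false A
    have h2 := length_sec_le (D := D) true A
    simp only [KS.tot]
    rw [ih _ (by omega), ih _ (by omega)]

lemma NT_short (T : ℕ) (A : List L) (hA : A.length ≤ 1) : NT D rk T A = 0 :=
  Finset.sum_eq_zero fun l _ => tot_F_short l A hA

lemma GT_of_tot (T : ℕ) : ∀ Q : List L, (∀ l ≤ T, D.tot (F rk D.o (D.nxt D.o)) l Q = 0) →
    GT D rk T Q := by
  induction T with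
  | zero => intro Q hQ; exact hQ 0 le_rfl
  | succ T ih =>
    intro Q hQ
    refine ⟨hQ 0 (Nat.zero_le _), fun b => ih _ fun l hl => ?_⟩
    have := hQ (l + 1) (by omega)
    simp only [KS.tot] at this
    cases b
    · omega
    · omega

lemma GT_of_NT (T : ℕ) (Q : List L) (hQ : NT D rk T Q = 0) : GT D rk T Q := by
  refine GT_of_tot T Q fun l hl => ?_
  unfold NT at hQ
  rw [Finset.sum_eq_zero_iff] at hQ
  exact hQ l (Finset.mem_range.2 (by omega))

end R4.Rl
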