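import Pool.Agent.Work.MP_e3f5d9_al_real48.RJ

/-!
# R4, real systems, part K: assembly of the subexponential bound
-/

set_option autoImplicit false
set_option linter.unusedSectionVars false

open Finset

namespace R4.Rl

/-! ### Binary codes of lists of numbers -/

/-- `t f t f ... t f`. -/
def dbl : ℕ → List Bool
  | 0 => []
  | m + 1 => true :: false :: dbl m

/-- Binary code of a list of numbers. -/
def enc : List ℕ → List Bool
  | [] => []
  | m :: l => dbl m ++ (true :: true :: enc l)

lemma length_dbl (m : ℕ) : (dbl m).length = 2 * m := by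
  induction m with
  | zero => rfl
  | succ m ih => simp only [dbl, List.length_cons, ih]; ring

lemma length_enc (l : List ℕ) : (enc l).length = 2 * l.sum + 2 * l.length := by
  induction l with
  | nil => rfl
  | cons m l ih =>
    simp only [enc, List.length_append, List.length_cons, length_dbl, ih, List.sum_cons]
    ring

lemma viol_dbl (m : ℕ) (X : List Bool) : viol (dbl m ++ true :: X) = viol (true :: X) := by
  induction m with
  | zero => rfl
  | succ m ih =>
    have hh : ∃ Y, dbl m ++ true :: X = true :: Y := by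
      cases m with
      | zero => exact ⟨X, rfl⟩
      | succ m => exact ⟨_, rfl⟩
    obtain ⟨Y, hY⟩ := hh
    simp only [dbl, List.cons_append, viol]
    rw [hY] at ih ⊢
    simp only [viol]
    simpa using ih

lemma viol_enc (l : List ℕ) : viol (enc l) ≤ 2 * l.length := by
  induction l with
  | nil => simp [enc, viol]
  | cons m l ih =>
    simp only [enc, List.length_cons]
    rw [viol_dbl]
    have h1 := (viol_cons_le true (true :: enc l)).2
    have h2 := (viol_cons_le true (enc l)).2
    omega

lemma dbl_inj : ∀ (m m' : ℕ) (X X' : List Bool),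
    dbl m ++ (true :: true :: X) = dbl m' ++ (true :: true :: X') → m = m' ∧ X = X' := by
  intro m
  induction m with
  | zero =>
    intro m' X X' h
    cases m' with
    | zero => simpa [dbl] using h
    | succ m' => simp [dbl] at h
  | succ m ih =>
    intro m' X X' h
    cases m' with
    | zero => simp [dbl] at h
    | succ m' =>
      simp only [dbl, List.cons_append, List.cons.injEq, true_and] at h
      obtain ⟨h1, h2⟩ := ih m' X X' h
      exact ⟨by omega, h2⟩

lemma enc_inj : ∀ l l' : List ℕ, enc l = enc l' → l = l' := by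
  intro l
  induction l with
  | nil =>
    intro l' h
    cases l' with
    | nil => rfl
    | cons m l' =>
      exfalso
      have := congrArg List.length h
      simp only [length_enc, List.length_cons, List.length_nil, List.sum_nil] at this
      omega
  | cons m l ih =>
    intro l' h
    cases l' with
    | nil =>
      exfalso
      have := congrArg List.length h
      simp only [length_enc, List.length_cons, List.length_nil, List.sum_nil] at this
      omega
    | cons m' l' =>
      simp only [enc] at h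
      obtain ⟨h1, h2⟩ := dbl_inj _ _ _ _ h
      rw [h1, ih l' h2]

variable {L : Type} [Fintype L] [DecidableEq L] {D : KS L} {rk : L → ℕ}

/-- Numbers of a list of pieces. -/
def nums (D : KS L) (cd : List L → ℕ) (ps : List (List L)) : List ℕ :=
  ps.flatMap fun p => [p.count D.o, cd p]

lemma nums_length (cd : List L → ℕ) (ps : List (List L)) :
    (nums D cd ps).length = 2 * ps.length := by
  induction ps with
  | nil => rfl
  | cons p ps ih =>
    simp only [nums, List.flatMap_cons, List.length_append, List.length_cons,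
      List.length_nil] at ih ⊢
    omega

lemma nums_sum (cd : List L → ℕ) (K : ℕ) (hK : ∀ Q, cd Q < K) (ps : List (List L)) :
    (nums D cd ps).sum ≤ ps.flatten.count D.o + K * ps.length := by
  induction ps with
  | nil => simp [nums]
  | cons p ps ih =>
    have h1 := hK p
    simp only [nums, List.flatMap_cons, List.sum_append, List.sum_cons, List.sum_nil,
      List.flatten_cons, List.count_append, List.length_cons] at ih ⊢
    have e : K * (ps.length + 1) = K * ps.length + K := by ring
    rw [e]
    omega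

lemma nums_inj (T : ℕ) (cd : List L → ℕ)
    (hcd : ∀ Q Q', GT D rk T Q → GT D rk T Q' → Q.count D.o = Q'.count D.o → cd Q = cd Q' →
      D.ev Q = D.ev Q') : ∀ ps ps' : List (List L), (∀ p ∈ ps, GT D rk T p) →
    (∀ p ∈ ps', GT D rk T p) → nums D cd ps = nums D cd ps' → D.ev ps.flatten = D.ev ps'.flatten := by
  intro ps
  induction ps with
  | nil =>
    intro ps' _ _ h
    cases ps' with
    | nil => rfl
    | cons p' ps' =>
      exfalso
      have := congrArg List.length h
      rw [nums_length, nums_length] at this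
      simp only [List.length_nil, List.length_cons] at this
      omega
  | cons p ps ih =>
    intro ps' h1 h2 h
    cases ps' with
    | nil =>
      exfalso
      have := congrArg List.length h
      rw [nums_length, nums_length] at this
      simp only [List.length_nil, List.length_cons] at this
      omega
    | cons p' ps' =>
      simp only [nums, List.flatMap_cons, List.cons_append, List.nil_append,
        List.cons.injEq] at h
      obtain ⟨q1, q2, q3⟩ := h
      have e1 := hcd p p' (h1 p (by simp)) (h2 p' (by simp)) q1 q2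
      have e2 := ih ps' (fun q hq => h1 q (by simp [hq])) (fun q hq => h2 q (by simp [hq])) q3
      funext x
      rw [List.flatten_cons, List.flatten_cons, (b1 D).ev_append, (b1 D).ev_append, e1, e2]

/-- The pieces of a word. -/
lemma exists_pieces (D : KS L) (rk : L → ℕ) (T : ℕ) (Q : List L) :
    ∃ ps : List (List L), ps.flatten = Q ∧
    (∀ p ∈ ps, GT D rk T p) ∧ ps.length ≤ 2 * NT D rk T Q + 1 := by
  obtain ⟨ps, h1, h2, h3⟩ := cut (NT D rk T) (NT_short T _ (by simp))
    (fun x => NT_short T _ (by simp)) (fun A B => NT_append T A B) Q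
  exact ⟨ps, h1, fun p hp => GT_of_NT T p (h2 p hp), h3⟩

/-- The pieces. -/
noncomputable def pcs (D : KS L) (rk : L → ℕ) (T : ℕ) (Q : List L) : List (List L) :=
  (exists_pieces D rk T Q).choose

/-- The binary code of a word. -/
noncomputable def cdw (D : KS L) (rk : L → ℕ) (T : ℕ) (cd : List L → ℕ) (Q : List L) :
    List Bool := enc (nums D cd (pcs D rk T Q))

lemma cdw_length (T K : ℕ) (cd : List L → ℕ) (hK : ∀ Q, cd Q < K) (Q : List L) :
    (cdw D rk T cd Q).length ≤ 2 * Q.count D.o + (2 * K + 4) * (2 * NT D rk T Q + 1) := by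
  obtain ⟨h1, -, h3⟩ := (exists_pieces D rk T Q).choose_spec
  unfold cdw
  rw [length_enc, nums_length]
  have h4 := nums_sum (D := D) cd K hK (pcs D rk T Q)
  have h5 : (pcs D rk T Q).flatten = Q := h1
  rw [h5] at h4
  have h6 : (pcs D rk T Q).length ≤ 2 * NT D rk T Q + 1 := h3
  have h7 := Nat.mul_le_mul_left (2 * K + 4) h6
  have e : (2 * K + 4) * (pcs D rk T Q).length = 2 * (K * (pcs D rk T Q).length) +
    2 * (2 * (pcs D rk T Q).length) := by ring
  omega

lemma cdw_viol (T : ℕ) (cd : List L → ℕ) (Q : List L) :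
    viol (cdw D rk T cd Q) ≤ 4 * (2 * NT D rk T Q + 1) := by
  obtain ⟨-, -, h3⟩ := (exists_pieces D rk T Q).choose_spec
  unfold cdw
  have h1 := viol_enc (nums D cd (pcs D rk T Q))
  rw [nums_length] at h1
  have h6 : (pcs D rk T Q).length ≤ 2 * NT D rk T Q + 1 := h3
  omega

lemma cdw_inj (T : ℕ) (cd : List L → ℕ)
    (hcd : ∀ Q Q', GT D rk T Q → GT D rk T Q' → Q.count D.o = Q'.count D.o → cd Q = cd Q' →
      D.ev Q = D.ev Q') (Q Q' : List L) (h : cdw D rk T cd Q = cdw D rk T cd Q') :
    D.ev Q = D.ev Q' := by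
  have h1 := (exists_pieces D rk T Q).choose_spec
  have h2 := (exists_pieces D rk T Q').choose_spec
  have h3 := nums_inj T cd hcd (pcs D rk T Q) (pcs D rk T Q') h1.2.1 h2.2.1 (enc_inj _ _ h)
  have h4 : (pcs D rk T Q).flatten = Q := h1.1
  have h5 : (pcs D rk T Q').flatten = Q' := h2.1
  rwa [h4, h5] at h3

/-- The tuple of codes of a word. -/
noncomputable def tu (D : KS L) (rk : L → ℕ) (T : ℕ) (cd : List L → ℕ) (j : ℕ) (w : List L)
    (v : Fin j → Bool) : List Bool := cdw D rk T cd (red (D.secL (List.ofFn v) w))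

lemma tu_inj (T : ℕ) (cd : List L → ℕ)
    (hcd : ∀ Q Q', GT D rk T Q → GT D rk T Q' → Q.count D.o = Q'.count D.o → cd Q = cd Q' →
      D.ev Q = D.ev Q') (j : ℕ) (w w' : List L) (ht : tu D rk T cd j w = tu D rk T cd j w')
    (ha : ∀ v : Fin j → Bool, D.ev w (List.ofFn v) = D.ev w' (List.ofFn v)) :
    D.ev w = D.ev w' := by
  apply ev_ext D (b1 D) j
  · intro v hv
    subst hv
    have := ha v.get
    rwa [List.ofFn_get] at this
  · intro v hv
    subst hv
    rw [← (b1 D).ev_red (D.secL v w), ← (b1 D).ev_red (D.secL v w')]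
    have := congrFun ht v.get
    simp only [tu, List.ofFn_get] at this
    exact cdw_inj T cd hcd _ _ this

lemma ncard_lev (T : ℕ) (cd : List L → ℕ)
    (hcd : ∀ Q Q', GT D rk T Q → GT D rk T Q' → Q.count D.o = Q'.count D.o → cd Q = cd Q' →
      D.ev Q = D.ev Q')
    (j a b : ℕ) (hfin : (Tset (Fintype.card (Fin j → Bool)) a b).Finite) :
    ({g : List Bool → List Bool | ∃ w : List L, D.ev w = g ∧
      (∑ k, (tu D rk T cd j w k).length) ≤ a ∧ (∑ k, viol (tu D rk T cd j w k)) ≤ b}).Finite ∧
    ({g : List Bool → List Bool | ∃ w : List L, D.ev w = g ∧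
      (∑ k, (tu D rk T cd j w k).length) ≤ a ∧ (∑ k, viol (tu D rk T cd j w k)) ≤ b}).ncard ≤
    (Set.pi Set.univ fun _ : Fin j → Bool => {l : List Bool | l.length = j}).ncard *
      (Tset (Fintype.card (Fin j → Bool)) a b).ncard := by
  classical
  set S := {g : List Bool → List Bool | ∃ w : List L, D.ev w = g ∧
      (∑ k, (tu D rk T cd j w k).length) ≤ a ∧ (∑ k, viol (tu D rk T cd j w k)) ≤ b} with hS
  set e := Fintype.equivFin (Fin j → Bool) with he
  let W : (List Bool → List Bool) → List L := fun g =>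
    if h : ∃ w : List L, D.ev w = g ∧
      (∑ k, (tu D rk T cd j w k).length) ≤ a ∧ (∑ k, viol (tu D rk T cd j w k)) ≤ b
      then h.choose else []
  have hW : ∀ g ∈ S, D.ev (W g) = g ∧
      (∑ k, (tu D rk T cd j (W g) k).length) ≤ a ∧
        (∑ k, viol (tu D rk T cd j (W g) k)) ≤ b := by
    intro g hg
    have hg' : ∃ w : List L, D.ev w = g ∧
      (∑ k, (tu D rk T cd j w k).length) ≤ a ∧ (∑ k, viol (tu D rk T cd j w k)) ≤ b := hg
    simp only [W, dif_pos hg']
    exact hg'.choose_spec
  let F : (List Bool → List Bool) → ((Fin j → Bool) → List Bool) ×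
      (Fin (Fintype.card (Fin j → Bool)) → List Bool) :=
    fun g => (fun v => D.ev (W g) (List.ofFn v), fun k => tu D rk T cd j (W g) (e.symm k))
  have hT : ((Set.pi Set.univ fun _ : Fin j → Bool => {l : List Bool | l.length = j}) ×ˢ
      (Tset (Fintype.card (Fin j → Bool)) a b)).Finite := by
    apply Set.Finite.prod _ hfin
    apply Set.Finite.pi
    intro v
    exact List.finite_length_eq Bool j
  have hmaps : ∀ g ∈ S, F g ∈ ((Set.pi Set.univ fun _ : Fin j → Bool =>
      {l : List Bool | l.length = j}) ×ˢ (Tset (Fintype.card (Fin j → Bool)) a b)) := by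
    intro g hg
    obtain ⟨-, h2, h3⟩ := hW g hg
    refine ⟨?_, ?_, ?_⟩
    · intro v _
      simp [F, (b1 D).ev_length]
    · simp only [F]
      rw [Equiv.sum_comp e.symm (fun k => (tu D rk T cd j (W g) k).length)]
      exact h2
    · simp only [F]
      rw [Equiv.sum_comp e.symm (fun k => viol (tu D rk T cd j (W g) k))]
      exact h3
  have hinj : Set.InjOn F S := by
    intro g hg g' hg' hF
    simp only [F, Prod.mk.injEq] at hF
    rw [← (hW g hg).1, ← (hW g' hg').1]
    apply tu_inj T cd hcd j
    · funext k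
      have := congrFun hF.2 (e k)
      simpa using this
    · intro v
      exact congrFun hF.1 v
  rw [← Set.ncard_prod]
  exact ⟨Set.Finite.of_injOn hmaps hinj hT, Set.ncard_le_ncard_of_injOn F hmaps hinj hT⟩

/-- Real mixing systems have subexponential growth. -/
theorem real_subexp (h : IsReal D rk) (hm : D.Mixing (gE D rk)) (ha : AllMono D rk) :
    SubexpGam D := by
  classical
  intro δ hδ
  obtain ⟨T0, K, cd, hK, hcd⟩ := finite_codes h
  obtain ⟨c1, d1, hNT⟩ := hi_NT h hm ha T0
  obtain ⟨c2, d2, hO⟩ := (hl_o hm).1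
  set C0 : ℕ := 2 + 2 * c2 + (2 * K + 4) * (2 * c1 + 1) with hC0
  set V0 : ℕ := 4 * (2 * c1 + 1) with hV0
  obtain ⟨N, hN, hcount⟩ := b7 δ C0 V0 hδ
  obtain ⟨J, C, hCJ, hwin⟩ := b4 D (b1 D) (b1p L) (b2a D) (b3 D) (gE D rk) hm (2 * (d1 + d2)) N hN
  set C₁ := C0 * C + V0 * C with hC₁
  choose CC hCC using fun j => hcount C₁ (Fintype.card (Fin j → Bool))
  set A : ℕ → ℕ := fun j =>
    (Set.pi Set.univ fun _ : Fin j → Bool => {l : List Bool | l.length = j}).ncard with hA
  refine ⟨∑ j ∈ range (J + 1), (A j : ℝ) * CC j, fun n => ?_⟩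
  set a := C0 * n + C₁ with ha'
  set b := V0 * (n / N) + C₁ with hb
  set S : ℕ → Set (List Bool → List Bool) := fun j => {g | ∃ w : List L, D.ev w = g ∧
      (∑ k, (tu D rk T0 cd j w k).length) ≤ a ∧ (∑ k, viol (tu D rk T0 cd j w k)) ≤ b} with hS
  have hlev : ∀ j, (S j).Finite ∧ (S j).ncard ≤ A j *
      (Tset (Fintype.card (Fin j → Bool)) a b).ncard :=
    fun j => ncard_lev T0 cd hcd j a b (hCC j n).1
  have hcover : {g : List Bool → List Bool | ∃ w : List L, w.length ≤ n ∧ D.ev w = g} ⊆
      ⋃ j ∈ range (J + 1), S j := by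
    rintro g ⟨w, hw, rfl⟩
    obtain ⟨j0, M, hj0, hM, hwi⟩ := hwin n w hw
    set r := n / N + C with hr
    have hrn : r ≤ n + C := by
      have := Nat.div_le_self n N
      omega
    have hpow : ∀ k, k ≤ J + 1 → 2 ^ k ≤ r := by
      intro k hk
      calc 2 ^ k ≤ 2 ^ (J + 1) := Nat.pow_le_pow_right (by norm_num) hk
        _ ≤ C := hCJ
        _ ≤ r := Nat.le_add_left _ _
    have t1 := hNT w j0 (j0 + 2 * (d1 + d2)) M r hwi (hpow _ (by omega)) (j0 + (d1 + d2))
      (by omega) (by omega)
    have t2 := hO w j0 (j0 + 2 * (d1 + d2)) M r hwi (hpow _ (by omega)) (j0 + (d1 + d2))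
      (by omega) (by omega)
    set j := j0 + (d1 + d2) with hj
    have hj2 := hpow j (by omega)
    rw [Set.mem_iUnion₂]
    refine ⟨j, by simp; omega, w, rfl, ?_, ?_⟩
    · calc ∑ k, (tu D rk T0 cd j w k).length
          ≤ ∑ v : Fin j → Bool, (2 * (red (D.secL (List.ofFn v) w)).count D.o + (2 * K + 4) *
            (2 * NT D rk T0 (red (D.secL (List.ofFn v) w)) + 1)) :=
            Finset.sum_le_sum fun v _ => cdw_length T0 K cd hK _
        _ = D.tot (fun z => 2 * (red z).count D.o + (2 * K + 4) *
            (2 * NT D rk T0 (red z) + 1)) j w :=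
            ((b3 D).tot_secL (fun z => 2 * (red z).count D.o + (2 * K + 4) *
              (2 * NT D rk T0 (red z) + 1)) j w).symm
        _ = 2 * T D (fun z => z.count D.o) j w + (2 * K + 4) * (2 * T D (NT D rk T0) j w + 2 ^ j) := by
            have e1 : D.tot (fun z => 2 * (red z).count D.o + (2 * K + 4) *
              (2 * NT D rk T0 (red z) + 1)) j w = T D (fun z => 2 * z.count D.o + (2 * K + 4) *
              (2 * NT D rk T0 z + 1)) j w := rfl
            rw [e1, T_add, T_smul, T_smul, T_add, T_smul, T_const, one_mul]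
        _ ≤ 2 * (1 * M + c2 * r) + (2 * K + 4) * (2 * (0 * M + c1 * r) + r) := by
            gcongr
        _ = 2 * M + (2 * c2 + (2 * K + 4) * (2 * c1 + 1)) * r := by ring
        _ ≤ 2 * (n + C) + (2 * c2 + (2 * K + 4) * (2 * c1 + 1)) * (n + C) := by
            gcongr
        _ = C0 * n + C0 * C := by rw [hC0]; ring
        _ ≤ a := by rw [ha', hC₁]; omega
    · calc ∑ k, viol (tu D rk T0 cd j w k)
          ≤ ∑ v : Fin j → Bool, (4 * (2 * NT D rk T0 (red (D.secL (List.ofFn v) w)) + 1)) :=
            Finset.sum_le_sum fun v _ => cdw_viol T0 cd _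
        _ = D.tot (fun z => 4 * (2 * NT D rk T0 (red z) + 1)) j w :=
            ((b3 D).tot_secL (fun z => 4 * (2 * NT D rk T0 (red z) + 1)) j w).symm
        _ = 4 * (2 * T D (NT D rk T0) j w + 2 ^ j) := by
            have e1 : D.tot (fun z => 4 * (2 * NT D rk T0 (red z) + 1)) j w =
              T D (fun z => 4 * (2 * NT D rk T0 z + 1)) j w := rfl
            rw [e1, T_smul, T_add, T_smul, T_const, one_mul]
        _ ≤ 4 * (2 * (0 * M + c1 * r) + r) := by gcongr
        _ = V0 * r := by rw [hV0]; ring
        _ = V0 * (n / N) + V0 * C := by rw [hr]; ring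
        _ ≤ b := by rw [hb, hC₁]; omega
  have hfinU : (⋃ j ∈ range (J + 1), S j).Finite :=
    Set.Finite.biUnion (Finset.finite_toSet _) (fun j _ => (hlev j).1)
  have hgam : D.gam n = ({g : List Bool → List Bool |
      ∃ w : List L, w.length ≤ n ∧ D.ev w = g}).ncard := rfl
  rw [hgam]
  have e1 : ({g : List Bool → List Bool | ∃ w : List L, w.length ≤ n ∧ D.ev w = g}).ncard ≤
      ∑ j ∈ range (J + 1), (S j).ncard :=
    (Set.ncard_le_ncard hcover hfinU).trans (Finset.set_ncard_biUnion_le _ _)
  calc ((({g : List Bool → List Bool | ∃ w : List L, w.length ≤ n ∧ D.ev w = g}).ncard : ℕ) : ℝ)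
      ≤ ((∑ j ∈ range (J + 1), (S j).ncard : ℕ) : ℝ) := by exact_mod_cast e1
    _ = ∑ j ∈ range (J + 1), ((S j).ncard : ℝ) := by push_cast; rfl
    _ ≤ ∑ j ∈ range (J + 1), (A j : ℝ) * (CC j * Real.exp (δ * n)) := by
        refine Finset.sum_le_sum fun j _ => ?_
        calc ((S j).ncard : ℝ) ≤ ((A j * (Tset (Fintype.card (Fin j → Bool)) a b).ncard : ℕ) : ℝ) := by
              exact_mod_cast (hlev j).2
          _ = (A j : ℝ) * ((Tset (Fintype.card (Fin j → Bool)) a b).ncard : ℝ) := by
              push_cast; rfl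
          _ ≤ _ := mul_le_mul_of_nonneg_left (hCC j n).2 (Nat.cast_nonneg _)
    _ = _ := by
        rw [Finset.sum_mul]
        refine Finset.sum_congr rfl fun j _ => ?_
        ring

end R4.Rl
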