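import Pool.Agent.Work.MP_e3f5d9_al_real48.RK

/-!
# R4, real systems, part M: separated pairs, monotone interior letters, finite order
-/

set_option autoImplicit false
set_option linter.unusedSectionVars false

open Finset

namespace R4.Rl

variable {L : Type} [Fintype L] [DecidableEq L] {D : KS L} {rk : L → ℕ} {E : Finset (Finset L)}

/-! ### Separated pairs along paths -/

/-- The cut `A` separates `x` and `y`. -/
def Sep (A : Finset L) (x y : L) : Prop := ¬ (x ∈ A ↔ y ∈ A)

lemma sep_nm {X : Finset L} {x y : L} (h : Sep (D.nm X) x y) : Sep X x y := by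
  unfold Sep KS.nm at *
  split_ifs at h
  · intro hh
    apply h
    rw [Finset.mem_compl, Finset.mem_compl, hh]
  · exact h

lemma mem_lp {s : Bool} {A : Finset L} {x : L} : x ∈ D.lp s A ↔ D.side x = s ∧ D.nxt x ∈ A := by
  simp [KS.lp]

lemma arrow_sep {A B : Finset L} (hA : D.Arrow E A B) {x y : L} (hs : D.side x = D.side y)
    (hsep : Sep B x y) : Sep A (D.nxt x) (D.nxt y) := by
  obtain ⟨-, -, s, rfl⟩ := hA
  have h1 := sep_nm hsep
  intro hh
  apply h1
  rw [mem_lp, mem_lp, hs, hh]

lemma arrow_coll {A B : Finset L} (hA : D.Arrow E A B) {x y : L}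
    (hz : D.nxt x = D.nxt y) (hsep : Sep B x y) : D.nxt x ∈ A := by
  obtain ⟨-, -, s, rfl⟩ := hA
  have h1 := sep_nm hsep
  by_contra hh
  apply h1
  rw [mem_lp, mem_lp, ← hz]
  simp [hh]

lemma path_sep (x y : ℕ → L) (hstep : ∀ t A B, D.Arrow E A B → Sep B (x t) (y t) →
    Sep A (x (t + 1)) (y (t + 1))) : ∀ (n : ℕ) (A B : Finset L) (t : ℕ), D.Path E n A B →
    Sep B (x t) (y t) → Sep A (x (t + n)) (y (t + n)) := by
  intro n
  induction n with
  | zero => intro A B t hp hs; rw [hp.2]; exact hs
  | succ n ih =>
    intro A B t hp hs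
    obtain ⟨C, h1, h2⟩ := hp
    exact hstep _ _ _ h1 (ih C B t h2 hs)

lemma path_trans : ∀ (n m : ℕ) (A B C : Finset L), D.Path E n A B → D.Path E m B C →
    D.Path E (n + m) A C := by
  intro n
  induction n with
  | zero =>
    intro m A B C h1 h2
    rw [Nat.zero_add, h1.2]; exact h2
  | succ n ih =>
    intro m A B C h1 h2
    obtain ⟨X, h3, h4⟩ := h1
    rw [show n + 1 + m = (n + m) + 1 by ring]
    exact ⟨X, h3, ih m X B C h4 h2⟩

lemma path_mul {n : ℕ} (hmix : ∀ A ∈ E, ∀ B ∈ E, D.Path E n A B) : ∀ q : ℕ, ∀ A ∈ E, ∀ B ∈ E,
    D.Path E ((q + 1) * n) A B := by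
  intro q
  induction q with
  | zero => intro A hA B hB; rw [Nat.zero_add, Nat.one_mul]; exact hmix A hA B hB
  | succ q ih =>
    intro A hA B hB
    have h1 := hmix A hA A hA
    have h2 := ih A hA B hB
    rw [show (q + 1 + 1) * n = n + (q + 1) * n by ring]
    exact path_trans _ _ _ _ _ h1 h2

/-- A pair that moves periodically is separated by all cuts. -/
lemma sep_all (hm : D.Mixing E) (x y : ℕ → L) (p : ℕ) (hp : 0 < p) (hx : ∀ t, x (t + p) = x t)
    (hy : ∀ t, y (t + p) = y t) (hstep : ∀ t A B, D.Arrow E A B → Sep B (x t) (y t) →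
    Sep A (x (t + 1)) (y (t + 1))) {B : Finset L} (hB : B ∈ E) (hsep : Sep B (x 0) (y 0)) :
    ∀ A ∈ E, Sep A (x 0) (y 0) := by
  intro A hA
  obtain ⟨n, -, hmix⟩ := hm.mix
  obtain ⟨q, rfl⟩ : ∃ q, p = q + 1 := ⟨p - 1, by omega⟩
  have h1 := path_mul hmix q A hA B hB
  have h2 := path_sep x y hstep _ A B 0 h1 hsep
  have key : ∀ (f : ℕ → L), (∀ t, f (t + (q + 1)) = f t) → ∀ n, f (0 + (q + 1) * n) = f 0 := by
    intro f hf n
    induction n with
    | zero => simp
    | succ n ih =>
      rw [show 0 + (q + 1) * (n + 1) = (0 + (q + 1) * n) + (q + 1) by ring, hf, ih]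
  rwa [key x hx, key y hy] at h2

lemma sep_exists (h : IsReal D rk) {x y : L} (hxy : x ≠ y) : ∃ B ∈ gE D rk, Sep B x y := by
  rcases Nat.lt_trichotomy (rk x) (rk y) with h1 | h1 | h1
  · refine ⟨up rk y, up_mem ?_, ?_⟩
    · intro hh; rw [hh] at h1; have := h.o_min x; omega
    · unfold Sep
      rw [mem_up, mem_up]
      intro hh
      have := hh.2 le_rfl
      omega
  · exact absurd (h.inj _ _ h1) hxy
  · refine ⟨up rk x, up_mem ?_, ?_⟩
    · intro hh; rw [hh] at h1; have := h.o_min y; omega
    · unfold Sep
      rw [mem_up, mem_up]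
      intro hh
      have := hh.1 le_rfl
      omega

lemma up_e (h : IsReal D rk) : up rk (D.nxt D.o) = {D.nxt D.o} := by
  ext i
  rw [mem_up, Finset.mem_singleton]
  constructor
  · intro hi
    exact h.inj _ _ (le_antisymm (h.e_max i) hi)
  · intro hi; rw [hi]

/-! ### Monotone interior letters -/

lemma disj_dn_upp (y : L) : Disjoint (dn rk y) (upp rk y) := by
  rw [Finset.disjoint_left]
  intro i hi hi'
  rw [mem_dn] at hi
  rw [mem_upp] at hi'
  omega

lemma mono_step (h : IsReal D rk) {y : L} (hm : D.Mono (gE D rk) (dn rk y) (upp rk y)) :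
    D.Mono (gE D rk) (dn rk (D.nxt y)) (upp rk (D.nxt y)) := by
  have ho : D.o ∈ dn rk (D.nxt y) := by
    rw [mem_dn]; exact o_lt h (D.nxt_ne y)
  cases hs : D.side y with
  | false =>
    refine KS.Mono.image false _ _ ho (disj_dn_upp _) ?_
    have e1 : D.lp false (dn rk (D.nxt y))ᶜ = up rk y := by
      ext i
      rw [mem_lp, compl_dn, mem_up, mem_up]
      constructor
      · rintro ⟨h1, h2⟩
        by_contra hcon
        rw [not_le] at hcon
        have := h.mono i y h1 hs hcon
        omega
      · intro h1
        have h2 : D.side i = false := by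
          cases hi : D.side i with
          | false => rfl
          | true => have := h.cross i y hi hs; omega
        refine ⟨h2, ?_⟩
        by_cases hiy : y = i
        · rw [hiy]
        · have h3 : rk y < rk i := by
            rcases Nat.lt_or_ge (rk y) (rk i) with h4 | h4
            · exact h4
            · exact absurd (h.inj _ _ (le_antisymm h1 h4)) hiy
          exact (h.mono y i hs h2 h3).le
    have e2 : D.lp false (upp rk (D.nxt y)) = upp rk y := by
      ext i
      rw [mem_lp, mem_upp, mem_upp]
      constructor
      · rintro ⟨h1, h2⟩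
        by_contra hcon
        rw [not_lt] at hcon
        by_cases hiy : i = y
        · rw [hiy] at h2; omega
        · have h3 : rk i < rk y := by
            rcases Nat.lt_or_ge (rk i) (rk y) with h4 | h4
            · exact h4
            · exact absurd (h.inj _ _ (le_antisymm hcon h4)) hiy
          have := h.mono i y h1 hs h3
          omega
      · intro h1
        have h2 : D.side i = false := by
          cases hi : D.side i with
          | false => rfl
          | true => have := h.cross i y hi hs; omega
        exact ⟨h2, h.mono y i hs h2 h1⟩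
    rw [e1, e2, compl_up]
    exact hm
  | true =>
    refine KS.Mono.image true _ _ ho (disj_dn_upp _) ?_
    have e1 : (D.lp true (dn rk (D.nxt y))ᶜ)ᶜ = upp rk y := by
      ext i
      rw [Finset.mem_compl, mem_lp, compl_dn, mem_up, mem_upp]
      constructor
      · intro h1
        by_contra hcon
        rw [not_lt] at hcon
        apply h1
        have h2 : D.side i = true := by
          cases hi : D.side i with
          | true => rfl
          | false => have := h.cross y i hs hi; omega
        refine ⟨h2, ?_⟩
        by_cases hiy : i = y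
        · rw [hiy]
        · have h3 : rk i < rk y := by
            rcases Nat.lt_or_ge (rk i) (rk y) with h4 | h4
            · exact h4
            · exact absurd (h.inj _ _ (le_antisymm hcon h4)) hiy
          exact (h.anti i y h2 hs h3).le
      · rintro h1 ⟨h2, h3⟩
        have := h.anti y i hs h2 h1
        omega
    have e2 : D.lp true (upp rk (D.nxt y)) = dn rk y := by
      ext i
      rw [mem_lp, mem_upp, mem_dn]
      constructor
      · rintro ⟨h1, h2⟩
        by_contra hcon
        rw [not_lt] at hcon
        by_cases hiy : y = i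
        · rw [hiy] at h2; omega
        · have h3 : rk y < rk i := by
            rcases Nat.lt_or_ge (rk y) (rk i) with h4 | h4
            · exact h4
            · exact absurd (h.inj _ _ (le_antisymm hcon h4)) hiy
          have := h.anti y i hs h1 h3
          omega
      · intro h1
        have h2 : D.side i = true := by
          cases hi : D.side i with
          | true => rfl
          | false => have := h.cross y i hs hi; omega
        exact ⟨h2, h.anti i y h2 hs h1⟩
    rw [e1, e2]
    exact KS.Mono.symm _ _ hm

lemma mono_triv (h : IsReal D rk) {y : L} (hyo : y ≠ D.o) (hye : y ≠ D.nxt D.o)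
    (hy : ∀ i, D.side i = true → D.nxt i ≠ y) :
    D.Mono (gE D rk) (dn rk y) (upp rk y) := by
  have ho : D.o ∈ dn rk y := by
    rw [mem_dn]; exact o_lt h hyo
  refine KS.Mono.image true _ _ ho (disj_dn_upp _) ?_
  have e1 : D.lp true (dn rk y)ᶜ = D.lp true (upp rk y) := by
    ext i
    rw [mem_lp, mem_lp, compl_dn, mem_up, mem_upp]
    constructor
    · rintro ⟨h1, h2⟩
      refine ⟨h1, ?_⟩
      rcases Nat.lt_or_ge (rk y) (rk (D.nxt i)) with h4 | h4
      · exact h4
      · exact absurd (h.inj _ _ (le_antisymm h4 h2)) (hy i h1)
    · rintro ⟨h1, h2⟩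
      exact ⟨h1, h2.le⟩
  rw [e1]
  set X := D.lp true (upp rk y) with hX
  have hoX : D.o ∈ X := by
    rw [hX, mem_lp, mem_upp]
    exact ⟨h.side_o, lt_e h hye⟩
  have hside : D.Side (gE D rk) Xᶜ := by
    unfold KS.Side KS.nm
    have : D.o ∉ Xᶜ := by simpa using hoX
    rw [if_neg this]
    have hne : (Xᶜ : Finset L).Nonempty := by
      refine ⟨D.nxt D.o, ?_⟩
      rw [Finset.mem_compl, hX, mem_lp, h.side_e]
      simp
    obtain ⟨q, hq, hmin⟩ := (Xᶜ : Finset L).exists_min_image rk hne
    refine mem_gE.2 ⟨q, ?_, ?_⟩
    · intro hh; rw [hh] at hq; exact this hq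
    · ext i
      rw [mem_up]
      constructor
      · intro hi
        rw [Finset.mem_compl]
        intro hiX
        rw [Finset.mem_compl] at hq
        rw [hX, mem_lp, mem_upp] at hiX hq
        obtain ⟨h1, h2⟩ := hiX
        cases hqs : D.side q with
        | false =>
          have := h.cross i q h1 hqs
          omega
        | true =>
          by_cases hiq : q = i
          · apply hq
            rw [hiq]
            exact ⟨h1, h2⟩
          · have h3 : rk q < rk i := by
              rcases Nat.lt_or_ge (rk q) (rk i) with h4 | h4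
              · exact h4
              · exact absurd (h.inj _ _ (le_antisymm hi h4)) hiq
            have h4 := h.anti q i hqs h1 h3
            apply hq
            exact ⟨hqs, by omega⟩
      · intro hi
        exact hmin i hi
  have := KS.Mono.triv (D := D) (E := gE D rk) Xᶜ hside
  rwa [compl_compl] at this

lemma iterate_mul_per {f : L → L} {u : L} {P : ℕ} (hP : f^[P] u = u) : ∀ c : ℕ,
    f^[c * P] u = u := by
  intro c
  induction c with
  | zero => simp
  | succ c ih => rw [show (c + 1) * P = c * P + P by ring, Function.iterate_add_apply, hP, ih]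

/-- All interior letters separate monotonically. -/
theorem allMono (h : IsReal D rk) (hm : D.Mixing (gE D rk)) : AllMono D rk := by
  set u := D.nxt (D.nxt D.o) with hu
  have hint : ∀ l : ℕ, D.nxt^[l] u ≠ D.o ∧ D.nxt^[l] u ≠ D.nxt D.o := fun l =>
    ⟨(LE_all h l).1, (LE_all h l).2.1⟩
  have hrep : ∀ y, y ≠ D.o → y ≠ D.nxt D.o → ∃ l : ℕ, D.nxt^[l] u = y := by
    intro y hyo hye
    obtain ⟨k, hk⟩ := h.orb y
    rcases k with _ | _ | k
    · exact absurd hk.symm hyo
    · exact absurd hk.symm hye
    · refine ⟨k, ?_⟩
      rw [← hk, Function.iterate_add_apply]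
      rfl
  have hgo : ∀ (y : L), D.Mono (gE D rk) (dn rk y) (upp rk y) → ∀ l : ℕ,
      D.Mono (gE D rk) (dn rk (D.nxt^[l] y)) (upp rk (D.nxt^[l] y)) := by
    intro y hy l
    induction l with
    | zero => exact hy
    | succ l ih => rw [Function.iterate_succ_apply']; exact mono_step h ih
  by_cases hA : ∀ i, D.side i = true → D.nxt i ≠ u
  · have h1 := mono_triv h (hint 0).1 (hint 0).2 hA
    intro y hyo hye
    obtain ⟨l, hl⟩ := hrep y hyo hye
    rw [← hl]
    exact hgo u h1 l
  · push Not at hA
    obtain ⟨q, hq1, hq2⟩ := hA
    have hqo : q ≠ D.o := by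
      intro hh
      rw [hh] at hq2
      exact (hint 0).2 hq2.symm
    have hqe : q ≠ D.nxt D.o := side_ne h hq1
    obtain ⟨k, hk⟩ := hrep q hqo hqe
    have hper : D.nxt^[k + 1] u = u := by
      rw [Function.iterate_succ_apply', hk, hq2]
    -- a right letter in the cycle
    have hright : ∃ l : ℕ, D.side (D.nxt^[l] u) = false := by
      by_contra hcon
      push Not at hcon
      have hleft : ∀ l : ℕ, D.side (D.nxt^[l] u) = true := by
        intro l
        cases hs : D.side (D.nxt^[l] u) with
        | true => rfl
        | false => exact absurd hs (hcon l)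
      by_cases hfix : D.nxt u = u
      · -- the fixed point
        have hall := sep_all hm (fun t => if t % 2 = 0 then D.o else D.nxt D.o) (fun _ => u) 2
          (by norm_num) (fun t => by simp) (fun _ => rfl) (by
            intro t A B hAB hs
            by_cases ht : t % 2 = 0
            · have ht' : ¬ (t + 1) % 2 = 0 := by omega
              simp only [ht, ht', if_true, if_false] at hs ⊢
              have := arrow_sep hAB (h.side_o.trans (hleft 0).symm) hs
              rwa [Function.iterate_zero_apply, hfix] at this
            · have ht' : (t + 1) % 2 = 0 := by omega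
              simp only [ht, ht', if_true, if_false] at hs ⊢
              have h1 := arrow_coll hAB (show D.nxt (D.nxt D.o) = D.nxt u by rw [hfix]) hs
              have h2 := hm.norm A hAB.1
              intro hh
              exact h2 (hh.2 h1)) (B := ({D.o} : Finset L)ᶜ) hm.base (by
            unfold Sep
            have := (hint 0).1
            simp only [Function.iterate_zero_apply] at this
            simp [this])
        have h1 := hall (up rk (D.nxt D.o)) (up_mem (D.nxt_ne D.o))
        rw [up_e h] at h1
        apply h1
        have h2 := (hint 0).2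
        simp only [Function.iterate_zero_apply] at h2
        simp [(D.nxt_ne D.o).symm, h2]
      · have hall : ∀ B ∈ gE D rk, Sep B u (D.nxt u) → ∀ A ∈ gE D rk, Sep A u (D.nxt u) := by
          intro B hB hs
          have := sep_all hm (fun t => D.nxt^[t] u) (fun t => D.nxt^[t] (D.nxt u)) (k + 1)
            (by omega) (fun t => by
              rw [Function.iterate_add_apply, hper]) (fun t => by
              rw [Function.iterate_add_apply, ← Function.iterate_succ_apply,
                Function.iterate_succ_apply', hper]) (by
              intro t A B hAB hs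
              rw [Function.iterate_succ_apply', Function.iterate_succ_apply']
              refine arrow_sep hAB ?_ hs
              rw [hleft t, ← Function.iterate_succ_apply, hleft (t + 1)]) hB hs
          exact this
        obtain ⟨B, hB, hsB⟩ := sep_exists h (show u ≠ D.nxt u from fun hh => hfix hh.symm)
        have h1 := hall B hB hsB _ hm.base
        apply h1
        have h2 := (hint 0).1
        have h3 := (hint 1).1
        simp only [Function.iterate_zero_apply, Function.iterate_one] at h2 h3
        simp [h2, h3]
    obtain ⟨l, hl⟩ := hright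
    -- the successor has no left preimage
    have hcyc : ∀ m : ℕ, D.nxt^[k + 1] (D.nxt^[m] u) = D.nxt^[m] u := by
      intro m
      rw [← Function.iterate_add_apply, Nat.add_comm, Function.iterate_add_apply, hper]
    have h1 := mono_triv h (hint (l + 1)).1 (hint (l + 1)).2 (by
      intro i hi hh
      have hio : i ≠ D.o := by
        intro h2
        rw [h2] at hh
        exact (hint (l + 1)).2 hh.symm
      have hie : i ≠ D.nxt D.o := side_ne h hi
      obtain ⟨m, hm'⟩ := hrep i hio hie
      have h2 : D.nxt^[k + 1] i = D.nxt^[k + 1] (D.nxt^[l] u) := by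
        rw [Function.iterate_succ_apply, hh, Function.iterate_succ_apply']
        rfl
      rw [hcyc l] at h2
      rw [← hm'] at h2
      rw [hcyc m, hm'] at h2
      rw [h2, hl] at hi
      exact Bool.false_ne_true hi)
    intro y hyo hye
    obtain ⟨m, hm'⟩ := hrep y hyo hye
    have h2 := hgo _ h1 (m + (l + 1) * k)
    have e : D.nxt^[m + (l + 1) * k] (D.nxt^[l + 1] u) = y := by
      rw [← Function.iterate_add_apply, show m + (l + 1) * k + (l + 1) = m + (l + 1) * (k + 1) by
        ring, Function.iterate_add_apply, iterate_mul_per hper, hm']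
    rwa [e] at h2

/-! ### Finite order of the product of the colliding letters -/

lemma uniq_coll {i i' p q : L} (hi : i ≠ i') (hii : D.nxt i = D.nxt i') (hp : p ≠ q)
    (hpq : D.nxt p = D.nxt q) : D.nxt i = D.nxt p := by
  by_contra hne
  have hip : i ≠ p := fun hh => hne (by rw [hh])
  have h1 : (univ.erase D.o : Finset L) ⊆ ((univ.erase i).erase p).image D.nxt := by
    intro j hj
    obtain ⟨x, hx⟩ := D.surj j (Finset.ne_of_mem_erase hj)
    rw [Finset.mem_image]
    by_cases hxi : x = i
    · refine ⟨i', ?_, by rw [← hii, ← hxi]; exact hx⟩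
      rw [Finset.mem_erase, Finset.mem_erase]
      refine ⟨?_, hi.symm, mem_univ _⟩
      intro hh; rw [hh] at hii; exact hne hii
    · by_cases hxp : x = p
      · refine ⟨q, ?_, by rw [← hpq, ← hxp]; exact hx⟩
        rw [Finset.mem_erase, Finset.mem_erase]
        refine ⟨hp.symm, ?_, mem_univ _⟩
        intro hh; rw [hh] at hpq; exact hne hpq.symm
      · exact ⟨x, by rw [Finset.mem_erase, Finset.mem_erase]; exact ⟨hxp, hxi, mem_univ _⟩, hx⟩
  have h2 := Finset.card_le_card h1
  have h3 := Finset.card_image_le (s := (univ.erase i).erase p) (f := D.nxt)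
  have h4 : ((univ.erase i).erase p).card = Fintype.card L - 1 - 1 := by
    rw [Finset.card_erase_of_mem, Finset.card_erase_of_mem (mem_univ _), Finset.card_univ]
    rw [Finset.mem_erase]; exact ⟨hip.symm, mem_univ _⟩
  have h5 : (univ.erase D.o : Finset L).card = Fintype.card L - 1 := by
    rw [Finset.card_erase_of_mem (mem_univ _), Finset.card_univ]
  have h6 : 2 ≤ Fintype.card L := by
    have := Finset.card_le_card (Finset.subset_univ ({i, p} : Finset L))
    rw [Finset.card_pair hip, Finset.card_univ] at this
    exact this
  omega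

lemma fo_aux (h : IsReal D rk) (hm : D.Mixing (gE D rk)) {p q : L} (hpq : p ≠ q)
    (hz : D.nxt p = D.nxt q) (hper : ∀ l : ℕ, 0 < l → D.nxt^[l] p ≠ p) {a : ℕ}
    (ha : D.nxt^[a] D.o = p) : ∀ m ≤ a, ∀ j, D.nxt^[a - m] j = q →
    (∀ l < a - m, D.side (D.nxt^[l] j) = D.side (D.nxt^[m + l] D.o)) →
    D.FO (D.nxt^[m] D.o) j := by
  have hU : ∀ m' : ℕ, 1 ≤ m' → m' ≤ a → D.nxt^[m'] D.o ≠ D.nxt p := by
    intro m' h1 h2 hh
    apply hper (a - m' + 1) (by omega)
    rw [Function.iterate_add_apply, Function.iterate_one, ← hh, ← Function.iterate_add_apply,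
      show a - m' + m' = a by omega, ha]
  have hpre : ∀ m' : ℕ, 1 ≤ m' → m' ≤ a → ∀ i i', D.nxt i = D.nxt^[m'] D.o →
      D.nxt i' = D.nxt^[m'] D.o → i = i' := by
    intro m' h1 h2 i i' h3 h4
    by_contra hne
    have := uniq_coll hne (h3.trans h4.symm) hpq hz
    rw [h3] at this
    exact hU m' h1 h2 this
  intro m
  induction m with
  | zero =>
    intro _ j hj hs
    by_cases hjo : j = D.o
    · rw [hjo]; exact KS.FO.refl _
    · refine KS.FO.base j hjo ?_
      intro i i' h1 h2
      by_contra hne
      have hjz : j = D.nxt p := by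
        rw [← h1]; exact uniq_coll hne (h1.trans h2.symm) hpq hz
      -- the pair moves periodically
      have hside : D.side p ≠ D.side q := fun hh => hpq (D.inj _ _ hz hh)
      have hall := sep_all hm (fun t => D.nxt^[t % (a + 1)] D.o) (fun t => D.nxt^[t % (a + 1)] j)
        (a + 1) (by omega) (fun t => by simp) (fun t => by simp) (by
          intro t A B hAB hsep
          have hlt := Nat.mod_lt t (show 0 < a + 1 by omega)
          by_cases hta : t % (a + 1) = a
          · have e : (t + 1) % (a + 1) = 0 := by
              rw [Nat.add_mod, hta]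
              rcases a with _ | a
              · simp
              · rw [Nat.mod_eq_of_lt (show 1 < a + 1 + 1 by omega), Nat.mod_self]
            rw [e]
            rw [hta] at hsep
            have e1 : D.nxt^[a] j = q := by simpa using hj
            rw [ha, e1] at hsep
            have h3 := arrow_coll hAB hz hsep
            have h4 := hm.norm A hAB.1
            simp only [Function.iterate_zero_apply]
            rw [hjz]
            intro hh
            exact h4 (hh.2 h3)
          · have e : (t + 1) % (a + 1) = t % (a + 1) + 1 := by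
              rw [Nat.add_mod, Nat.mod_eq_of_lt (show 1 < a + 1 by omega)]
              exact Nat.mod_eq_of_lt (by omega)
            rw [e, Function.iterate_succ_apply', Function.iterate_succ_apply']
            refine arrow_sep hAB ?_ hsep
            have := hs (t % (a + 1)) (by omega)
            rw [Nat.zero_add] at this
            exact this.symm) (B := ({D.o} : Finset L)ᶜ) hm.base (by
          unfold Sep
          simp [hjo])
      have h3 := hall (up rk (D.nxt D.o)) (up_mem (D.nxt_ne D.o))
      rw [up_e h] at h3
      have hje : j ≠ D.nxt D.o := by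
        rw [hjz]
        by_cases hpo : p = D.o
        · rw [hz]
          exact nxt_ne_e h (fun hh => hpq (hpo.trans hh.symm))
        · exact nxt_ne_e h hpo
      apply h3
      simp [(D.nxt_ne D.o).symm, hje]
  | succ m ih =>
    intro hma j hj hs
    have hio : D.nxt^[m + 1] D.o ≠ D.o := by
      rw [Function.iterate_succ_apply']; exact D.nxt_ne _
    by_cases hjo : j = D.o
    · rw [hjo]
      exact KS.FO.symm _ _ (KS.FO.base _ hio (hpre (m + 1) (by omega) hma))
    · refine KS.FO.step _ _ hio hjo ?_
      intro i' j' h1 h2 h3
      have hi' : i' = D.nxt^[m] D.o := hpre (m + 1) (by omega) hma _ _ h1 (by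
        rw [Function.iterate_succ_apply'])
      rw [hi'] at h3 ⊢
      refine ih (by omega) j' ?_ ?_
      · rw [show a - m = (a - (m + 1)) + 1 by omega, Function.iterate_succ_apply, h2]
        exact hj
      · intro l hl
        rcases l with _ | l
        · simpa using h3.symm
        · rw [Function.iterate_succ_apply, h2]
          have := hs l (by omega)
          rw [this]
          congr 2
          ring

/-- The product of the colliding letters has finite order. -/
theorem fo_real (h : IsReal D rk) (hm : D.Mixing (gE D rk)) :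
    ∀ p q, p ≠ q → D.nxt p = D.nxt q → D.FO p q := by
  intro p q hpq hz
  by_cases hp : ∀ l : ℕ, 0 < l → D.nxt^[l] p ≠ p
  · obtain ⟨a, ha⟩ := h.orb p
    have := fo_aux h hm hpq hz hp ha a le_rfl q (by simp) (by intro l hl; omega)
    rwa [ha] at this
  · by_cases hq : ∀ l : ℕ, 0 < l → D.nxt^[l] q ≠ q
    · obtain ⟨a, ha⟩ := h.orb q
      have := fo_aux h hm hpq.symm hz.symm hq ha a le_rfl p (by simp) (by intro l hl; omega)
      rw [ha] at this
      exact KS.FO.symm _ _ this
    · exfalso
      push Not at hp hq
      obtain ⟨l1, h1, h2⟩ := hp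
      obtain ⟨l2, h3, h4⟩ := hq
      apply hpq
      have e1 := iterate_mul_per h2 l2
      have e2 := iterate_mul_per h4 l1
      obtain ⟨n, hn⟩ : ∃ n, l2 * l1 = n + 1 := ⟨l2 * l1 - 1, by
        have := Nat.mul_pos h3 h1; omega⟩
      rw [Nat.mul_comm l1 l2, hn, Function.iterate_succ_apply] at e2
      rw [hn, Function.iterate_succ_apply] at e1
      rw [← e1, ← e2, hz]

/-- Real mixing kneading systems have intermediate growth. -/
theorem growth_real (h : IsReal D rk) (hm : D.Mixing (gE D rk)) : IntermediateGrowth D.grp :=
  b10 D (b1 D) (real_subexp h hm (allMono h hm)) (superpoly D (fo_real h hm))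

end R4.Rl
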