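import Pool.Agent.Work.MP_e3f5d9_al_helper91.RealG

/-!
# Periodic critical points give restrictive intervals
-/

set_option autoImplicit false

namespace RealB

lemma near_orb (c : ℝ) (n : ℕ) : ∃ K : ℝ, 0 ≤ K ∧ ∀ x : ℝ, |x| ≤ 1 →
    |(fun y : ℝ => y ^ 2 + c)^[n + 1] x - orb c (n + 1)| ≤ K * x ^ 2 := by
  induction n with
  | zero =>
    refine ⟨1, zero_le_one, fun x _ => ?_⟩
    simp [orb]
  | succ n ih =>
    obtain ⟨K, hK, h⟩ := ih
    refine ⟨K * (K + 2 * |orb c (n + 1)|), by positivity, fun x hx => ?_⟩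
    have h1 := h x hx
    rw [Function.iterate_succ_apply', orb_succ]
    set A := (fun y : ℝ => y ^ 2 + c)^[n + 1] x with hA
    set B := orb c (n + 1) with hB
    have hx2 : x ^ 2 ≤ 1 := by
      rw [abs_le] at hx
      nlinarith [hx.1, hx.2]
    have e : A ^ 2 + c - (B ^ 2 + c) = (A - B) * (A - B + 2 * B) := by ring
    have h2 : |A - B + 2 * B| ≤ K + 2 * |B| := by
      calc |A - B + 2 * B| ≤ |A - B| + |2 * B| := abs_add_le _ _
        _ ≤ K * x ^ 2 + 2 * |B| := by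
          rw [abs_mul, abs_two]
          linarith
        _ ≤ K + 2 * |B| := by nlinarith
    show |A ^ 2 + c - (B ^ 2 + c)| ≤ _
    rw [e, abs_mul]
    calc |A - B| * |A - B + 2 * B| ≤ (K * x ^ 2) * (K + 2 * |B|) :=
          mul_le_mul h1 h2 (abs_nonneg _) (by positivity)
      _ = K * (K + 2 * |B|) * x ^ 2 := by ring

/-- A periodic critical point gives a restrictive interval. -/
theorem renorm_of_periodic {c : ℝ} (hc : c ≠ 0) {n : ℕ} (hn : 1 ≤ n) (h : orb c n = 0) :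
    RealRenorm c := by
  classical
  -- the exact period
  have hex : ∃ n, 1 ≤ n ∧ orb c n = 0 := ⟨n, hn, h⟩
  obtain ⟨N, ⟨hN1, hN2⟩, hmin⟩ : ∃ N, (1 ≤ N ∧ orb c N = 0) ∧ ∀ m < N, ¬ (1 ≤ m ∧ orb c m = 0) :=
    ⟨Nat.find hex, Nat.find_spec hex, fun m hm => Nat.find_min hex hm⟩
  have hN : 2 ≤ N := by
    by_contra hcon
    have : N = 1 := by omega
    rw [this] at hN2
    apply hc
    simpa [orb] using hN2
  choose K hK0 hK using near_orb c
  set S : ℝ := ∑ k ∈ Finset.range N, K k with hS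
  have hSk : ∀ k < N, K k ≤ S := fun k hk =>
    Finset.single_le_sum (f := K) (fun i _ => hK0 i) (Finset.mem_range.2 hk)
  have hS0 : 0 ≤ S := Finset.sum_nonneg fun i _ => hK0 i
  -- the distance of the orbit from zero
  obtain ⟨δ, hδ0, hδ⟩ : ∃ δ : ℝ, 0 < δ ∧ ∀ k, 0 < k → k < N → δ ≤ |orb c k| := by
    have hne : (Finset.Ico 1 N).Nonempty := ⟨1, by rw [Finset.mem_Ico]; omega⟩
    obtain ⟨k0, hk0, hk1⟩ := Finset.exists_min_image (Finset.Ico 1 N) (fun k => |orb c k|) hne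
    rw [Finset.mem_Ico] at hk0
    refine ⟨|orb c k0|, ?_, fun k h1 h2 => hk1 k (by rw [Finset.mem_Ico]; omega)⟩
    rw [abs_pos]
    exact fun hh => hmin k0 hk0.2 ⟨hk0.1, hh⟩
  set b : ℝ := min 1 δ / (S + 1) with hb
  have hb0 : 0 < b := div_pos (lt_min one_pos hδ0) (by linarith)
  have hb1 : b * (S + 1) = min 1 δ := by
    rw [hb]; field_simp
  have hm1 : min 1 δ ≤ 1 := min_le_left _ _
  have hm2 : min 1 δ ≤ δ := min_le_right _ _
  have hble : b ≤ 1 := by nlinarith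
  have hx2 : ∀ x : ℝ, |x| ≤ b → x ^ 2 ≤ b ^ 2 := fun x hx => by
    rw [← sq_abs x]
    exact pow_le_pow_left₀ (abs_nonneg _) hx 2
  refine ⟨N, hN, b, hb0, ?_, ?_⟩
  · intro x hx
    obtain ⟨m, rfl⟩ : ∃ m, N = m + 1 := ⟨N - 1, by omega⟩
    have h1 := hK m x (hx.trans hble)
    rw [hN2, sub_zero] at h1
    have h2 := hSk m (by omega)
    have h3 := hx2 x hx
    have h4 := hK0 m
    calc _ ≤ K m * x ^ 2 := h1
      _ ≤ S * b ^ 2 := mul_le_mul h2 h3 (sq_nonneg _) hS0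
      _ ≤ b := by nlinarith
  · intro k hk1 hk2 x hx
    obtain ⟨m, rfl⟩ : ∃ m, k = m + 1 := ⟨k - 1, by omega⟩
    have h1 := hK m x (hx.trans hble)
    have h2 := hSk m (by omega)
    have h3 := hx2 x hx
    have h5 := hδ (m + 1) hk1 hk2
    have h6 : K m * x ^ 2 ≤ S * b ^ 2 := mul_le_mul h2 h3 (sq_nonneg _) hS0
    have h7 : |orb c (m + 1)| ≤ |(fun y : ℝ => y ^ 2 + c)^[m + 1] x| + S * b ^ 2 := by
      have := abs_sub_abs_le_abs_sub (orb c (m + 1)) ((fun y : ℝ => y ^ 2 + c)^[m + 1] x)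
      rw [abs_sub_comm] at this
      linarith
    have h8 : S * b ^ 2 ≤ S * b := by
      apply mul_le_mul_of_nonneg_left _ hS0
      nlinarith
    have h9 : b + S * b ≤ δ := by
      have : b + S * b = b * (S + 1) := by ring
      rw [this, hb1]; exact hm2
    linarith

end RealB
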