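import Pool.Agent.Work.MP_e3f5d9_al_real48.RM
import Pool.Agent.Work.MP_e3f5d9_al_helper91.RealF

/-!
# R4, real systems, part Z: transfer of growth, the two exceptional parameters
-/

set_option autoImplicit false
set_option linter.unusedSectionVars false

open Finset R4.B10Aux

namespace R4.Rl

/-! ### Transfer along isomorphisms -/

lemma ball_congr {G H : Type} [Group G] [Group H] (e : G ≃* H) [DecidableEq G] (S : Finset H)
    (n : ℕ) : ballSize (S.image e.symm) n = ballSize S n := by
  unfold ballSize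
  refine Nat.card_congr (Equiv.subtypeEquiv e.toEquiv ?_)
  intro g
  constructor
  · rintro ⟨l, h1, h2, h3⟩
    refine ⟨l.map e, by simpa using h1, ?_, ?_⟩
    · intro x hx
      obtain ⟨y, hy, rfl⟩ := List.mem_map.1 hx
      rcases h2 y hy with h4 | h4
      · left
        obtain ⟨z, hz, hz'⟩ := Finset.mem_image.1 h4
        rw [← hz']; simpa using hz
      · right
        obtain ⟨z, hz, hz'⟩ := Finset.mem_image.1 h4
        rw [← map_inv, ← hz']; simpa using hz
    · rw [← map_list_prod, h3]; rfl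
  · rintro ⟨l, h1, h2, h3⟩
    refine ⟨l.map e.symm, by simpa using h1, ?_, ?_⟩
    · intro x hx
      obtain ⟨y, hy, rfl⟩ := List.mem_map.1 hx
      rcases h2 y hy with h4 | h4
      · left; exact Finset.mem_image_of_mem _ h4
      · right; rw [← map_inv]; exact Finset.mem_image_of_mem _ h4
    · rw [← map_list_prod, h3]
      exact e.symm_apply_apply g

lemma closure_congr {G H : Type} [Group G] [Group H] (e : G ≃* H) (S : Set H)
    (hS : Subgroup.closure S = ⊤) : Subgroup.closure (e.symm '' S) = ⊤ := by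
  have h1 : Subgroup.map e.symm.toMonoidHom (Subgroup.closure S) =
      Subgroup.closure (e.symm.toMonoidHom '' S) := MonoidHom.map_closure _ _
  rw [hS] at h1
  have h2 : Subgroup.map e.symm.toMonoidHom ⊤ = ⊤ := by
    rw [eq_top_iff]
    intro g _
    exact ⟨e g, trivial, e.symm_apply_apply g⟩
  rw [h2] at h1
  exact h1.symm

/-- Intermediate growth is invariant under isomorphisms. -/
theorem ig_congr {G H : Type} [Group G] [Group H] (e : G ≃* H) (h : IntermediateGrowth G) :
    IntermediateGrowth H := by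
  classical
  obtain ⟨⟨S, hS⟩, hall⟩ := h
  refine ⟨⟨S.image e, ?_⟩, ?_⟩
  · have := closure_congr e.symm (S : Set G) hS
    rw [Finset.coe_image]
    exact this
  · intro S' hS'
    have h1 := hall (S'.image e.symm) (by
      rw [Finset.coe_image]
      exact closure_congr e _ hS')
    have h2 : ballSize (S'.image e.symm) = ballSize S' := by
      funext n; exact ball_congr e S' n
    rwa [h2] at h1

/-! ### Polynomial growth -/

lemma not_superpoly {f : ℕ → ℕ} {d C : ℕ} (hf : ∀ n, f n ≤ C * (n + 1) ^ d) : ¬ Superpoly f := by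
  intro h
  obtain ⟨n₀, hn⟩ := h (d + 1)
  set n := n₀ + C * 2 ^ d + 1 with hn'
  have h1 := hn n (by omega)
  have h2 := hf n
  have h3 : (n + 1) ^ d ≤ (2 * n) ^ d := Nat.pow_le_pow_left (by omega) d
  have h4 : C * (n + 1) ^ d ≤ C * 2 ^ d * n ^ d := by
    calc C * (n + 1) ^ d ≤ C * (2 * n) ^ d := Nat.mul_le_mul_left _ h3
      _ = C * 2 ^ d * n ^ d := by rw [mul_pow]; ring
  have h5 : C * 2 ^ d * n ^ d < n * n ^ d := by
    apply Nat.mul_lt_mul_of_pos_right
    · omega
    · exact pow_pos (by omega) d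
  have h6 : n ^ (d + 1) = n * n ^ d := by rw [pow_succ]; ring
  omega

section two

variable {L : Type} [Fintype L] [DecidableEq L] {D : KS L}

lemma length_red_le (w : List L) : (red w).length ≤ w.length := by
  induction w with
  | nil => simp [red]
  | cons x w ih =>
    rcases hr : red w with _ | ⟨y, t⟩
    · simp [red, hr]
    · rw [hr] at ih
      by_cases hxy : x = y
      · simp only [red, hr, hxy, if_true, List.length_cons] at ih ⊢
        omega
      · simp only [red, hr, hxy, if_false, List.length_cons] at ih ⊢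
        omega

lemma chain_two (hc : Fintype.card L ≤ 2) : ∀ (w w' : List L), w.IsChain (· ≠ ·) →
    w'.IsChain (· ≠ ·) → w.length = w'.length → w.head? = w'.head? → w = w' := by
  intro w
  induction w with
  | nil => intro w' _ _ h _; exact (List.length_eq_zero_iff.1 h.symm).symm
  | cons x w ih =>
    intro w' h1 h2 h3 h4
    rcases w' with _ | ⟨x', w'⟩
    · simp at h3
    · have hx : x = x' := by simpa using h4
      subst hx
      congr 1
      refine ih w' (List.IsChain.tail h1) (List.IsChain.tail h2) (by simpa using h3) ?_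
      rcases w with _ | ⟨y, w⟩
      · have : w' = [] := List.length_eq_zero_iff.1 (by simpa using h3.symm)
        rw [this]
      · rcases w' with _ | ⟨y', w'⟩
        · simp at h3
        · rw [List.isChain_cons_cons] at h1 h2
          by_contra hne
          have hyy : y ≠ y' := by
            intro hh; apply hne; simp [hh]
          have hsub : ({x, y, y'} : Finset L).card ≤ Fintype.card L := Finset.card_le_univ _
          rw [Finset.card_insert_of_notMem (by simp [h1.1, h2.1]),
            Finset.card_pair hyy] at hsub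
          omega

lemma gam_two (hc : Fintype.card L ≤ 2) (n : ℕ) : D.gam n ≤ (n + 1) * 3 := by
  classical
  unfold KS.gam
  have hex : ∀ g : {g : List Bool → List Bool // ∃ w : List L, w.length ≤ n ∧ D.ev w = g},
      ∃ w : List L, w.length < n + 1 ∧ w.IsChain (· ≠ ·) ∧ D.ev w = g.1 := by
    rintro ⟨g, w, hw, rfl⟩
    refine ⟨red w, ?_, (b1p L).red_chain w, (b1 D).ev_red w⟩
    have := length_red_le w
    omega
  choose W h1 h2 h3 using hex
  have e : Nat.card (Fin (n + 1) × Option L) = (n + 1) * (Fintype.card L + 1) := by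
    rw [Nat.card_eq_fintype_card, Fintype.card_prod, Fintype.card_fin, Fintype.card_option]
  refine (Nat.card_le_card_of_injective (fun g => ((⟨(W g).length, h1 g⟩ : Fin (n + 1)),
    (W g).head?)) ?_).trans ?_
  · intro g g' hgg
    simp only [Prod.mk.injEq, Fin.mk.injEq] at hgg
    have := chain_two hc (W g) (W g') (h2 g) (h2 g') hgg.1 hgg.2
    apply Subtype.ext
    rw [← h3 g, ← h3 g', this]
  · rw [e]
    exact Nat.mul_le_mul_left _ (by omega)

/-- A kneading group with at most two letters has polynomial growth. -/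
lemma not_ig_two (hc : Fintype.card L ≤ 2) : ¬ IntermediateGrowth D.grp := by
  classical
  intro h
  have h1 := h.2 _ (closure_gen D (b1 D))
  obtain ⟨K, hK, hb⟩ := ball_le_gam D (b1 D) (univ.image (gen D (b1 D)))
  refine not_superpoly (d := 1) (C := 3 * K) (fun n => ?_) h1.1
  refine (hb n).trans ((gam_two hc _).trans ?_)
  nlinarith

end two

/-! ### Commutative groups -/

lemma comm_ball {G : Type} [CommGroup G] (S : Finset G) (n : ℕ) :
    ballSize S n ≤ (2 * n + 1) ^ S.card := by
  classical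
  unfold ballSize
  have key : ∀ l : List G, (∀ x ∈ l, x ∈ S ∨ x⁻¹ ∈ S) → ∃ z : S → ℤ, (∀ s, |z s| ≤ l.length) ∧
      l.prod = ∏ s : S, (s : G) ^ z s := by
    intro l
    induction l with
    | nil => intro _; exact ⟨fun _ => 0, by simp, by simp⟩
    | cons x l ih =>
      intro hl
      obtain ⟨z, hz1, hz2⟩ := ih fun y hy => hl y (by simp [hy])
      have hstep : ∀ (s0 : S) (ε : ℤ), |ε| ≤ 1 → ∃ z' : S → ℤ, (∀ s, |z' s| ≤ (x :: l).length) ∧
          (s0 : G) ^ ε * l.prod = ∏ s : S, (s : G) ^ z' s := by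
        intro s0 ε hε
        refine ⟨fun s => z s + if s = s0 then ε else 0, ?_, ?_⟩
        · intro s
          have h1 := hz1 s
          rw [List.length_cons]
          push_cast
          split_ifs
          · exact (abs_add_le _ _).trans (by linarith)
          · rw [add_zero]; linarith
        · simp only [zpow_add, Finset.prod_mul_distrib]
          rw [mul_comm, hz2]
          congr 1
          rw [Finset.prod_eq_single s0]
          · simp
          · intro b _ hb; simp [hb]
          · intro hh; exact absurd (Finset.mem_univ _) hh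
      rcases hl x (by simp) with hx | hx
      · obtain ⟨z', h1, h2⟩ := hstep ⟨x, hx⟩ 1 (by simp)
        exact ⟨z', h1, by rw [← h2]; simp⟩
      · obtain ⟨z', h1, h2⟩ := hstep ⟨x⁻¹, hx⟩ (-1) (by simp)
        exact ⟨z', h1, by rw [← h2]; simp⟩
  have hex : ∀ g : {g : G // ∃ l : List G, l.length ≤ n ∧ (∀ x ∈ l, x ∈ S ∨ x⁻¹ ∈ S) ∧
      l.prod = g}, ∃ z : S → Fin (2 * n + 1), g.1 = ∏ s : S, (s : G) ^ (((z s).1 : ℤ) - n) := by
    rintro ⟨g, l, h1, h2, rfl⟩
    obtain ⟨z, hz1, hz2⟩ := key l h2
    have hz3 : ∀ s, -(n : ℤ) ≤ z s ∧ z s ≤ n := by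
      intro s
      have := hz1 s
      rw [abs_le] at this
      omega
    refine ⟨fun s => ⟨(z s + n).toNat, by have := hz3 s; omega⟩, ?_⟩
    show l.prod = _
    rw [hz2]
    refine Finset.prod_congr rfl fun s _ => ?_
    congr 1
    have := hz3 s
    simp only
    omega
  choose Z hZ using hex
  refine (Nat.card_le_card_of_injective Z ?_).trans ?_
  · intro g g' hgg
    apply Subtype.ext
    rw [hZ g, hZ g', hgg]
  · rw [Nat.card_eq_fintype_card, Fintype.card_fun, Fintype.card_fin, Fintype.card_coe]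

/-- Commutative groups do not have intermediate growth. -/
lemma not_ig_comm {G : Type} [Group G] (hc : ∀ a b : G, a * b = b * a) :
    ¬ IntermediateGrowth G := by
  intro h
  obtain ⟨⟨S, hS⟩, hall⟩ := h
  have h1 := (hall S hS).1
  let _ : CommGroup G := { (inferInstance : Group G) with mul_comm := hc }
  refine not_superpoly (d := S.card) (C := 2 ^ S.card) (fun n => ?_) h1
  refine (comm_ball S n).trans ?_
  rw [← mul_pow]
  exact Nat.pow_le_pow_left (by omega) _

/-! ### The parameter `0` -/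

section zero

open Polynomial unitInterval PCF RealB

lemma it_qf0 (n : ℕ) (z : ℂ) : it (qf 0) n z = z ^ (2 ^ n) := by
  induction n with
  | zero => simp [it_zero]
  | succ n ih =>
    rw [it_succ, ih, qf_eval, ← pow_mul, ← pow_succ]
    simp

lemma zero_mem_postCrit : (0 : ℂ) ∈ postCrit (qf 0) :=
  ⟨0, (qf_crit 0 0).2 rfl, 1, le_rfl, by rw [it_qf0]; simp⟩

/-- Lifts of a loop that differ by a root of unity at the beginning differ by it at the end. -/
lemma lift_rot {N : ℕ} (hN : 0 < N) {γ : C(I, ℂ)} (hγ : ∀ s, γ s ≠ 0) {Γ Γ' : C(I, ℂ)}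
    (h1 : ∀ s, Γ s ^ N = γ s) (h2 : ∀ s, Γ' s ^ N = γ s) : Γ' 1 * Γ 0 = Γ' 0 * Γ 1 := by
  have hne : ∀ s, Γ s ≠ 0 := by
    intro s hs
    apply hγ s
    rw [← h1 s, hs, zero_pow (by omega)]
  have hT : (nthRootsFinset N (1 : ℂ) : Set ℂ).Finite := Finset.finite_toSet _
  have hc : Continuous fun s : I => Γ' s / Γ s :=
    Γ'.continuous.div Γ.continuous hne
  have hdisc : IsDiscrete (nthRootsFinset N (1 : ℂ) : Set ℂ) := hT.isDiscrete
  have := (isPreconnected_univ (α := I)).constant_of_mapsTo hdisc hc.continuousOn (by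
    intro s _
    rw [Finset.mem_coe, mem_nthRootsFinset hN, div_pow, h1, h2, div_self (hγ s)])
    (Set.mem_univ (1 : I)) (Set.mem_univ (0 : I))
  rw [div_eq_div_iff (hne 1) (hne 0)] at this
  exact this

lemma acts_rot {t : ℂ} {γ : C(I, ℂ)} (hγ : ∀ s, γ s ≠ 0)
    {g : Equiv.Perm (Vertex (qf 0) t)} (hg : ActsAs (qf 0) t γ g) (v v' : Vertex (qf 0) t)
    (hvv : v.1.1 = v'.1.1) : (g v').1.2 * v.1.2 = v'.1.2 * (g v).1.2 := by
  obtain ⟨-, Γ, a1, a2, a3⟩ := hg v
  obtain ⟨-, Γ', b1, b2, b3⟩ := hg v'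
  rw [← hvv] at b3
  simp only [it_qf0] at a3 b3
  have := lift_rot (N := 2 ^ v.1.1) (by positivity) hγ a3 b3
  rw [a1, a2, b1, b2] at this
  exact this

lemma comm_gen {t : ℂ} (ht : t ≠ 0) {γ γ' : C(I, ℂ)} (hγ : ∀ s, γ s ≠ 0) (hγ' : ∀ s, γ' s ≠ 0)
    {g g' : Equiv.Perm (Vertex (qf 0) t)} (hg : ActsAs (qf 0) t γ g)
    (hg' : ActsAs (qf 0) t γ' g') : g * g' = g' * g := by
  apply Equiv.ext
  intro v
  rw [Equiv.Perm.mul_apply, Equiv.Perm.mul_apply]
  have l1 := (hg v).1
  have l2 := (hg' v).1
  have l3 := (hg (g' v)).1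
  have l4 := (hg' (g v)).1
  have e1 := acts_rot hγ hg v (g' v) l2.symm
  have e2 := acts_rot hγ' hg' v (g v) l1.symm
  have hv : v.1.2 ≠ 0 := by
    intro hh
    have := v.2
    rw [it_qf0, hh, zero_pow (by positivity)] at this
    exact ht this.symm
  apply Subtype.ext
  apply Prod.ext
  · rw [l3, l4, l1, l2]
  · have : (g (g' v)).1.2 * v.1.2 = (g' (g v)).1.2 * v.1.2 := by rw [e1, e2]; ring
    exact mul_right_cancel₀ hv this

/-- The iterated monodromy group of `z ^ 2` does not have intermediate growth. -/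
theorem not_ig_zero {t : ℂ} (ht : t ∉ postCrit (qf 0)) : ¬ IntermediateGrowth (IMG (qf 0) t) := by
  have ht0 : t ≠ 0 := fun hh => ht (hh ▸ zero_mem_postCrit)
  apply not_ig_comm
  have hcomm : ∀ x ∈ {g : Equiv.Perm (Vertex (qf 0) t) | ∃ γ : C(I, ℂ), γ 0 = t ∧ γ 1 = t ∧
      (∀ s, γ s ∉ postCrit (qf 0)) ∧ ActsAs (qf 0) t γ g},
      ∀ y ∈ {g : Equiv.Perm (Vertex (qf 0) t) | ∃ γ : C(I, ℂ), γ 0 = t ∧ γ 1 = t ∧
      (∀ s, γ s ∉ postCrit (qf 0)) ∧ ActsAs (qf 0) t γ g}, x * y = y * x := by
    rintro x ⟨γ, -, -, h1, h2⟩ y ⟨γ', -, -, h3, h4⟩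
    exact comm_gen ht0 (fun s hs => h1 s (hs ▸ zero_mem_postCrit))
      (fun s hs => h3 s (hs ▸ zero_mem_postCrit)) h2 h4
  intro a b
  exact (Subgroup.isMulCommutative_closure hcomm).is_comm.comm a b

/-- The iterated monodromy group of `z ^ 2 - 2` does not have intermediate growth. -/
theorem not_ig_neg_two {t : ℂ} (ht : t ∉ postCrit (qf (-2))) :
    ¬ IntermediateGrowth (IMG (qf (-2)) t) := by
  have horb : ∀ n, orb (-2) (n + 1) = -2 ∨ orb (-2) (n + 1) = 2 := by
    intro n
    induction n with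
    | zero => left; rw [zero_add, orb_succ]; simp [orb]
    | succ n ih =>
      right
      rw [orb_succ]
      rcases ih with h | h <;> rw [h] <;> norm_num
  have horb' : ∀ n, 1 ≤ n → orb (-2) n = -2 ∨ orb (-2) n = 2 := by
    intro n hn
    obtain ⟨m, rfl⟩ : ∃ m, n = m + 1 := ⟨n - 1, by omega⟩
    exact horb m
  have hfin : (postCrit (qf (-2))).Finite := by
    refine Set.Finite.subset (Set.toFinite ({((-2 : ℝ) : ℂ), ((2 : ℝ) : ℂ)} : Set ℂ)) ?_
    intro z hz
    obtain ⟨n, hn, rfl⟩ := mem_postCrit.1 hz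
    rcases horb' n hn with h | h <;> rw [h] <;> simp
  obtain ⟨P, hP, hmem, hiso⟩ := img_ks (-2) hfin (by
    intro n hn
    rcases horb' n hn with h | h <;> rw [h] <;> norm_num)
  obtain ⟨e⟩ := hiso t ht
  intro h
  have hcard : Fintype.card P ≤ 2 := by
    rw [Fintype.card_coe]
    have : P ⊆ ({-2, 2} : Finset ℝ) := by
      intro x hx
      obtain ⟨n, hn, rfl⟩ := (hmem x).1 hx
      rcases horb' n hn with h | h <;> rw [h] <;> simp
    exact (Finset.card_le_card this).trans Finset.card_le_two
  exact not_ig_two hcard (ig_congr e h)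

end zero

end R4.Rl
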