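import Pool.Agent.Work.MP_e3f5d9_al_helper91.RealH
import Pool.Agent.Work.MP_e3f5d9_al_real48.RFinal
import Pool.Agent.Work.MP_e3f5d9_al_real48.RPer

/-!
# Growth of the iterated monodromy groups of real quadratic polynomials

`PCF.postCrit`, `PCF.Vertex`, `PCF.ActsAs` and `PCF.IMG` (file `Work/MP_80ff4e_al/Defs.lean`) are the
post-critical set, the tree of preimages of the base point, the action of a loop on it by path
lifting, and the iterated monodromy group.  `R4.IntermediateGrowth` is in
`Work/MP_e3f5d9_al/Defs.lean`.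
-/

set_option autoImplicit false

open Polynomial

namespace Pool.Agent.Work.MP_e3f5d9_al_real48.RealParametersWeak

/-- The real map `x ^ 2 + c` has a restrictive interval `[-b, b]` of some period `n ≥ 2`: its
`n`-th iterate maps `[-b, b]` into itself and the iterates `1, ..., n - 1` map `[-b, b]` outside
`(-b, b)`. -/
def RealRenormalizable (c : ℝ) : Prop :=
  ∃ n : ℕ, 2 ≤ n ∧ ∃ b : ℝ, 0 < b ∧ (∀ x, |x| ≤ b → |(fun y : ℝ => y ^ 2 + c)^[n] x| ≤ b) ∧
    ∀ k : ℕ, 0 < k → k < n → ∀ x, |x| ≤ b → b ≤ |(fun y : ℝ => y ^ 2 + c)^[k] x|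

/-- Let `c` be real, `z ^ 2 + c` post-critically finite and not real renormalizable, and let `t`
be a base point outside the post-critical set.  The iterated monodromy group of `z ^ 2 + c` has
intermediate growth if and only if `c` is neither `0` nor `-2`. -/
theorem result (c : ℝ) (hfin : (PCF.postCrit (X ^ 2 + C (c : ℂ))).Finite)
    (hnr : ¬ RealRenormalizable c) (t : ℂ) (ht : t ∉ PCF.postCrit (X ^ 2 + C (c : ℂ))) :
    R4.IntermediateGrowth (PCF.IMG (X ^ 2 + C (c : ℂ)) t) ↔ c ≠ 0 ∧ c ≠ -2 := by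
  constructor
  · intro h
    refine ⟨?_, ?_⟩
    · intro hc
      subst hc
      exact R4.Rl.not_ig_zero ht h
    · intro hc
      subst hc
      exact R4.Rl.not_ig_neg_two ht h
  · rintro ⟨hc0, hc2⟩
    have h0 : ∀ n, 1 ≤ n → RealB.orb c n ≠ 0 := fun n hn h =>
      hnr (RealB.renorm_of_periodic hc0 hn h)
    exact RealB.ig_of_cov hfin h0 hc2
      (fun P h => (RealB.cov_or_renorm h hc2).resolve_right hnr) t ht

end Pool.Agent.Work.MP_e3f5d9_al_real48.RealParametersWeak
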